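import Pool.Agent.W_MP_5d512e_dic.D0l
import Pool.Agent.W_MP_5d512e_h33.Main

/-!
# The easy side
-/

set_option autoImplicit false

namespace Pool.Agent.W_MP_5d512e_dic

open Pool.Agent.W_MP_5d512e_h33

/-! ### Factors of infinite words -/

/-- Factor of length `n` at position `a`. -/
def blk {A : Type} (w : ℕ → A) : ℕ → ℕ → List A
  | _, 0 => []
  | a, n + 1 => w a :: blk w (a + 1) n

section

variable {A : Type} (w : ℕ → A)

lemma length_blk (a n : ℕ) : (blk w a n).length = n := by
  induction n generalizing a with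
  | zero => rfl
  | succ n ih => rw [blk, List.length_cons, ih]

lemma blk_append (a m n : ℕ) : blk w a (m + n) = blk w a m ++ blk w (a + m) n := by
  induction m generalizing a with
  | zero => simp [blk]
  | succ m ih =>
    rw [show m + 1 + n = m + n + 1 by ring, blk, ih, blk, show a + 1 + m = a + (m + 1) by ring]
    rfl

lemma blk_get (a n k : ℕ) (h : k < n) : (blk w a n)[k]? = some (w (a + k)) := by
  induction n generalizing a k with
  | zero => omega
  | succ n ih =>
    cases k with
    | zero => rfl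
    | succ k =>
      rw [blk, List.getElem?_cons_succ, ih (a + 1) k (by omega)]
      congr 2
      ring

lemma eq_blk {l : List A} {a : ℕ} (h : ∀ k, k < l.length → l[k]? = some (w (a + k))) :
    l = blk w a l.length := by
  apply List.ext_getElem?
  intro k
  by_cases hk : k < l.length
  · rw [h k hk, blk_get w a _ _ hk]
  · rw [List.getElem?_eq_none (by omega), List.getElem?_eq_none (by rw [length_blk]; omega)]

end

/-- Words that are fixed by a morphism, block by block. -/
lemma morphic_of_blk {m : ℕ} (H : Fin m → List (Fin m)) (ω : ℕ → Fin m) (f : ℕ → ℕ)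
    (f0 : f 0 = 0) (f1 : ∀ n, 1 ≤ n → n + 1 ≤ f n) (hmono : Monotone f)
    (h : ∀ i, H (ω i) = blk ω (f i) (f (i + 1) - f i)) (n : ℕ) :
    (wdm H n (ω 0))[n]? = some (ω n) := by
  have hit : ∀ s, Monotone (f^[s]) := fun s => hmono.iterate s
  have h0 : ∀ s, f^[s] 0 = 0 := by
    intro s
    induction s with
    | zero => rfl
    | succ s ih => rw [Function.iterate_succ_apply, f0, ih]
  have h1 : ∀ s, s + 1 ≤ f^[s] 1 := by
    intro s
    induction s with
    | zero => exact le_rfl
    | succ s ih =>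
      rw [Function.iterate_succ_apply']
      have := f1 (f^[s] 1) (by omega)
      omega
  have key : ∀ s i, wdm H s (ω i) = blk ω (f^[s] i) (f^[s] (i + 1) - f^[s] i) := by
    intro s
    induction s with
    | zero =>
      intro i
      simp [wdm, blk]
    | succ s ih =>
      intro i
      rw [wdm, h i]
      have hb : ∀ n a, (blk ω a n).flatMap (wdm H s) =
          blk ω (f^[s] a) (f^[s] (a + n) - f^[s] a) := by
        intro n
        induction n with
        | zero =>
          intro a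
          simp [blk]
        | succ n ihn =>
          intro a
          rw [blk, List.flatMap_cons, ih a, ihn (a + 1)]
          have m1 := hit s (by omega : a ≤ a + 1)
          have m2 := hit s (by omega : a + 1 ≤ a + 1 + n)
          have e1 : f^[s] (a + 1) = f^[s] a + (f^[s] (a + 1) - f^[s] a) := by omega
          have e2 : blk ω (f^[s] (a + 1)) (f^[s] (a + 1 + n) - f^[s] (a + 1)) =
              blk ω (f^[s] a + (f^[s] (a + 1) - f^[s] a))
                (f^[s] (a + 1 + n) - f^[s] (a + 1)) := by rw [← e1]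
          rw [e2, ← blk_append, show a + (n + 1) = a + 1 + n by ring]
          congr 1
          omega
      rw [hb, Function.iterate_succ_apply, Function.iterate_succ_apply]
      have := hmono (by omega : i ≤ i + 1)
      rw [show f i + (f (i + 1) - f i) = f (i + 1) by omega]
  have hk := key n 0
  rw [hk, h0, Nat.sub_zero, zero_add]
  have := h1 n
  rw [blk_get ω 0 _ n (by omega), zero_add]

end Pool.Agent.W_MP_5d512e_dic

/-! ### The state sequence -/

namespace Pool.Agent.W_MP_5d512e_h33.Sys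

open Pool.Agent.W_MP_5d512e_dic

variable {S A : Type} (Y : Sys S A)

/-- State when position `i` is read. -/
noncomputable def sq (i : ℕ) : S := (run Y.δ Y.out Y.q0 (blk Y.lim 0 i)).1

/-- Number of letters written before position `i` is read. -/
noncomputable def fo (i : ℕ) : ℕ := (run Y.δ Y.out Y.q0 (blk Y.lim 0 i)).2.length

lemma T_eq (i : ℕ) : Y.T i = blk Y.lim 0 (Y.T i).length := by
  apply eq_blk
  intro k hk
  rw [List.getElem?_eq_getElem hk, Y.T_getElem hk, zero_add]

lemma run_pre (i : ℕ) : (run Y.δ Y.out Y.q0 (blk Y.lim 0 (i + 1))).2 = Y.T i := by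
  obtain ⟨-, h2, -, h4⟩ := Y.inv i
  have e : (Y.T i).take (i + 1) = blk Y.lim 0 (i + 1) := by
    rw [T_eq Y i]
    obtain ⟨k, hk⟩ : ∃ k, (Y.T i).length = (i + 1) + k := ⟨(Y.T i).length - (i + 1), by omega⟩
    rw [hk, blk_append, List.take_append_of_le_length (by rw [length_blk]),
      List.take_of_length_le (by rw [length_blk])]
  rw [e] at h2
  exact h2.symm

lemma run_pre' (i : ℕ) : (run Y.δ Y.out Y.q0 (blk Y.lim 0 i)).2 = blk Y.lim 0 (Y.fo i) := by
  cases i with
  | zero => rfl
  | succ i =>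
    have := run_pre Y i
    unfold fo
    rw [this]
    exact T_eq Y i

lemma run_blk (i n : ℕ) : run Y.δ Y.out (Y.sq i) (blk Y.lim i n) =
    (Y.sq (i + n), blk Y.lim (Y.fo i) (Y.fo (i + n) - Y.fo i)) ∧ Y.fo i ≤ Y.fo (i + n) := by
  have h := run_append Y.δ Y.out Y.q0 (blk Y.lim 0 i) (blk Y.lim (0 + i) n)
  rw [← blk_append, zero_add] at h
  have h1 : (run Y.δ Y.out (Y.sq i) (blk Y.lim i n)).1 = Y.sq (i + n) := by
    rw [sq, sq, h]
  have h2 : blk Y.lim 0 (Y.fo (i + n)) = blk Y.lim 0 (Y.fo i) ++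
      (run Y.δ Y.out (Y.sq i) (blk Y.lim i n)).2 := by
    rw [← run_pre', ← run_pre', h]
    rfl
  have h3 := congrArg List.length h2
  rw [List.length_append, length_blk, length_blk] at h3
  have h4 : Y.fo (i + n) = Y.fo i + (Y.fo (i + n) - Y.fo i) := by omega
  refine ⟨?_, by omega⟩
  refine Prod.ext h1 ?_
  rw [h4, blk_append, List.append_cancel_left_eq, zero_add] at h2
  simp only
  rw [← h2]

lemma fo_zero : Y.fo 0 = 0 := rfl

lemma fo_le {i j : ℕ} (h : i ≤ j) : Y.fo i + (j - i) ≤ Y.fo j := by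
  obtain ⟨n, rfl⟩ := Nat.exists_eq_add_of_le h
  obtain ⟨h1, h2⟩ := run_blk Y i n
  have h3 := run_length Y.δ Y.out Y.hne (Y.sq i) (blk Y.lim i n)
  rw [h1, length_blk, length_blk] at h3
  omega

lemma fo_mono : Monotone Y.fo := by
  intro i j h
  have := fo_le Y h
  omega

lemma fo_ge (n : ℕ) (hn : 1 ≤ n) : n + 1 ≤ Y.fo n := by
  obtain ⟨i, rfl⟩ : ∃ i, n = i + 1 := ⟨n - 1, by omega⟩
  have h1 : Y.fo (i + 1) = (Y.T i).length := by
    unfold fo
    rw [run_pre]
  have h2 := (Y.inv i).2.2.2
  omega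

lemma sq_succ (i : ℕ) : Y.sq (i + 1) = Y.δ (Y.sq i) (Y.lim i) := by
  have h := (run_blk Y i 1).1
  have e : blk Y.lim i 1 = [Y.lim i] := rfl
  rw [e, run_singleton] at h
  exact (congrArg Prod.fst h).symm

lemma out_blk (i : ℕ) : Y.out (Y.sq i) (Y.lim i) = blk Y.lim (Y.fo i) (Y.fo (i + 1) - Y.fo i) := by
  have h := (run_blk Y i 1).1
  have e : blk Y.lim i 1 = [Y.lim i] := rfl
  rw [e, run_singleton] at h
  exact congrArg Prod.snd h

end Pool.Agent.W_MP_5d512e_h33.Sys

namespace Pool.Agent.W_MP_5d512e_dic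

open Pool.Agent.W_MP_5d512e_h33

/-! ### The action of words -/

/-- Two maps that reset two states. -/
def HasReset {p : ℕ} (F : Set (Fin p → Fin p)) : Prop :=
  ∃ x ∈ F, ∃ y ∈ F, ∃ s t : Fin p, s ≠ t ∧ x s = s ∧ x t = s ∧ y s = t ∧ y t = t

/-- A map with two fixed points that can be moved to each other. -/
def HasSwap {p : ℕ} (F : Set (Fin p → Fin p)) : Prop :=
  ∃ e ∈ F, ∃ a ∈ F, ∃ b ∈ F, ∃ s t : Fin p, s ≠ t ∧ e s = s ∧ e t = t ∧ a s = t ∧ b t = s

section

variable {p d : ℕ} {F : Set (Fin p → Fin p)} (Y : Sys (Fin p) (Fin d))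

lemma word_mem (hF : ∀ f ∈ F, ∀ g ∈ F, f ∘ g ∈ F) (hact : ∀ x, (fun s => Y.δ s x) ∈ F)
    (u : List (Fin d)) (hu : u ≠ []) : (fun q => (run Y.δ Y.out q u).1) ∈ F := by
  induction u with
  | nil => exact absurd rfl hu
  | cons x u ih =>
    by_cases h : u = []
    · subst h
      have e : (fun q => (run Y.δ Y.out q [x]).1) = (fun s => Y.δ s x) := by
        funext q
        rw [run_singleton]
      rw [e]
      exact hact x
    · have e : (fun q => (run Y.δ Y.out q (x :: u)).1) =
          (fun q => (run Y.δ Y.out q u).1) ∘ (fun s => Y.δ s x) := by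
        funext q
        rw [run_cons]
        rfl
      rw [e]
      exact hF _ (ih h) _ (hact x)

/-- From some position on, all states recur. -/
lemma exists_rec (s : ℕ → Fin p) : ∃ i0, ∀ i, i0 ≤ i → ∀ n, ∃ k, n ≤ k ∧ s k = s i := by
  have h : ∀ᶠ i in Filter.atTop, ∀ q : Fin p, s i = q → ∃ᶠ k in Filter.atTop, s k = q := by
    rw [Filter.eventually_all]
    intro q
    by_cases hq : ∃ᶠ k in Filter.atTop, s k = q
    · exact Filter.Eventually.of_forall fun _ _ => hq
    · rw [Filter.not_frequently] at hq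
      filter_upwards [hq] with i hi h
      exact absurd h hi
  obtain ⟨i0, h0⟩ := Filter.eventually_atTop.1 h
  refine ⟨i0, fun i hi n => ?_⟩
  obtain ⟨k, hk, hk'⟩ := (Filter.frequently_atTop.1 (h0 i hi (s i) rfl)) n
  exact ⟨k, hk, hk'⟩

/-- The state is determined by the next letters. -/
lemma state_det (hF : ∀ f ∈ F, ∀ g ∈ F, f ∘ g ∈ F) (hact : ∀ x, (fun s => Y.δ s x) ∈ F)
    (hR : ¬ HasReset F) (hH : ¬ HasSwap F) {i0 : ℕ}
    (h0 : ∀ i, i0 ≤ i → ∀ n, ∃ k, n ≤ k ∧ Y.sq k = Y.sq i) {i j : ℕ} (hi : i0 ≤ i)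
    (hj : i0 ≤ j) (hw : blk Y.lim i (p * p + 1) = blk Y.lim j (p * p + 1)) :
    Y.sq i = Y.sq j := by
  by_contra hne
  -- moving between recurrent states
  have hmove : ∀ a b, i0 ≤ b → ∃ g ∈ F, g (Y.sq a) = Y.sq b := by
    intro a b hb
    obtain ⟨k, hk, hk'⟩ := h0 b hb (a + 1)
    obtain ⟨n, rfl⟩ : ∃ n, k = a + (n + 1) := ⟨k - a - 1, by omega⟩
    refine ⟨fun q => (run Y.δ Y.out q (blk Y.lim a (n + 1))).1,
      word_mem Y hF hact _ (by simp [blk]), ?_⟩
    simp only
    rw [(Y.run_blk a (n + 1)).1, hk']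
  -- windows
  have hwk : ∀ k l, k ≤ l → l ≤ p * p + 1 →
      blk Y.lim (i + k) (l - k) = blk Y.lim (j + k) (l - k) := by
    intro k l hkl hl
    obtain ⟨n, rfl⟩ := Nat.exists_eq_add_of_le hkl
    obtain ⟨r, hr⟩ : ∃ r, p * p + 1 = k + n + r := ⟨p * p + 1 - (k + n), by omega⟩
    rw [hr, add_assoc, blk_append, blk_append, blk_append, blk_append] at hw
    have h1 := (List.append_inj hw (by rw [length_blk, length_blk])).2
    have h2 := (List.append_inj h1 (by rw [length_blk, length_blk])).1
    rw [Nat.add_sub_cancel_left]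
    exact h2
  -- no merging
  have hnm : ∀ k, k ≤ p * p + 1 → Y.sq (i + k) ≠ Y.sq (j + k) := by
    intro k hk heq
    have hk0 : k ≠ 0 := by
      rintro rfl
      exact hne heq
    apply hR
    set f : Fin p → Fin p := fun q => (run Y.δ Y.out q (blk Y.lim i k)).1 with hf
    have hfF : f ∈ F := by
      apply word_mem Y hF hact
      obtain ⟨k', rfl⟩ := Nat.exists_eq_succ_of_ne_zero hk0
      simp [blk]
    have f1 : f (Y.sq i) = Y.sq (i + k) := by
      rw [hf]
      simp only
      rw [(Y.run_blk i k).1]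
    have f2 : f (Y.sq j) = Y.sq (i + k) := by
      rw [hf]
      simp only
      have := hwk 0 k (by omega) hk
      rw [Nat.sub_zero, add_zero, add_zero] at this
      rw [this, (Y.run_blk j k).1, heq]
    obtain ⟨g, gF, hg⟩ := hmove (i + k) i hi
    obtain ⟨g', gF', hg'⟩ := hmove (i + k) j hj
    refine ⟨g ∘ f, hF g gF f hfF, g' ∘ f, hF g' gF' f hfF, Y.sq i, Y.sq j, hne, ?_, ?_, ?_, ?_⟩
    · rw [Function.comp_apply, f1, hg]
    · rw [Function.comp_apply, f2, hg]
    · rw [Function.comp_apply, f1, hg']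
    · rw [Function.comp_apply, f2, hg']
  -- pigeonhole
  obtain ⟨k, l, hkl, heq⟩ : ∃ k l : Fin (p * p + 1), k < l ∧
      (Y.sq (i + k), Y.sq (j + k)) = (Y.sq (i + l), Y.sq (j + l)) := by
    have hcard : Fintype.card (Fin p × Fin p) < Fintype.card (Fin (p * p + 1)) := by
      simp
    obtain ⟨k, l, hne', heq⟩ := Fintype.exists_ne_map_eq_of_card_lt
      (fun k : Fin (p * p + 1) => (Y.sq (i + k), Y.sq (j + k))) hcard
    rcases lt_or_gt_of_ne hne' with h | h
    · exact ⟨k, l, h, heq⟩
    · exact ⟨l, k, h, heq.symm⟩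
  have hkl' : (k : ℕ) < l := hkl
  have hl : (l : ℕ) ≤ p * p + 1 := by omega
  obtain ⟨q1, q2⟩ := Prod.mk.inj heq
  apply hH
  obtain ⟨a, aF, ha⟩ := hmove (i + k) (j + k) (by omega)
  obtain ⟨b, bF, hb⟩ := hmove (j + k) (i + k) (by omega)
  refine ⟨fun q => (run Y.δ Y.out q (blk Y.lim (i + k) (l - k))).1, ?_, a, aF, b, bF,
    Y.sq (i + k), Y.sq (j + k), hnm k (by omega), ?_, ?_, ha, hb⟩
  · apply word_mem Y hF hact
    obtain ⟨n, hn⟩ : ∃ n, (l : ℕ) - k = n + 1 := ⟨l - k - 1, by omega⟩
    rw [hn]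
    simp [blk]
  · simp only
    rw [(Y.run_blk (i + k) (l - k)).1]
    simp only
    rw [show i + (k : ℕ) + (l - k) = i + l by omega, q1]
  · simp only
    rw [hwk k l hkl'.le hl, (Y.run_blk (j + k) (l - k)).1]
    simp only
    rw [show j + (k : ℕ) + (l - k) = j + l by omega, q2]

/-- On the easy side, all words are in logarithmic space. -/
theorem easy (hF : ∀ f ∈ F, ∀ g ∈ F, f ∘ g ∈ F) (hact : ∀ x, (fun s => Y.δ s x) ∈ F)
    (hR : ¬ HasReset F) (hH : ¬ HasSwap F) : LogSpace Y.lim := by
  classical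
  obtain ⟨i0, h0⟩ := exists_rec Y.sq
  set n := p * p + 1 with hn
  -- windows
  let win : ℕ → (Fin n → Fin d) := fun i k => Y.lim (i + k)
  have hwin : ∀ i, List.ofFn (win i) = blk Y.lim i n := by
    intro i
    have : List.ofFn (win i) = blk Y.lim i (List.ofFn (win i)).length := by
      apply eq_blk
      intro k hk
      rw [List.getElem?_eq_getElem hk, List.getElem_ofFn]
    rw [List.length_ofFn] at this
    exact this
  have hdet : ∀ i j, i0 ≤ i → i0 ≤ j → win i = win j → Y.sq i = Y.sq j := by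
    intro i j hi hj hw
    apply state_det Y hF hact hR hH h0 hi hj
    rw [← hwin, ← hwin, hw]
  let Γ := Fin i0 ⊕ (Fin n → Fin d)
  let ω : ℕ → Γ := fun i => if h : i < i0 then Sum.inl ⟨i, h⟩ else Sum.inr (win i)
  let σ : (Fin n → Fin d) → Fin p := fun u =>
    if h : ∃ i, i0 ≤ i ∧ win i = u then Y.sq h.choose else Y.q0
  have hσ : ∀ i, i0 ≤ i → σ (win i) = Y.sq i := by
    intro i hi
    have h : ∃ j, i0 ≤ j ∧ win j = win i := ⟨i, hi, rfl⟩
    simp only [σ, dif_pos h]
    exact hdet _ _ h.choose_spec.1 hi h.choose_spec.2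
  have hn0 : 0 < n := by omega
  let H : Γ → List Γ := fun x =>
    match x with
    | Sum.inl i => blk ω (Y.fo i) (Y.fo (i + 1) - Y.fo i)
    | Sum.inr u => blk (fun k => Sum.inr (fun t : Fin n =>
        ((run Y.δ Y.out (σ u) (List.ofFn u)).2[k + t]?).getD Y.a)) 0
          (Y.out (σ u) (u ⟨0, hn0⟩)).length
  let c : Γ → Fin d := fun x =>
    match x with
    | Sum.inl i => Y.lim i
    | Sum.inr u => u ⟨0, hn0⟩
  have hc : ∀ i, c (ω i) = Y.lim i := by
    intro i
    by_cases h : i < i0
    · simp only [ω, dif_pos h, c]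
    · simp only [ω, dif_neg h, c, win, add_zero]
  have hH' : ∀ i, H (ω i) = blk ω (Y.fo i) (Y.fo (i + 1) - Y.fo i) := by
    intro i
    by_cases h : i < i0
    · simp only [ω, dif_pos h, H]
    · have hi : i0 ≤ i := by omega
      have e1 : ω i = Sum.inr (win i) := by simp only [ω, dif_neg h]
      rw [e1]
      simp only [H]
      rw [hσ i hi]
      have e2 : win i ⟨0, hn0⟩ = Y.lim i := by simp [win]
      rw [e2, Y.out_blk i, length_blk, hwin, (Y.run_blk i n).1]
      simp only
      have hge := Y.fo_le (by omega : i + 1 ≤ i + n)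
      have hge' := Y.fo_le (Nat.zero_le i)
      apply List.ext_getElem?
      intro k
      by_cases hk : k < Y.fo (i + 1) - Y.fo i
      · rw [blk_get _ _ _ _ hk, blk_get _ _ _ _ hk, zero_add]
        have e3 : ¬ (Y.fo i + k < i0) := by omega
        have e4 : ω (Y.fo i + k) = Sum.inr (win (Y.fo i + k)) := by
          simp only [ω, dif_neg e3]
        rw [e4]
        congr 2
        funext t
        have ht := t.isLt
        rw [blk_get _ _ _ _ (by omega)]
        simp only [Option.getD_some, win]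
        congr 1
        ring
      · rw [List.getElem?_eq_none (by rw [length_blk]; omega),
          List.getElem?_eq_none (by rw [length_blk]; omega)]
  -- transport
  obtain ⟨m, ⟨e⟩⟩ := Finite.exists_equiv_fin Γ
  have hmap : ∀ a k, (blk ω a k).map e = blk (fun i => e (ω i)) a k := by
    intro a k
    induction k generalizing a with
    | zero => rfl
    | succ k ih => rw [blk, List.map_cons, ih, blk]
  have hfin := morphic_log (fun x => (H (e.symm x)).map e) (fun x => c (e.symm x)) (e (ω 0))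
    (fun i => e (ω i))
    (morphic_of_blk (fun x => (H (e.symm x)).map e) (fun i => e (ω i)) Y.fo Y.fo_zero
      (fun n hn => Y.fo_ge n hn) Y.fo_mono (by
        intro i
        simp only [Equiv.symm_apply_apply]
        rw [hH', hmap]))
  have hlim : (fun n => c (e.symm (e (ω n)))) = Y.lim := by
    funext n
    rw [Equiv.symm_apply_apply, hc]
  rw [hlim] at hfin
  exact hfin

end

/-- From the format of the problem to a system. -/
theorem exists_sys {d p : ℕ} {δ : Fin p → Fin d → Fin p} {q0 : Fin p}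
    {out : Fin p → Fin d → List (Fin d)} {a : Fin d} {w : ℕ → Fin d}
    (hI : Iterates δ q0 out a w) : ∃ Y : Sys (Fin p) (Fin d), Y.δ = δ ∧ Y.lim = w := by
  have hta : Pool.Agent.W_MP_5d512e_h33.trans δ q0 out [a] = out q0 a := by
    simp [Pool.Agent.W_MP_5d512e_h33.trans]
  obtain ⟨u, hu⟩ := hI.start
  rw [hta] at hu
  have hu' : out q0 a = a :: u := hu.symm
  have hne : u ≠ [] := by
    rintro rfl
    obtain ⟨n, hn⟩ := hI.unbounded 2
    have : ∀ n, (Pool.Agent.W_MP_5d512e_h33.trans δ q0 out)^[n] [a] = [a] := by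
      intro n
      induction n with
      | zero => rfl
      | succ n ih => rw [Function.iterate_succ_apply', ih, hta, hu']
    rw [this] at hn
    simp at hn
  let Y : Sys (Fin p) (Fin d) := ⟨δ, out, q0, a, u, hI.nonerasing, hu', hne⟩
  refine ⟨Y, rfl, ?_⟩
  funext i
  have hlt : i < ((Pool.Agent.W_MP_5d512e_h33.trans δ q0 out)^[i] [a]).length := Y.t_lt i
  rw [← hI.limit i i hlt]
  exact (Y.iterate_getElem i i hlt).symm

end Pool.Agent.W_MP_5d512e_dic
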