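import Pool.Agent.W_MP_5d512e_dic.Cycle

/-!
# The hard side
-/

set_option autoImplicit false

namespace Pool.Agent.W_MP_5d512e_dic

open Pool.Agent.W_MP_5d512e_h33
open Pool.Agent.W_MP_5d512e_h83 (Pk pk pk_val filter_poly ems ems_lim ems_len ems_st)

open Gt Lb

lemma steps_zero {G L A : Type} {X : RS2 G L A} {s s' : G × List L × List A}
    (h : X.Steps 0 s s') : s = s' := by
  cases h
  rfl

section

variable {S : Type} {d : ℕ} (Y : Sys S (Fin (d + 1))) (M e : ℕ)

/-- Start word. -/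
def ini : List (Lb d e) := wd 1 0 [Y.a] (hfe (hdp e 0)) (onef 1) allf nof [E]

lemma length_ini : (ini Y e).length = 4 := by
  rw [ini, length_wd]
  norm_num

/-- The transducer. -/
def XS : Sys (Option Bool) (Lt2 (Gt S d M e) (Lb d e) 4) :=
  (mac (M := M) (e := e) Y).sys 4 (jb (Y.δ Y.q0 Y.a) (pk M Y.u)) (ini Y e)

lemma st_of {t n : ℕ} {c c' : Option Bool × List (Lt2 (Gt S d M e) (Lb d e) 4) ×
    List (Lt2 (Gt S d M e) (Lb d e) 4)}
    (h : (XS Y M e).st t = c) (h' : (qstep (XS Y M e).δ (XS Y M e).out)^[n] c = c') :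
    (XS Y M e).st (t + n) = c' := by
  rw [← h', ← h, Sys.st, seq_add]
  rfl

theorem chain (hM : ∀ q x, (Y.out q x).length ≤ M) (hu : Y.u.length ≤ M) :
    ∃ B : ℕ, ∀ i : ℕ, ∃ t L T,
      (XS Y M e).st t = (some false,
        RS2.emb 4 (can M e (Y.st i).1 L i [] (Y.T i)).1
          (can M e (Y.st i).1 L i [] (Y.T i)).2.1, T) ∧
      T.filterMap ((mac (M := M) (e := e) Y).psi Y.a) = Y.T i ∧ i ≤ t ∧
      t ≤ B * (i + 1) ^ (e + 3) ∧
      1 ≤ L ∧ (Y.T i).length < 2 ^ L ∧ 2 ^ L ≤ 2 * ((Y.T i).length + 1) ∧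
      2 * 2 ^ L ≤ B * (i + 1) ∧ ∀ i', i = i' + 1 → (Y.T i').length ^ e ≤ t := by
  have hup : ∀ (g : Gt S d M e) (b : Bool) (l : Lb d e),
      ((mac (M := M) (e := e) Y).up g b l).length ≤ 4 :=
    fun g b l => (upt_len g b l).trans (by norm_num)
  have hKle : ∀ i, Y.K i ≤ (Y.K 0 + M) * (i + 1) := by
    intro i
    have := K_le Y hM i
    nlinarith [Nat.zero_le (Y.K 0 * i)]
  set c1 : ℕ := 2 * (Y.K 0 + M + 2) with hc1
  have hTl : ∀ i, 2 * ((Y.T i).length + 1) ≤ c1 * (i + 1) := by
    intro i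
    have h1 := Y.T_length i
    have h2 := hKle i
    have e0 : c1 * (i + 1) = 2 * ((Y.K 0 + M) * (i + 1)) + 4 * (i + 1) := by rw [hc1]; ring
    omega
  have hLlt : ∀ L : ℕ, L < 2 ^ L := fun L => Nat.lt_two_pow_self
  set B : ℕ := 64 + M * (6 * c1 + 3) * (6 * (2 * c1)) + 2 * c1 +
    (4 * e + (M + 1) * 9 + d + 3) * 12 * c1 ^ (e + 2) with hB
  have hcB : 2 * c1 ≤ B := by omega
  refine ⟨B, fun i => ?_⟩
  induction i with
  | zero =>
    have hini : (ini Y e).length ≤ 4 := (length_ini Y e).le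
    have hine : ini Y e ≠ [] := by
      intro h
      have := length_ini Y e
      rw [h] at this
      simp at this
    set g0 : Gt S d M e := jb (Y.δ Y.q0 Y.a) (pk M Y.u) with hg0
    obtain ⟨t, V, h1, h2, h3⟩ := RS2.unpack (mac (M := M) (e := e) Y) g0 (ini Y e) Y.a g0 4 le_rfl
      [pk 4 (ini Y e)]
      (by
        intro p hp
        rw [List.mem_singleton] at hp
        subst hp
        rw [pk_val hini]
        exact ⟨hine, by omega⟩)
      [.S, .A1 g0 (Fin.last _) (pk 4 (ini Y e))]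
    simp only [List.flatMap_cons, List.flatMap_nil, List.append_nil, pk_val hini] at h1 h2 h3
    have hext : (ini Y e).filterMap (mac (M := M) (e := e) Y).ex = [] := ext_wd 1 0 _ _ _ _ _ rfl
    rw [if_neg (by omega), RS2.emb_psi _ (by norm_num), hext] at h3
    have e0 : (XS Y M e).st 0 = (some false, [pk 4 (ini Y e)].map
        (Lt2.A1 g0 (⟨4, by omega⟩ : Fin (4 + 1))),
        [.S, .A1 g0 (Fin.last _) (pk 4 (ini Y e))]) := rfl
    have e1 := st_of Y M e e0 h2
    -- the first letters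
    obtain ⟨L, n, k1, k2, k3, k4, k5⟩ := app_all (M := M) (e := e) Y (Y.δ Y.q0 Y.a) Y.u hu
      (L := 1) (h := 0) [Y.a] le_rfl (by simp) (by simp) (by simp)
    obtain ⟨t', V', r1, r2, r3, r4, r5⟩ := RS2.rounds (mac (M := M) (e := e) Y) g0 (ini Y e)
      (by norm_num) hup Y.a k5 (by exact hine)
      ([.S, .A1 g0 (Fin.last _) (pk 4 (ini Y e))] ++ V)
    have e2 := st_of Y M e e1 r4
    have hT0 : Y.T 0 = [Y.a] ++ Y.u := rfl
    refine ⟨0 + t + t', L, _, e2, ?_, by omega, ?_, k1, k3, k4, ?_, by omega⟩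
    · rw [List.filterMap_append, List.filterMap_append, h3, hT0]
      have r5' : [Y.a] ++ Y.u = [Y.a] ++ V'.filterMap ((mac (M := M) (e := e) Y).psi Y.a) := r5
      rw [r5']
      congr 1
    · have hw : (can M e (Y.δ Y.q0 Y.a) L 0 [] ([Y.a] ++ Y.u)).2.1.length = 2 * 2 ^ L :=
        length_wd _ _ _ _ _ _ _
      rw [hw] at r1
      have h5 := hTl 0
      rw [hT0] at h5
      have h6 := hLlt L
      have h7 : 2 ^ L ≤ c1 := by omega
      have h8 : n ≤ M * (6 * c1 + 3) := by
        refine k2.trans (Nat.mul_le_mul hu ?_)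
        omega
      have h9 : t' ≤ M * (6 * c1 + 3) * (6 * (2 * c1)) := by
        refine r1.trans (Nat.mul_le_mul h8 ?_)
        omega
      rw [length_ini] at h1
      simp only [zero_add, one_pow, mul_one]
      omega
    · have h5 := hTl 0
      have : B * (0 + 1) = B := by ring
      rw [this]
      rw [hT0] at h5
      omega
  | succ i ih =>
    obtain ⟨t, L, T, h1, h2, h3, h4, h5, h6, h7, h8, -⟩ := ih
    obtain ⟨x, hx1, hx2, hx3⟩ := Y.T_succ i
    have hget : (Y.T i)[i + 1]? = some x := by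
      obtain ⟨-, -, i3, i4⟩ := Y.inv i
      rw [List.drop_eq_getElem_cons i4, hx2] at i3
      rw [List.getElem?_eq_getElem i4]
      have := List.cons.inj i3
      rw [this.1]
    obtain ⟨L', n, k1, k2, klow, k3, k4, k5⟩ := cycle (M := M) (e := e) Y (Y.st i).1 hM (h := i)
      (Y.T i) h5 h6 h7 x hget
    have hne : (can M e (Y.st i).1 L i [] (Y.T i)).2.1 ≠ [] := by
      intro h
      have e0 : (can M e (Y.st i).1 L i [] (Y.T i)).2.1.length = 2 * 2 ^ L :=
        length_wd _ _ _ _ _ _ _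
      rw [h] at e0
      have := hLlt L
      simp at e0
    obtain ⟨t', V', r1, r2, r3, r4, r5⟩ := RS2.rounds (mac (M := M) (e := e) Y)
      (jb (Y.δ Y.q0 Y.a) (pk M Y.u)) (ini Y e) (by norm_num) hup Y.a k5 hne T
    have e2 := st_of Y M e h1 r4
    have hst : (Y.st (i + 1)).1 = Y.δ (Y.st i).1 x := by rw [hx3]
    rw [← hx1] at k3 k4 k5 e2 r1 r5
    rw [hst]
    have h9 := hTl (i + 1)
    have hn1 : 1 ≤ n := by
      by_contra hcon
      have h0 : n = 0 := by omega
      subst h0
      have hx := k5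
      have hlen : (Y.T (i + 1)).length ≠ (Y.T i).length := by
        rw [hx1, List.length_append]
        have := List.length_pos_iff.2 (Y.hne (Y.st i).1 x)
        omega
      have : (can M e (Y.st i).1 L i [] (Y.T i)).2.2 =
          (can M e (Y.δ (Y.st i).1 x) L' (i + 1) [] (Y.T (i + 1))).2.2 := by
        rw [steps_zero hx]
      exact hlen (congrArg List.length this.symm)
    refine ⟨t + t', L', T ++ V', e2, ?_, by omega, ?_, by omega, k3, k4, ?_, ?_⟩
    · rw [List.filterMap_append, h2]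
      have r5' : Y.T (i + 1) = Y.T i ++ V'.filterMap ((mac (M := M) (e := e) Y).psi Y.a) := r5
      rw [r5']
    · have hw : (can M e (Y.δ (Y.st i).1 x) L' (i + 1) [] (Y.T (i + 1))).2.1.length =
          2 * 2 ^ L' := length_wd _ _ _ _ _ _ _
      rw [hw] at r1
      have h10 := hLlt L'
      have h11 : 2 ^ L' ≤ c1 * (i + 2) := by
        have : c1 * (i + 1 + 1) = c1 * (i + 2) := by ring
        omega
      have hP : 1 ≤ 2 ^ L' := Nat.one_le_two_pow
      have hLL : 2 ^ L ≤ 2 ^ L' := Nat.pow_le_pow_right (by norm_num) k1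
      have h13 : n ≤ (4 * e + (M + 1) * 9 + d + 3) * (2 ^ L') ^ (e + 1) := by
        have hself : 2 ^ L' ≤ (2 ^ L') ^ (e + 1) := Nat.le_self_pow (by omega) _
        have a0 : 4 * e * (2 ^ L) ^ (e + 1) ≤ 4 * e * (2 ^ L') ^ (e + 1) :=
          Nat.mul_le_mul_left _ (Nat.pow_le_pow_left hLL _)
        have a1 : (M + 1) * (6 * L' + 3) ≤ (M + 1) * (9 * (2 ^ L') ^ (e + 1)) :=
          Nat.mul_le_mul_left _ (by omega)
        have a2 : (4 * e + (M + 1) * 9 + d + 3) * (2 ^ L') ^ (e + 1) =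
            4 * e * (2 ^ L') ^ (e + 1) + (M + 1) * (9 * (2 ^ L') ^ (e + 1)) +
            (d + 3) * (2 ^ L') ^ (e + 1) := by ring
        have a3 : d + 3 ≤ (d + 3) * (2 ^ L') ^ (e + 1) := Nat.le_mul_of_pos_right _ (by omega)
        rw [a2]
        omega
      have h15 : t' ≤ B * (i + 2) ^ (e + 2) := by
        calc t' ≤ n * ((4 + 2) * (2 * 2 ^ L')) := r1
          _ ≤ ((4 * e + (M + 1) * 9 + d + 3) * (2 ^ L') ^ (e + 1)) * ((4 + 2) * (2 * 2 ^ L')) :=
            Nat.mul_le_mul_right _ h13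
          _ = (4 * e + (M + 1) * 9 + d + 3) * 12 * (2 ^ L') ^ (e + 2) := by ring
          _ ≤ (4 * e + (M + 1) * 9 + d + 3) * 12 * (c1 * (i + 2)) ^ (e + 2) :=
            Nat.mul_le_mul_left _ (Nat.pow_le_pow_left h11 _)
          _ = ((4 * e + (M + 1) * 9 + d + 3) * 12 * c1 ^ (e + 2)) * (i + 2) ^ (e + 2) := by
            rw [mul_pow]; ring
          _ ≤ B * (i + 2) ^ (e + 2) := Nat.mul_le_mul_right _ (by omega)
      have e3 : B * (i + 1) ^ (e + 3) + B * (i + 2) ^ (e + 2) ≤ B * (i + 1 + 1) ^ (e + 3) := by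
        have e4 : (i + 1) ^ (e + 3) ≤ (i + 1) * (i + 2) ^ (e + 2) := by
          rw [show e + 3 = e + 2 + 1 by ring, pow_succ, mul_comm]
          exact Nat.mul_le_mul_left _ (Nat.pow_le_pow_left (by omega) _)
        have e5 : (i + 1 + 1) ^ (e + 3) = (i + 1) * (i + 2) ^ (e + 2) + (i + 2) ^ (e + 2) := by
          rw [show e + 3 = e + 2 + 1 by ring, show i + 1 + 1 = i + 2 by ring, pow_succ]
          ring
        rw [e5, Nat.mul_add]
        exact Nat.add_le_add_right (Nat.mul_le_mul_left _ e4) _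
      omega
    · have : 2 * c1 * (i + 1 + 1) ≤ B * (i + 1 + 1) := Nat.mul_le_mul_right _ hcB
      have e0 : 2 * c1 * (i + 1 + 1) = 2 * (c1 * (i + 1 + 1)) := by ring
      omega
    · intro i' hi'
      have hi'' : i' = i := by omega
      subst hi''
      have : (Y.T i').length ^ e ≤ (2 ^ L) ^ e := Nat.pow_le_pow_left h6.le _
      omega

/-- The old word is in logarithmic space if the new one is. -/
theorem log_of_XS (hM : ∀ q x, (Y.out q x).length ≤ M) (hu : Y.u.length ≤ M) {D : ℕ}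
    (eq : Lt2 (Gt S d M e) (Lb d e) 4 ≃ Fin D) (hX : LogSpace ((XS Y M e).map eq).lim) :
    LogSpace Y.lim := by
  obtain ⟨B, hB⟩ := chain Y M e hM hu
  have hget : ∀ (m i : ℕ) (hi : i < (((XS Y M e).map eq).T m).length),
      (((XS Y M e).map eq).T m)[i] = ((XS Y M e).map eq).lim i :=
    fun m i hi => ((XS Y M e).map eq).T_getElem hi
  have hfil : ∀ m, (((XS Y M e).map eq).T m).filterMap
      (fun x => (mac (M := M) (e := e) Y).psi Y.a (eq.symm x)) =
      ((XS Y M e).T m).filterMap ((mac (M := M) (e := e) Y).psi Y.a) := by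
    intro m
    rw [Sys.map_T, List.filterMap_map]
    congr 1
    funext x
    simp
  refine filter_poly (fun x => (mac (M := M) (e := e) Y).psi Y.a (eq.symm x)) (2 * B + 1) (e + 3) ?_ ?_ hX
  · intro N j hj
    obtain ⟨t, L, T, h1, h2, h3, -⟩ := hB N
    have hTt : (XS Y M e).T t = T := by rw [Sys.T, h1]
    have h4 : (List.range N).map ((XS Y M e).map eq).lim <+: ((XS Y M e).map eq).T t := by
      have hl := ((XS Y M e).map eq).T_length t
      have h5 : ((XS Y M e).map eq).T t =
          (List.range (((XS Y M e).map eq).T t).length).map ((XS Y M e).map eq).lim :=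
        out_eq (hget _)
      rw [h5]
      exact prefix_range _ (by omega)
    have h5 := h4.filterMap (fun x => (mac (M := M) (e := e) Y).psi Y.a (eq.symm x))
    rw [hfil, hTt, h2] at h5
    rw [h5.getElem hj]
    exact Y.T_getElem _
  · intro n
    obtain ⟨t, L, T, h1, h2, h3, h4, h5, h6, h7, h8⟩ := hB n
    have hTt : (XS Y M e).T t = T := by rw [Sys.T, h1]
    have hlen : (((XS Y M e).map eq).T t).length ≤ (2 * B + 1) * (n + 1) ^ (e + 3) := by
      rw [((XS Y M e).map eq).T_length, Sys.map_K]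
      have hK : (XS Y M e).K t = 2 * 2 ^ L := by
        rw [Sys.K, h1]
        simp only [RS2.emb, List.length_map, can, length_wd]
      rw [hK]
      have h6 : n + 1 ≤ (n + 1) ^ (e + 3) := Nat.le_self_pow (by omega) _
      have h7 : B * (n + 1) ≤ B * (n + 1) ^ (e + 3) := Nat.mul_le_mul_left _ h6
      have h8 : 1 ≤ (n + 1) ^ (e + 3) := Nat.one_le_pow _ _ (by omega)
      have h9 : (2 * B + 1) * (n + 1) ^ (e + 3) = B * (n + 1) ^ (e + 3) + B * (n + 1) ^ (e + 3) + (n + 1) ^ (e + 3) := by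
        ring
      rw [h9]
      omega
    have h6 := prefix_iff_range (W := ((XS Y M e).map eq).lim) (hget t) _ hlen
    have h7 := (h6.filterMap (fun x => (mac (M := M) (e := e) Y).psi Y.a (eq.symm x))).length_le
    rw [hfil, hTt, h2, Y.T_length] at h7
    omega

/-- The dead state is never reached. -/
theorem XS_alive (hM : ∀ q x, (Y.out q x).length ≤ M) (hu : Y.u.length ≤ M) (n : ℕ) :
    ((XS Y M e).st n).1 ≠ none := by
  obtain ⟨B, hB⟩ := chain Y M e hM hu
  obtain ⟨t, L, T, h1, -, h3, -⟩ := hB n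
  have hdead : ∀ k m, ((XS Y M e).st m).1 = none → ((XS Y M e).st (m + k)).1 = none := by
    intro k
    induction k with
    | zero => exact fun m h => h
    | succ k ih =>
      intro m h
      have h' := ih m h
      rw [← Nat.add_assoc, Sys.st_succ]
      revert h'
      generalize (XS Y M e).st (m + k) = s
      intro h'
      obtain ⟨q, Z, T⟩ := s
      simp only at h'
      subst h'
      cases Z with
      | nil => rfl
      | cons x Z => exact act_none _
  intro h
  have := hdead (t - n) n h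
  rw [show n + (t - n) = t by omega, h1] at this
  cases this

/-- Growth of the simulation. -/
theorem XS_growth (hM : ∀ q x, (Y.out q x).length ≤ M) (hu : Y.u.length ≤ M) :
    ∃ D, ∀ m, (XS Y M e).K m ^ e ≤ D * (m + 1) := by
  obtain ⟨B, hB⟩ := chain Y M e hM hu
  choose t L T h1 h2 h3 h4 h5 h6 h7 h8 h9 using hB
  have hK : ∀ i, (XS Y M e).K (t i) = 2 * 2 ^ L i := by
    intro i
    rw [Sys.K, h1]
    simp only [RS2.emb, List.length_map, can, length_wd]
  have hTs : ∀ i, (Y.T (i + 1)).length ≤ (Y.T i).length + M := by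
    intro i
    obtain ⟨x, hx, -⟩ := Y.T_succ i
    rw [hx, List.length_append]
    have := hM (Y.st i).1 x
    omega
  have hT1 : ∀ i, 1 ≤ (Y.T i).length := by
    intro i
    have := Y.T_length i
    omega
  refine ⟨(2 * B) ^ e + (8 * (M + 1)) ^ e, fun m => ?_⟩
  have hex : ∃ i, m < t i := ⟨m + 1, by have := h3 (m + 1); omega⟩
  classical
  set i := Nat.find hex with hi
  have hi1 : m < t i := Nat.find_spec hex
  have hKm : (XS Y M e).K m ≤ 2 * 2 ^ L i := by
    rw [← hK]
    exact (XS Y M e).K_mono hi1.le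
  have e0 : ((2 * B) ^ e + (8 * (M + 1)) ^ e) * (m + 1) =
      (2 * B) ^ e * (m + 1) + (8 * (M + 1)) ^ e * (m + 1) := by ring
  rcases Nat.lt_or_ge i 2 with hc | hc
  · have h10 : (XS Y M e).K m ≤ 2 * B := by
      have := h8 i
      have : B * (i + 1) ≤ B * 2 := Nat.mul_le_mul_left _ (by omega)
      omega
    have h11 := Nat.pow_le_pow_left h10 e
    have h12 : (2 * B) ^ e ≤ (2 * B) ^ e * (m + 1) := Nat.le_mul_of_pos_right _ (by omega)
    omega
  · obtain ⟨j, hj⟩ : ∃ j, i = j + 2 := ⟨i - 2, by omega⟩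
    have h10 := Nat.find_min hex (m := j + 1) (by omega)
    have h11 := h9 (j + 1) j rfl
    have h12 := h7 (j + 2)
    have h13 := hTs j
    have h14 : (Y.T (j + 2)).length ≤ (Y.T (j + 1)).length + M := hTs (j + 1)
    have h15 := hT1 j
    have h16 : (XS Y M e).K m ≤ 8 * (M + 1) * (Y.T j).length := by
      rw [hj] at hKm
      have h17 : 8 * (M + 1) * (Y.T j).length =
          8 * M * (Y.T j).length + 8 * (Y.T j).length := by ring
      have h18 : 8 * M ≤ 8 * M * (Y.T j).length := Nat.le_mul_of_pos_right _ (by omega)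
      omega
    have h17 := Nat.pow_le_pow_left h16 e
    rw [mul_pow] at h17
    have h18 : (8 * (M + 1)) ^ e * (Y.T j).length ^ e ≤ (8 * (M + 1)) ^ e * (m + 1) :=
      Nat.mul_le_mul_left _ (by omega)
    omega

end

/-! ### Change of states when a dead state is never reached -/

section

variable {S1 S2 A : Type} (X : Sys S1 A) (θ : S1 → S2) (ρ : S2 → S1) (δ2 : S2 → A → S2)

/-- The transported system. -/
def tra (h0 : ρ (θ X.q0) = X.q0) : Sys S2 A where
  δ := δ2
  out := fun s x => X.out (ρ s) x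
  q0 := θ X.q0
  a := X.a
  u := X.u
  hne := fun _ _ => X.hne _ _
  ha := by rw [h0]; exact X.ha
  hu := X.hu

lemma tra_st (h0 : ρ (θ X.q0) = X.q0) (P : S1 → Prop) (hP0 : P X.q0)
    (hP : ∀ i, P (X.st i).1) (h1 : ∀ q, P q → ρ (θ q) = q)
    (h2 : ∀ q x, P q → P (X.δ q x) → δ2 (θ q) x = θ (X.δ q x)) (i : ℕ) :
    (tra X θ ρ δ2 h0).st i = (θ (X.st i).1, (X.st i).2) := by
  induction i with
  | zero =>
    rw [Sys.st_zero, Sys.st_zero]
    have := hP 0
    rw [Sys.st_zero] at this
    simp only [tra]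
    rw [h2 _ _ hP0 this]
  | succ i ih =>
    have hi := hP i
    have hi' := hP (i + 1)
    rw [Sys.st_succ] at hi'
    rw [Sys.st_succ, ih, Sys.st_succ]
    revert hi hi'
    generalize X.st i = s
    intro hi hi'
    obtain ⟨q, Z, T⟩ := s
    cases Z with
    | nil => rfl
    | cons x Z =>
      simp only at hi hi'
      have e1 : (tra X θ ρ δ2 h0).δ (θ q) x = θ (X.δ q x) := h2 q x hi hi'
      have e2 : (tra X θ ρ δ2 h0).out (θ q) x = X.out q x := by
        show X.out (ρ (θ q)) x = _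
        rw [h1 q hi]
      simp only [qstep]
      rw [e1, e2]

lemma tra_lim (h0 : ρ (θ X.q0) = X.q0) (P : S1 → Prop) (hP0 : P X.q0)
    (hP : ∀ i, P (X.st i).1) (h1 : ∀ q, P q → ρ (θ q) = q)
    (h2 : ∀ q x, P q → P (X.δ q x) → δ2 (θ q) x = θ (X.δ q x)) :
    (tra X θ ρ δ2 h0).lim = X.lim := by
  funext i
  have hT : (tra X θ ρ δ2 h0).T i = X.T i := by
    rw [Sys.T, tra_st X θ ρ δ2 h0 P hP0 hP h1 h2, Sys.T]
  have hlt : i < (X.T i).length := by have := X.T_length i; omega
  have hlt' : i < ((tra X θ ρ δ2 h0).T i).length := by rw [hT]; exact hlt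
  rw [← (tra X θ ρ δ2 h0).T_getElem hlt', ← X.T_getElem hlt]
  congr 1

end

/-- Growth of the iterates. -/
theorem growth_of_K {S A : Type} (Y : Sys S A) {k D : ℕ}
    (hD : ∀ i, Y.K i ^ (k + 1) ≤ D * (i + 1)) (n : ℕ) : Y.t n ^ k ≤ D * (n + 1) ^ (k + 1) := by
  set L : ℕ → ℕ := fun n => Y.K (Y.t n - 1) with hL
  have hLmono : ∀ n, L n ≤ L (n + 1) := by
    intro n
    apply Y.K_mono
    have := Y.t_succ n
    omega
  have hLpos : ∀ n, 1 ≤ L n := fun n => Y.K_pos _
  have ht : ∀ n, Y.t n ≤ 1 + n * L n := by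
    intro n
    induction n with
    | zero => simp [Y.t_zero]
    | succ n ih =>
      have h1 := Y.t_succ n
      have h2 := hLmono n
      have h3 : (n + 1) * L n ≤ (n + 1) * L (n + 1) := Nat.mul_le_mul_left _ h2
      have h4 : (n + 1) * L n = n * L n + L n := by ring
      have h5 : Y.t (n + 1) = Y.t n + L n := h1
      omega
  have h1 : L n ^ k * L n ≤ D * (n + 1) * L n := by
    calc L n ^ k * L n = L n ^ (k + 1) := (pow_succ _ _).symm
      _ ≤ D * (Y.t n - 1 + 1) := hD _
      _ = D * Y.t n := by rw [Nat.sub_add_cancel (Y.t_pos n)]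
      _ ≤ D * (1 + n * L n) := Nat.mul_le_mul_left _ (ht n)
      _ ≤ D * ((n + 1) * L n) := by
        apply Nat.mul_le_mul_left
        have := hLpos n
        have : (n + 1) * L n = n * L n + L n := by ring
        omega
      _ = D * (n + 1) * L n := by ring
  have h2 : L n ^ k ≤ D * (n + 1) := Nat.le_of_mul_le_mul_right h1 (hLpos n)
  have h3 : Y.t n ≤ (n + 1) * L n := by
    have := ht n
    have := hLpos n
    have : (n + 1) * L n = n * L n + L n := by ring
    omega
  calc Y.t n ^ k ≤ ((n + 1) * L n) ^ k := Nat.pow_le_pow_left h3 _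
    _ = (n + 1) ^ k * L n ^ k := mul_pow _ _ _
    _ ≤ (n + 1) ^ k * (D * (n + 1)) := Nat.mul_le_mul_left _ h2
    _ = D * (n + 1) ^ (k + 1) := by ring

/-- All iterated transducers with states `Fin p`, whose letters act by maps in `F`, whose outputs
have length at most two, and whose queue has length `O(m ^ (1 / (k + 1)))` after `m` steps. -/
def QG (p k : ℕ) (F : Set (Fin p → Fin p)) : Prop := ∀ (d : ℕ) (Y : Sys (Fin p) (Fin d)),
  (∀ x, (fun s => Y.δ s x) ∈ F) → (∀ s x, (Y.out s x).length ≤ 2) →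
  (∃ D, ∀ i, Y.K i ^ (k + 1) ≤ D * (i + 1)) → LogSpace Y.lim

theorem QG_of_main {p k : ℕ} {F : Set (Fin p → Fin p)}
    (h : ∀ (d : ℕ) (δ : Fin p → Fin d → Fin p) (q0 : Fin p)
      (out : Fin p → Fin d → List (Fin d)) (a : Fin d) (w : ℕ → Fin d),
      Iterates δ q0 out a w → (∀ x, (fun s => δ s x) ∈ F) → (∀ s x, (out s x).length ≤ 2) →
      (∃ C, ∀ n, ((Pool.Agent.W_MP_5d512e_h33.trans δ q0 out)^[n] [a]).length ^ k ≤
        C * (n + 1) ^ (k + 1)) → LogSpace w) : QG p k F := by
  rintro d Y h1 h2 ⟨D, hD⟩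
  exact h d Y.δ Y.q0 Y.out Y.a Y.lim Y.iterates h1 h2 ⟨D, fun n => growth_of_K Y hD n⟩

/-! ### Two fixed points that can be exchanged -/

theorem QQ_of_H {p k : ℕ} {F : Set (Fin p → Fin p)} {e a b : Fin p → Fin p} (he : e ∈ F)
    (ha : a ∈ F) (hb : b ∈ F) {s t : Fin p} (hst : s ≠ t) (es : e s = s) (et : e t = t)
    (as : a s = t) (bt' : b t = s) (h : QG p k F) : QQ 0 := by
  rintro p' d Y -
  obtain ⟨d, rfl⟩ : ∃ d', d = d' + 1 := ⟨d - 1, by have := Y.a.pos; omega⟩
  obtain ⟨M, hM⟩ := Y.exists_bound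
  have hu : Y.u.length ≤ M := by
    have := hM Y.q0 Y.a
    rw [Y.ha, List.length_cons] at this
    omega
  obtain ⟨D, ⟨eq⟩⟩ :=
    Finite.exists_equiv_fin (Lt2 (Gt (Fin (p' + 1)) d M (k + 1)) (Lb d (k + 1)) 4)
  apply log_of_XS Y M (k + 1) hM hu eq
  obtain ⟨D1, hD1⟩ := XS_growth Y M (k + 1) hM hu
  set X := (XS Y M (k + 1)).map eq with hX
  have hXK : X.K = (XS Y M (k + 1)).K := Sys.map_K _ _
  let θ : Option Bool → Fin p := fun q =>
    match q with
    | some true => t
    | _ => s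
  let ρ : Fin p → Option Bool := fun r => if r = t then some true else some false
  let ac : Lt2 (Gt (Fin (p' + 1)) d M (k + 1)) (Lb d (k + 1)) 4 → Ac :=
    (mac (M := M) (e := k + 1) Y).ac
  let δ2 : Fin p → Fin D → Fin p := fun r x =>
    match ac (eq.symm x) with
    | .id => e r
    | .up => a r
    | .dn => b r
  have hρ : ∀ q : Option Bool, q ≠ none → ρ (θ q) = q := by
    intro q hq
    match q with
    | none => exact absurd rfl hq
    | some true => simp [ρ, θ]
    | some false => simp [ρ, θ, hst]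
  have h0 : ρ (θ X.q0) = X.q0 := hρ _ (by
    show (some false : Option Bool) ≠ none
    simp)
  have halive : ∀ i, (X.st i).1 ≠ none := by
    intro i
    rw [hX, Sys.map_st]
    exact XS_alive Y M (k + 1) hM hu i
  have hδ : ∀ q x, q ≠ none → X.δ q x ≠ none → δ2 (θ q) x = θ (X.δ q x) := by
    intro q x hq hq'
    have e1 : X.δ q x = act (ac (eq.symm x)) q := rfl
    rw [e1] at hq' ⊢
    show (match ac (eq.symm x) with
      | .id => e (θ q)
      | .up => a (θ q)
      | .dn => b (θ q)) = _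
    revert hq'
    generalize ac (eq.symm x) = y
    intro hq'
    match q, y with
    | none, _ => exact absurd rfl hq
    | some true, .id => exact et
    | some false, .id => exact es
    | some true, .up => exact absurd rfl hq'
    | some false, .up => exact as
    | some true, .dn => exact bt'
    | some false, .dn => exact absurd rfl hq'
  rw [← tra_lim X θ ρ δ2 h0 (fun q => q ≠ none) (by
    show (some false : Option Bool) ≠ none
    simp) halive hρ hδ]
  apply h
  · intro x
    show (fun r => (match ac (eq.symm x) with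
      | .id => e r
      | .up => a r
      | .dn => b r)) ∈ F
    cases ac (eq.symm x) with
    | id => exact he
    | up => exact ha
    | dn => exact hb
  · intro r x
    show (X.out (ρ r) x).length ≤ 2
    simp only [hX, Sys.map, List.length_map]
    exact RS2.ot_len _ _ _ _ _
  · refine ⟨D1, fun i => ?_⟩
    have e1 : (tra X θ ρ δ2 h0).K i = X.K i := by
      rw [Sys.K, tra_st X θ ρ δ2 h0 (fun q => q ≠ none) (by
        show (some false : Option Bool) ≠ none
        simp) halive hρ hδ, Sys.K]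
    rw [e1, hXK]
    exact hD1 i

/-! ### Two resets -/

/-- The old word is in logarithmic space if the word of the two-state system is. -/
theorem log_of_nsys {p d : ℕ} (Y : Sys (Fin (p + 1)) (Fin d)) {D : ℕ} (e : Sy p (Fin d) ≃ Fin D)
    (hX : LogSpace ((nsys Y).map e).lim) : LogSpace Y.lim := by
  obtain ⟨M, hM⟩ := Y.exists_bound
  have hget : ∀ (m i : ℕ) (hi : i < (((nsys Y).map e).T m).length),
      (((nsys Y).map e).T m)[i] = ((nsys Y).map e).lim i :=
    fun m i hi => ((nsys Y).map e).T_getElem hi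
  have hT : ∀ n, (((nsys Y).map e).T (tm Y n)).filterMap (fun x => Sy.ψ Y.a (e.symm x)) =
      Y.T n := by
    intro n
    rw [Sys.map_T, List.filterMap_map, ← T_tm Y n]
    congr 1
    funext x
    simp
  refine LogSpace.filter (fun x => Sy.ψ Y.a (e.symm x))
    (Y.K 0 + 1 + (Y.K 0 + M) + (p + 2) * (Y.K 0 + M) + M + 3) ?_ ?_ hX
  · intro N j hj
    have h1 : (List.range N).map ((nsys Y).map e).lim <+: ((nsys Y).map e).T (tm Y N) := by
      have hl := ((nsys Y).map e).T_length (tm Y N)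
      have h2 := le_tm Y N
      have h3 : ((nsys Y).map e).T (tm Y N) =
          (List.range (((nsys Y).map e).T (tm Y N)).length).map ((nsys Y).map e).lim :=
        out_eq (hget _)
      rw [h3]
      exact prefix_range _ (by omega)
    have h2 := h1.filterMap (fun x => Sy.ψ Y.a (e.symm x))
    rw [hT] at h2
    rw [h2.getElem hj]
    exact Y.T_getElem _
  · intro n
    have hlen : (((nsys Y).map e).T (tm Y n)).length ≤
        (Y.K 0 + 1 + (Y.K 0 + M) + (p + 2) * (Y.K 0 + M) + M + 3) * (n + 1) ^ 2 := by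
      rw [((nsys Y).map e).T_length, Sys.map_K, K_tm]
      have h1 := tm_le Y hM n
      have h2 := K_le Y hM n
      have h3 : Y.K n ≤ (Y.K 0 + M) * (n + 1) := by nlinarith [Nat.zero_le (Y.K 0 * n)]
      have h4 : n * ((p + 2) * Y.K n + M + 3) ≤
          n * ((p + 2) * ((Y.K 0 + M) * (n + 1)) + M + 3) := by
        apply Nat.mul_le_mul_left
        have := Nat.mul_le_mul_left (p + 2) h3
        omega
      have h5 : tm Y n + 1 + Y.K n ≤ Y.K 0 +
          n * ((p + 2) * ((Y.K 0 + M) * (n + 1)) + M + 3) + 1 + (Y.K 0 + M) * (n + 1) := by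
        omega
      refine h5.trans ?_
      generalize Y.K 0 = a
      generalize ha : (a + M) = b
      generalize (p + 2) = c
      have : (a + 1 + b + c * b + M + 3) * (n + 1) ^ 2 =
          a + n * (c * (b * (n + 1)) + M + 3) + 1 + b * (n + 1) +
          (a * (n ^ 2 + 2 * n) + (n ^ 2 + 2 * n) + b * (n ^ 2 + n) + c * b * (n + 1) +
            (M + 3) * (n ^ 2 + n + 1)) := by ring
      rw [this]
      exact Nat.le_add_right _ _
    have h1 := prefix_iff_range (W := ((nsys Y).map e).lim)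
      (hget (tm Y n)) _ hlen
    have h2 := (h1.filterMap (fun x => Sy.ψ Y.a (e.symm x))).length_le
    rw [hT, Y.T_length] at h2
    omega

lemma nsys_len {p : ℕ} {A : Type} (Y : Sys (Fin (p + 1)) A)
    (hM : ∀ q x, (Y.out q x).length ≤ 2) (hu : Y.u.length ≤ 1) (s : Fin 2) (x : Sy p A) :
    ((nsys Y).out s x).length ≤ 2 := by
  have hhd : ∀ (q : Fin (p + 1)) (l : List A), l ≠ [] → (Sy.hd q l).length = l.length := by
    intro q l hl
    cases l with
    | nil => exact absurd rfl hl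
    | cons z zs => simp [Sy.hd]
  cases x with
  | S =>
    show (Sy.S :: Sy.hd (Y.δ Y.q0 Y.a) Y.u).length ≤ 2
    rw [List.length_cons, hhd _ _ Y.hu]
    omega
  | P y => simp only [nsys, Sy.f]; split_ifs <;> simp
  | N y => simp only [nsys, Sy.f]; split_ifs <;> simp
  | R y q => simp only [nsys, Sy.f]; split_ifs <;> simp
  | H q y j =>
    simp only [nsys, Sy.f]
    split_ifs
    · rw [List.length_map]
      exact hM _ _
    · simp
    · rw [hhd _ _ (Y.hne _ _)]
      exact hM _ _
    · simp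
  | F q y => simp [nsys, Sy.f]

lemma nsys_growth {p : ℕ} {A : Type} (Y : Sys (Fin (p + 1)) A) {M k D : ℕ}
    (hM : ∀ q x, (Y.out q x).length ≤ M) (hD : ∀ i, Y.K i ^ k ≤ D * (i + 1)) :
    ∃ D', ∀ m, (nsys Y).K m ^ k ≤ D' * (m + 1) := by
  refine ⟨Y.K 0 ^ k + (M + 1) ^ k * D, fun m => ?_⟩
  have hex : ∃ i, m ≤ tm Y i := ⟨m, le_tm Y m⟩
  classical
  set i := Nat.find hex with hi
  have hi1 : m ≤ tm Y i := Nat.find_spec hex
  have h1 : (nsys Y).K m ≤ Y.K i := by
    have := (nsys Y).K_mono hi1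
    rwa [K_tm] at this
  have e0 : (Y.K 0 ^ k + (M + 1) ^ k * D) * (m + 1) =
      Y.K 0 ^ k * (m + 1) + (M + 1) ^ k * D * (m + 1) := by ring
  rcases Nat.eq_zero_or_pos i with hc | hc
  · rw [hc] at h1
    have h2 := Nat.pow_le_pow_left h1 k
    have h3 : Y.K 0 ^ k ≤ Y.K 0 ^ k * (m + 1) := Nat.le_mul_of_pos_right _ (by omega)
    omega
  · obtain ⟨j, hj⟩ : ∃ j, i = j + 1 := ⟨i - 1, by omega⟩
    have h2 := Nat.find_min hex (m := j) (by omega)
    have h3 := le_tm Y j
    have h4 := Y.K_succ_le hM j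
    rw [← hj] at h4
    have h5 := Y.K_pos j
    have h6 : (nsys Y).K m ≤ (M + 1) * Y.K j := by
      have e1 : (M + 1) * Y.K j = M * Y.K j + Y.K j := by ring
      have e2 : M ≤ M * Y.K j := Nat.le_mul_of_pos_right _ (by omega)
      omega
    have h7 := Nat.pow_le_pow_left h6 k
    rw [mul_pow] at h7
    have h8 : (M + 1) ^ k * Y.K j ^ k ≤ (M + 1) ^ k * (D * (m + 1)) := by
      apply Nat.mul_le_mul_left
      exact (hD j).trans (Nat.mul_le_mul_left _ (by omega))
    have h9 : (M + 1) ^ k * (D * (m + 1)) = (M + 1) ^ k * D * (m + 1) := by ring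
    omega

theorem QQ_of_R {p k : ℕ} {F : Set (Fin p → Fin p)} {x y : Fin p → Fin p} (hx : x ∈ F)
    (hy : y ∈ F) {s t : Fin p} (hst : s ≠ t) (xs : x s = s) (xt : x t = s)
    (ys : y s = t) (yt : y t = t) (h : QG p k F) : QQ 0 := by
  rintro p' d Y -
  obtain ⟨d, rfl⟩ : ∃ d', d = d' + 1 := ⟨d - 1, by have := Y.a.pos; omega⟩
  obtain ⟨M, hM⟩ := Y.exists_bound
  have hu : Y.u.length ≤ M := by
    have := hM Y.q0 Y.a
    rw [Y.ha, List.length_cons] at this
    omega
  obtain ⟨D, ⟨eq⟩⟩ :=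
    Finite.exists_equiv_fin (Lt2 (Gt (Fin (p' + 1)) d M (k + 1)) (Lb d (k + 1)) 4)
  apply log_of_XS Y M (k + 1) hM hu eq
  obtain ⟨D1, hD1⟩ := XS_growth Y M (k + 1) hM hu
  set X := (XS Y M (k + 1)).map eq with hX
  have hXK : X.K = (XS Y M (k + 1)).K := Sys.map_K _ _
  obtain ⟨n, ⟨es⟩⟩ := Finite.exists_equiv_fin (Option Bool)
  obtain ⟨n, rfl⟩ : ∃ n', n = n' + 1 := ⟨n - 1, by have := (es none).pos; omega⟩
  have hlen : ∀ q z, (X.out q z).length ≤ 2 := by
    intro q z
    simp only [hX, Sys.map, List.length_map]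
    exact RS2.ot_len _ _ _ _ _
  rw [← ems_lim X es es.injective (fun r z => es (X.δ (es.symm r) z)) (by
    intro q z
    simp)]
  set X2 := ems X es es.injective (fun r z => es (X.δ (es.symm r) z)) with hX2
  have hK2 : ∀ i, X2.K i = X.K i := by
    intro i
    rw [Sys.K, ems_st X es es.injective (fun r z => es (X.δ (es.symm r) z)) (by
      intro q z
      simp), Sys.K]
  have hlen2 : ∀ q z, (X2.out q z).length ≤ 2 := ems_len _ _ _ _ hlen
  obtain ⟨D3, hD3⟩ := nsys_growth X2 (k := k + 1) (D := D1) hlen2 (by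
    intro i
    rw [hK2, hXK]
    exact hD1 i)
  obtain ⟨D2, ⟨eq2⟩⟩ := Finite.exists_equiv_fin (Sy n (Fin D))
  apply log_of_nsys X2 eq2
  let θ : Fin 2 → Fin p := fun b => if b = 0 then s else t
  have hθ : Function.Injective θ := by
    intro a b hab
    by_cases ha : a = 0 <;> by_cases hb : b = 0
    · rw [ha, hb]
    · simp only [θ, ha, hb, if_true, if_false] at hab
      exact absurd hab hst
    · simp only [θ, ha, hb, if_true, if_false] at hab
      exact absurd hab.symm hst
    · omega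
  have hδ : ∀ q z, (fun r z => if Sy.β (eq2.symm z) = 0 then x r else y r) (θ q) z =
      θ (((nsys X2).map eq2).δ q z) := by
    intro q z
    have e1 : ((nsys X2).map eq2).δ q z = Sy.β (eq2.symm z) := rfl
    rw [e1]
    by_cases hq : q = 0 <;> by_cases hz : Sy.β (eq2.symm z) = 0
    · simp [θ, hq, hz, xs]
    · simp [θ, hq, hz, ys]
    · simp [θ, hq, hz, xt]
    · simp [θ, hq, hz, yt]
  rw [← ems_lim ((nsys X2).map eq2) θ hθ
    (fun r z => if Sy.β (eq2.symm z) = 0 then x r else y r) hδ]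
  apply h
  · intro z
    show (fun r => if Sy.β (eq2.symm z) = 0 then x r else y r) ∈ F
    by_cases hz : Sy.β (eq2.symm z) = 0
    · simp only [hz, if_true]
      exact hx
    · simp only [hz, if_false]
      exact hy
  · apply ems_len
    intro q z
    have : (((nsys X2).map eq2).out q z).length = ((nsys X2).out q (eq2.symm z)).length := by
      simp [Sys.map]
    rw [this]
    apply nsys_len
    · exact hlen2
    · show (X.u).length ≤ 1
      simp [hX, Sys.map, XS, RS2.sys]
  · refine ⟨D3, fun i => ?_⟩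
    have e1 : (ems ((nsys X2).map eq2) θ hθ
        (fun r z => if Sy.β (eq2.symm z) = 0 then x r else y r)).K i =
        ((nsys X2).map eq2).K i := by
      rw [Sys.K, ems_st ((nsys X2).map eq2) θ hθ
        (fun r z => if Sy.β (eq2.symm z) = 0 then x r else y r) hδ, Sys.K]
    rw [e1, Sys.map_K]
    exact hD3 i

end Pool.Agent.W_MP_5d512e_dic
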