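import Pool.Agent.W_MP_5d512e_dic.Tm

/-!
# Structured counter programs
-/

set_option autoImplicit false

namespace Pool.Agent.W_MP_5d512e_dic

open Pool.Agent.W_MP_5d512e_lc
open Pool.Agent.W_MP_5d512e_h33 (LogSpace)

/-- Programs with registers `R`, a finite store `E` and outputs in `A`. -/
inductive Cmd (E R A : Type)
  | act (f : E → E)
  | inc (r : R)
  | dec (r : R)
  | out (o : E → A)
  | sq (c c' : Cmd E R A)
  | cas (f : E → Cmd E R A)
  | ifz (r : R) (c c' : Cmd E R A)
  | wh (r : R) (c : Cmd E R A)

section

variable {E R A : Type} [DecidableEq R]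

/-- Evaluation with all registers at most `N`. -/
inductive Ev (N : ℕ) : Cmd E R A → E × (R → ℕ) → List A → E × (R → ℕ) → Prop
  | act (f : E → E) (σ : E) (v : R → ℕ) : Ev N (.act f) (σ, v) [] (f σ, v)
  | inc (r : R) (σ : E) (v : R → ℕ) (h : v r + 1 ≤ N) :
      Ev N (.inc r) (σ, v) [] (σ, Function.update v r (v r + 1))
  | dec (r : R) (σ : E) (v : R → ℕ) (h : v r ≠ 0) :
      Ev N (.dec r) (σ, v) [] (σ, Function.update v r (v r - 1))
  | out (o : E → A) (σ : E) (v : R → ℕ) : Ev N (.out o) (σ, v) [o σ] (σ, v)
  | sq (c c' : Cmd E R A) (s s' s'' : E × (R → ℕ)) (o o' : List A) (h : Ev N c s o s')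
      (h' : Ev N c' s' o' s'') : Ev N (.sq c c') s (o ++ o') s''
  | cas (f : E → Cmd E R A) (σ : E) (v : R → ℕ) (s' : E × (R → ℕ)) (o : List A)
      (h : Ev N (f σ) (σ, v) o s') : Ev N (.cas f) (σ, v) o s'
  | ifz0 (r : R) (c c' : Cmd E R A) (σ : E) (v : R → ℕ) (s' : E × (R → ℕ)) (o : List A)
      (h0 : v r = 0) (h : Ev N c (σ, v) o s') : Ev N (.ifz r c c') (σ, v) o s'
  | ifz1 (r : R) (c c' : Cmd E R A) (σ : E) (v : R → ℕ) (s' : E × (R → ℕ)) (o : List A)
      (h0 : v r ≠ 0) (h : Ev N c' (σ, v) o s') : Ev N (.ifz r c c') (σ, v) o s'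
  | wh0 (r : R) (c : Cmd E R A) (σ : E) (v : R → ℕ) (h0 : v r = 0) :
      Ev N (.wh r c) (σ, v) [] (σ, v)
  | wh1 (r : R) (c : Cmd E R A) (σ : E) (v : R → ℕ) (s' s'' : E × (R → ℕ)) (o o' : List A)
      (h0 : v r ≠ 0) (h : Ev N c (σ, v) o s') (h' : Ev N (.wh r c) s' o' s'') :
      Ev N (.wh r c) (σ, v) (o ++ o') s''

/-! ### Compilation -/

/-- Control of the counter program: a stack of programs and the store. -/
def pg (body : Cmd E R A) : List (Cmd E R A) × E → Ins (List (Cmd E R A) × E) R A
  | ([], σ) => .jmp ([body], σ)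
  | (.act f :: K, σ) => .jmp (K, f σ)
  | (.inc r :: K, σ) => .inc r (K, σ)
  | (.dec r :: K, σ) => .dec r (K, σ)
  | (.out o :: K, σ) => .out (o σ) (K, σ)
  | (.sq c c' :: K, σ) => .jmp (c :: c' :: K, σ)
  | (.cas f :: K, σ) => .jmp (f σ :: K, σ)
  | (.ifz r c c' :: K, σ) => .tst r (c :: K, σ) (c' :: K, σ)
  | (.wh r c :: K, σ) => .tst r (K, σ) (c :: .wh r c :: K, σ)

lemma run_of_ev (body : Cmd E R A) {N : ℕ} {c : Cmd E R A} {s s' : E × (R → ℕ)} {o : List A}
    (h : Ev N c s o s') (K : List (Cmd E R A)) (O : List A) :
    CS (pg body) N ((c :: K, s.1), s.2, O) ((K, s'.1), s'.2, O ++ o) := by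
  induction h generalizing K O with
  | act f σ v =>
    rw [List.append_nil]
    exact Relation.ReflTransGen.single (CStep.jmp _ _ _ _ rfl)
  | inc r σ v h =>
    rw [List.append_nil]
    exact Relation.ReflTransGen.single (CStep.inc _ _ _ r _ rfl h)
  | dec r σ v h =>
    rw [List.append_nil]
    exact Relation.ReflTransGen.single (CStep.dec _ _ _ r _ rfl h)
  | out o σ v => exact Relation.ReflTransGen.single (CStep.out _ _ _ _ _ rfl)
  | sq c c' s s' s'' o o' _ _ ih1 ih2 =>
    have h0 : CStep (pg body) N ((.sq c c' :: K, s.1), s.2, O) ((c :: c' :: K, s.1), s.2, O) :=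
      CStep.jmp _ _ _ _ rfl
    rw [← List.append_assoc]
    exact ((Relation.ReflTransGen.single h0).trans (ih1 (c' :: K) O)).trans (ih2 K (O ++ o))
  | cas f σ v s' o _ ih =>
    have h0 : CStep (pg body) N ((.cas f :: K, σ), v, O) ((f σ :: K, σ), v, O) :=
      CStep.jmp _ _ _ _ rfl
    exact (Relation.ReflTransGen.single h0).trans (ih K O)
  | ifz0 r c c' σ v s' o h0 _ ih =>
    have h1 : CStep (pg body) N ((.ifz r c c' :: K, σ), v, O) ((c :: K, σ), v, O) :=
      CStep.tz _ _ _ r _ _ rfl h0
    exact (Relation.ReflTransGen.single h1).trans (ih K O)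
  | ifz1 r c c' σ v s' o h0 _ ih =>
    have h1 : CStep (pg body) N ((.ifz r c c' :: K, σ), v, O) ((c' :: K, σ), v, O) :=
      CStep.tn _ _ _ r _ _ rfl h0
    exact (Relation.ReflTransGen.single h1).trans (ih K O)
  | wh0 r c σ v h0 =>
    rw [List.append_nil]
    exact Relation.ReflTransGen.single (CStep.tz _ _ _ r _ _ rfl h0)
  | wh1 r c σ v s' s'' o o' h0 _ _ ih1 ih2 =>
    have h1 : CStep (pg body) N ((.wh r c :: K, σ), v, O) ((c :: .wh r c :: K, σ), v, O) :=
      CStep.tn _ _ _ r _ _ rfl h0
    rw [← List.append_assoc]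
    exact ((Relation.ReflTransGen.single h1).trans (ih1 (.wh r c :: K) O)).trans
      (ih2 K (O ++ o))

omit [DecidableEq R] in
/-- The stacks that can occur. -/
def cls : Cmd E R A → List (Cmd E R A) → Set (List (Cmd E R A))
  | .act f, K => {.act f :: K, K}
  | .inc r, K => {.inc r :: K, K}
  | .dec r, K => {.dec r :: K, K}
  | .out o, K => {.out o :: K, K}
  | .sq c c', K => {.sq c c' :: K} ∪ (cls c (c' :: K) ∪ cls c' K)
  | .cas f, K => {.cas f :: K, K} ∪ ⋃ σ, cls (f σ) K
  | .ifz r c c', K => {.ifz r c c' :: K} ∪ (cls c K ∪ cls c' K)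
  | .wh r c, K => {.wh r c :: K, K} ∪ cls c (.wh r c :: K)

omit [DecidableEq R] in
lemma cls_finite [Finite E] (c : Cmd E R A) (K : List (Cmd E R A)) : (cls c K).Finite := by
  induction c generalizing K with
  | act f => exact (Set.finite_singleton _).insert _
  | inc r => exact (Set.finite_singleton _).insert _
  | dec r => exact (Set.finite_singleton _).insert _
  | out o => exact (Set.finite_singleton _).insert _
  | sq c c' ih1 ih2 =>
    exact (Set.finite_singleton _).union ((ih1 _).union (ih2 _))
  | cas f ih => exact (Set.toFinite _).union (Set.finite_iUnion fun σ => ih σ K)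
  | ifz r c c' ih1 ih2 =>
    exact (Set.finite_singleton _).union ((ih1 _).union (ih2 _))
  | wh r c ih => exact (Set.toFinite _).union (ih _)

omit [DecidableEq R] in
lemma head_mem_cls (c : Cmd E R A) (K : List (Cmd E R A)) : c :: K ∈ cls c K := by
  cases c with
  | act f => exact Or.inl rfl
  | inc r => exact Or.inl rfl
  | dec r => exact Or.inl rfl
  | out o => exact Or.inl rfl
  | sq c c' => exact Or.inl rfl
  | cas f => exact Or.inl (Or.inl rfl)
  | ifz r c c' => exact Or.inl rfl
  | wh r c => exact Or.inl (Or.inl rfl)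

omit [DecidableEq R] in
lemma tail_mem_cls (c : Cmd E R A) (K : List (Cmd E R A)) : K ∈ cls c K := by
  induction c generalizing K with
  | act f => exact Or.inr rfl
  | inc r => exact Or.inr rfl
  | dec r => exact Or.inr rfl
  | out o => exact Or.inr rfl
  | sq c c' ih1 ih2 => exact Or.inr (Or.inr (ih2 K))
  | cas f ih => exact Or.inl (Or.inr rfl)
  | ifz r c c' ih1 ih2 => exact Or.inr (Or.inl (ih1 K))
  | wh r c ih => exact Or.inl (Or.inr rfl)

/-- Targets of an instruction. -/
def tg {Q R A : Type} : Ins Q R A → Set Q
  | .tst _ a b => {a, b}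
  | .inc _ a => {a}
  | .dec _ a => {a}
  | .out _ a => {a}
  | .jmp a => {a}

omit [DecidableEq R] in
lemma cls_closed (body c : Cmd E R A) (K L : List (Cmd E R A)) (hL : L ∈ cls c K) (hne : L ≠ K)
    (σ : E) : ∀ q ∈ tg (pg body (L, σ)), q.1 ∈ cls c K := by
  have two : ∀ {c : Cmd E R A} {K L : List (Cmd E R A)}, L ∈ ({c :: K, K} : Set _) → L ≠ K →
      L = c :: K := by
    intro c K L h hn
    rcases h with h | h
    · exact h
    · exact absurd h hn
  induction c generalizing K L with
  | act f =>
    rw [two hL hne]
    rintro q rfl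
    exact Or.inr rfl
  | inc r =>
    rw [two hL hne]
    rintro q rfl
    exact Or.inr rfl
  | dec r =>
    rw [two hL hne]
    rintro q rfl
    exact Or.inr rfl
  | out o =>
    rw [two hL hne]
    rintro q rfl
    exact Or.inr rfl
  | sq c c' ih1 ih2 =>
    rcases hL with hL | hL | hL
    · rw [hL]
      rintro q rfl
      exact Or.inr (Or.inl (head_mem_cls c (c' :: K)))
    · by_cases h : L = c' :: K
      · intro q hq
        exact Or.inr (Or.inr (ih2 K L (by rw [h]; exact head_mem_cls c' K) hne q hq))
      · intro q hq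
        exact Or.inr (Or.inl (ih1 _ L hL h q hq))
    · intro q hq
      exact Or.inr (Or.inr (ih2 K L hL hne q hq))
  | cas f ih =>
    rcases hL with hL | hL
    · rw [two hL hne]
      rintro q rfl
      exact Or.inr (Set.mem_iUnion.2 ⟨σ, head_mem_cls (f σ) K⟩)
    · obtain ⟨τ, hτ⟩ := Set.mem_iUnion.1 hL
      intro q hq
      exact Or.inr (Set.mem_iUnion.2 ⟨τ, ih τ K L hτ hne q hq⟩)
  | ifz r c c' ih1 ih2 =>
    rcases hL with hL | hL | hL
    · rw [hL]
      rintro q (rfl | rfl)
      · exact Or.inr (Or.inl (head_mem_cls c K))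
      · exact Or.inr (Or.inr (head_mem_cls c' K))
    · intro q hq
      exact Or.inr (Or.inl (ih1 K L hL hne q hq))
    · intro q hq
      exact Or.inr (Or.inr (ih2 K L hL hne q hq))
  | wh r c ih =>
    have key : ∀ q ∈ tg (pg body (.wh r c :: K, σ)), q.1 ∈ cls (.wh r c) K := by
      rintro q (rfl | rfl)
      · exact Or.inl (Or.inr rfl)
      · exact Or.inr (head_mem_cls c _)
    rcases hL with hL | hL
    · rw [two hL hne]
      exact key
    · by_cases h : L = .wh r c :: K
      · rw [h]
        exact key
      · intro q hq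
        exact Or.inr (ih _ L hL h q hq)

/-- Change of the control states. -/
def Ins.map {Q Q' R A : Type} (f : Q → Q') : Ins Q R A → Ins Q' R A
  | .tst r a b => .tst r (f a) (f b)
  | .inc r a => .inc r (f a)
  | .dec r a => .dec r (f a)
  | .out o a => .out o (f a)
  | .jmp a => .jmp (f a)

lemma CStep.transfer {Q Q' : Type} {P : Q → Ins Q R A} {P' : Q' → Ins Q' R A} (ρ : Q → Q')
    (Z : Set Q) (hZ : ∀ q ∈ Z, ∀ q' ∈ tg (P q), q' ∈ Z)
    (hP : ∀ q ∈ Z, P' (ρ q) = (P q).map ρ) {N : ℕ} {c c' : Q × (R → ℕ) × List A}
    (h : CStep P N c c') (hc : c.1 ∈ Z) :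
    c'.1 ∈ Z ∧ CStep P' N (ρ c.1, c.2) (ρ c'.1, c'.2) := by
  cases h with
  | tz q v O r qz qn h h0 =>
    have e : P' (ρ q) = .tst r (ρ qz) (ρ qn) := by rw [hP q hc, h]; rfl
    exact ⟨hZ q hc qz (by rw [h]; exact Or.inl rfl), CStep.tz _ _ _ r _ _ e h0⟩
  | tn q v O r qz qn h h0 =>
    have e : P' (ρ q) = .tst r (ρ qz) (ρ qn) := by rw [hP q hc, h]; rfl
    exact ⟨hZ q hc qn (by rw [h]; exact Or.inr rfl), CStep.tn _ _ _ r _ _ e h0⟩
  | inc q v O r q' h h0 =>
    have e : P' (ρ q) = .inc r (ρ q') := by rw [hP q hc, h]; rfl
    exact ⟨hZ q hc q' (by rw [h]; rfl), CStep.inc _ _ _ r _ e h0⟩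
  | dec q v O r q' h h0 =>
    have e : P' (ρ q) = .dec r (ρ q') := by rw [hP q hc, h]; rfl
    exact ⟨hZ q hc q' (by rw [h]; rfl), CStep.dec _ _ _ r _ e h0⟩
  | out q v O a q' h =>
    have e : P' (ρ q) = .out a (ρ q') := by rw [hP q hc, h]; rfl
    exact ⟨hZ q hc q' (by rw [h]; rfl), CStep.out _ _ _ _ _ e⟩
  | jmp q v O q' h =>
    have e : P' (ρ q) = .jmp (ρ q') := by rw [hP q hc, h]; rfl
    exact ⟨hZ q hc q' (by rw [h]; rfl), CStep.jmp _ _ _ _ e⟩

lemma CS.transfer {Q Q' : Type} {P : Q → Ins Q R A} {P' : Q' → Ins Q' R A} (ρ : Q → Q')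
    (Z : Set Q) (hZ : ∀ q ∈ Z, ∀ q' ∈ tg (P q), q' ∈ Z)
    (hP : ∀ q ∈ Z, P' (ρ q) = (P q).map ρ) {N : ℕ} {c c' : Q × (R → ℕ) × List A}
    (h : CS P N c c') (hc : c.1 ∈ Z) :
    c'.1 ∈ Z ∧ CS P' N (ρ c.1, c.2) (ρ c'.1, c'.2) := by
  induction h with
  | refl => exact ⟨hc, Relation.ReflTransGen.refl⟩
  | tail _ hs ih =>
    obtain ⟨h1, h2⟩ := ih
    obtain ⟨h3, h4⟩ := CStep.transfer ρ Z hZ hP hs h1
    exact ⟨h3, h2.tail h4⟩

end

/-- A word generated by repeating a program whose registers are polynomially bounded is in
logarithmic space. -/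
theorem log_of_prog {E R : Type} [Finite E] [Finite R] [DecidableEq R] {d : ℕ}
    (body : Cmd E R (Fin d)) (w : ℕ → Fin d) (Nf : ℕ → ℕ) (B0 e : ℕ) (hmono : Monotone Nf)
    (h1 : 1 ≤ Nf 0) (hNf : ∀ n, Nf n ≤ B0 * (n + 1) ^ e) (Inv : ℕ → E × (R → ℕ) → Prop)
    (σ0 : E) (h0 : Inv 0 (σ0, fun _ => 0))
    (hstep : ∀ n s, Inv n s → ∃ s', Ev (Nf n) body s [w n] s' ∧ Inv (n + 1) s') :
    LogSpace w := by
  classical
  -- the sequence of the stores
  choose! f hf using hstep
  let ss : ℕ → E × (R → ℕ) := fun n => Nat.rec (σ0, fun _ => 0) (fun n s => f n s) n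
  have hss : ∀ n, Inv n (ss n) := by
    intro n
    induction n with
    | zero => exact h0
    | succ n ih => exact (hf n _ ih).2
  let Z : Set (List (Cmd E R (Fin d)) × E) := {q | q.1 ∈ cls body []}
  have hfin : Z.Finite := by
    have : Z ⊆ (cls body []) ×ˢ (Set.univ : Set E) := fun q hq => ⟨hq, trivial⟩
    exact ((cls_finite body []).prod Set.finite_univ).subset this
  have hZfin : Finite Z := hfin
  let z0 : Z := ⟨([], σ0), tail_mem_cls body []⟩
  let ρ : List (Cmd E R (Fin d)) × E → Z := fun q => if h : q ∈ Z then ⟨q, h⟩ else z0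
  have hρ : ∀ q ∈ Z, (ρ q).1 = q := by
    intro q hq
    simp only [ρ, dif_pos hq]
  let P' : Z → Ins Z R (Fin d) := fun z => (pg body z.1).map ρ
  have hP : ∀ q ∈ Z, P' (ρ q) = (pg body q).map ρ := by
    intro q hq
    simp only [P', hρ q hq]
  have hZ : ∀ q ∈ Z, ∀ q' ∈ tg (pg body q), q' ∈ Z := by
    rintro ⟨L, σ⟩ hq q' hq'
    by_cases hL : L = []
    · subst hL
      have : q' = ([body], σ) := hq'
      rw [this]
      exact head_mem_cls body []
    · exact cls_closed body body [] L hq hL σ q' hq'
  refine log_of_cm P' w Nf B0 e hmono h1 hNf (fun n => ρ ([], (ss n).1)) (fun n => (ss n).2) rfl ?_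
  intro n
  have k1 := run_of_ev body (hf n _ (hss n)).1 [] ((List.range n).map w)
  have k0 : CStep (pg body) (Nf n) (([], (ss n).1), (ss n).2, (List.range n).map w)
      (([body], (ss n).1), (ss n).2, (List.range n).map w) := CStep.jmp _ _ _ _ rfl
  have k2 := (Relation.ReflTransGen.single k0).trans k1
  exact (CS.transfer ρ Z hZ hP k2 (tail_mem_cls body [])).2

/-! ### Derived commands -/

section

variable {E R A : Type} [DecidableEq R] {N : ℕ}

lemma Ev.sq0 {c c' : Cmd E R A} {s s' s'' : E × (R → ℕ)} (h : Ev N c s [] s')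
    (h' : Ev N c' s' [] s'') : Ev N (.sq c c') s [] s'' := Ev.sq c c' s s' s'' [] [] h h'

lemma Ev.wh1' {r : R} {c : Cmd E R A} {σ : E} {v : R → ℕ} {s' s'' : E × (R → ℕ)}
    (h0 : v r ≠ 0) (h : Ev N c (σ, v) [] s') (h' : Ev N (.wh r c) s' [] s'') :
    Ev N (.wh r c) (σ, v) [] s'' := Ev.wh1 r c σ v s' s'' [] [] h0 h h'

/-- Nothing. -/
def skp : Cmd E R A := .act id

lemma ev_skp (s : E × (R → ℕ)) : Ev (A := A) N skp s [] s := Ev.act id s.1 s.2

/-- Repeat for the elements of a list. -/
def forL {ι : Type} (f : ι → Cmd E R A) : List ι → Cmd E R A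
  | [] => skp
  | x :: l => .sq (f x) (forL f l)

/-- Move a register. -/
def mv (a b : R) : Cmd E R A := .wh a (.sq (.dec a) (.inc b))

lemma ev_mv {a b : R} (hab : a ≠ b) (σ : E) (v : R → ℕ) (h : v a + v b ≤ N) :
    Ev (A := A) N (mv a b) (σ, v) []
      (σ, Function.update (Function.update v a 0) b (v b + v a)) := by
  obtain ⟨k, hk⟩ : ∃ k, v a = k := ⟨_, rfl⟩
  induction k generalizing v with
  | zero =>
    have e : Function.update (Function.update v a 0) b (v b + v a) = v := by
      rw [hk, add_zero]
      funext r
      by_cases h1 : r = b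
      · subst h1; simp
      · rw [Function.update_of_ne h1]
        by_cases h2 : r = a
        · subst h2; simp [hk]
        · rw [Function.update_of_ne h2]
    rw [e]
    exact Ev.wh0 _ _ _ _ hk
  | succ k ih =>
    set v1 := Function.update v a (v a - 1) with hv1
    set v2 := Function.update v1 b (v1 b + 1) with hv2
    have hb : v1 b = v b := by rw [hv1, Function.update_of_ne hab.symm]
    have ha2 : v2 a = k := by
      rw [hv2, Function.update_of_ne hab, hv1, Function.update_self, hk]
      rfl
    have hb2 : v2 b = v b + 1 := by rw [hv2, Function.update_self, hb]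
    have h3 := ih v2 (by omega) ha2
    have e : Function.update (Function.update v2 a 0) b (v2 b + v2 a) =
        Function.update (Function.update v a 0) b (v b + v a) := by
      rw [ha2, hb2, hk]
      funext r
      by_cases h1 : r = b
      · subst h1; simp; omega
      · rw [Function.update_of_ne h1, Function.update_of_ne h1]
        by_cases h2 : r = a
        · subst h2; simp
        · rw [Function.update_of_ne h2, Function.update_of_ne h2, hv2, Function.update_of_ne h1,
            hv1, Function.update_of_ne h2]
    rw [e] at h3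
    refine Ev.wh1' (by omega) (Ev.sq0 (Ev.dec a σ v (by omega)) (Ev.inc b σ v1 (by omega))) h3

/-- Clear a register. -/
def clr (a : R) : Cmd E R A := .wh a (.dec a)

lemma ev_cl (a : R) (σ : E) (v : R → ℕ) :
    Ev (A := A) N (clr a) (σ, v) [] (σ, Function.update v a 0) := by
  obtain ⟨k, hk⟩ : ∃ k, v a = k := ⟨_, rfl⟩
  induction k generalizing v with
  | zero =>
    have e : Function.update v a 0 = v := by rw [← hk]; exact Function.update_eq_self a v
    rw [e]
    exact Ev.wh0 _ _ _ _ hk
  | succ k ih =>
    have h3 := ih (Function.update v a (v a - 1)) (by simp [hk])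
    rw [Function.update_idem] at h3
    exact Ev.wh1' (by omega) (Ev.dec a σ v (by omega)) h3

/-- Add a register to a second one, with a temporary register. -/
def cp (a b t : R) : Cmd E R A := .sq (.wh a (.sq (.dec a) (.sq (.inc b) (.inc t)))) (mv t a)

lemma ev_cp_aux {a b t : R} (hab : a ≠ b) (hat : a ≠ t) (hbt : b ≠ t) (σ : E) (v : R → ℕ)
    (h : v b + v a ≤ N) (h' : v t + v a ≤ N) :
    Ev (A := A) N (.wh a (.sq (.dec a) (.sq (.inc b) (.inc t)))) (σ, v) []
      (σ, Function.update (Function.update (Function.update v a 0) b (v b + v a)) t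
        (v t + v a)) := by
  obtain ⟨k, hk⟩ : ∃ k, v a = k := ⟨_, rfl⟩
  induction k generalizing v with
  | zero =>
    have e : Function.update (Function.update (Function.update v a 0) b (v b + v a)) t
        (v t + v a) = v := by
      rw [hk, add_zero, add_zero]
      funext r
      by_cases h1 : r = t
      · subst h1; simp
      · rw [Function.update_of_ne h1]
        by_cases h2 : r = b
        · subst h2; simp
        · rw [Function.update_of_ne h2]
          by_cases h3 : r = a
          · subst h3; simp [hk]
          · rw [Function.update_of_ne h3]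
    rw [e]
    exact Ev.wh0 _ _ _ _ hk
  | succ k ih =>
    set v1 := Function.update v a (v a - 1) with hv1
    set v2 := Function.update v1 b (v1 b + 1) with hv2
    set v3 := Function.update v2 t (v2 t + 1) with hv3
    have b1 : v1 b = v b := by rw [hv1, Function.update_of_ne hab.symm]
    have t1 : v1 t = v t := by rw [hv1, Function.update_of_ne hat.symm]
    have t2 : v2 t = v t := by rw [hv2, Function.update_of_ne hbt.symm, t1]
    have t3 : v3 t = v t + 1 := by rw [hv3, Function.update_self, t2]
    have b3 : v3 b = v b + 1 := by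
      rw [hv3, Function.update_of_ne hbt, hv2, Function.update_self, b1]
    have a3 : v3 a = k := by
      rw [hv3, Function.update_of_ne hat, hv2, Function.update_of_ne hab, hv1,
        Function.update_self, hk]
      rfl
    have h3 := ih v3 (by omega) (by omega) a3
    have e : Function.update (Function.update (Function.update v3 a 0) b (v3 b + v3 a)) t
        (v3 t + v3 a) = Function.update (Function.update (Function.update v a 0) b (v b + v a)) t
        (v t + v a) := by
      rw [a3, b3, t3, hk]
      funext r
      by_cases h1 : r = t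
      · subst h1; simp; omega
      · rw [Function.update_of_ne h1, Function.update_of_ne h1]
        by_cases h2 : r = b
        · subst h2; simp; omega
        · rw [Function.update_of_ne h2, Function.update_of_ne h2]
          by_cases h4 : r = a
          · subst h4; simp
          · rw [Function.update_of_ne h4, Function.update_of_ne h4, hv3,
              Function.update_of_ne h1, hv2, Function.update_of_ne h2, hv1,
              Function.update_of_ne h4]
    rw [e] at h3
    exact Ev.wh1' (by omega) (Ev.sq0 (Ev.dec a σ v (by omega))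
      (Ev.sq0 (Ev.inc b σ v1 (by omega)) (Ev.inc t σ v2 (by omega)))) h3

lemma ev_cp {a b t : R} (hab : a ≠ b) (hat : a ≠ t) (hbt : b ≠ t) (σ : E) (v : R → ℕ)
    (ht : v t = 0) (h : v b + v a ≤ N) :
    Ev (A := A) N (cp a b t) (σ, v) [] (σ, Function.update v b (v b + v a)) := by
  have h1 := ev_cp_aux (A := A) (N := N) hab hat hbt σ v h (by omega)
  set v1 := Function.update (Function.update (Function.update v a 0) b (v b + v a)) t
        (v t + v a) with hv1
  have t1 : v1 t = v a := by rw [hv1, Function.update_self, ht, zero_add]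
  have a1 : v1 a = 0 := by
    rw [hv1, Function.update_of_ne hat, Function.update_of_ne hab, Function.update_self]
  have h2 := ev_mv (A := A) (N := N) hat.symm σ v1 (by omega)
  have e : Function.update (Function.update v1 t 0) a (v1 a + v1 t) =
      Function.update v b (v b + v a) := by
    rw [t1, a1, zero_add]
    funext r
    by_cases h1 : r = a
    · subst h1
      rw [Function.update_self, Function.update_of_ne hab]
    · rw [Function.update_of_ne h1]
      by_cases h2 : r = t
      · subst h2
        rw [Function.update_self, Function.update_of_ne hbt.symm, ht]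
      · rw [Function.update_of_ne h2, hv1, Function.update_of_ne h2]
        by_cases h3 : r = b
        · subst h3
          rw [Function.update_self, Function.update_self]
        · rw [Function.update_of_ne h3, Function.update_of_ne h3, Function.update_of_ne h1]
  rw [e] at h2
  exact Ev.sq0 h1 h2

/-- Set a register to the value of a second one. -/
def stt (a b t : R) : Cmd E R A := .sq (clr a) (cp b a t)

lemma ev_stt {a b t : R} (hab : a ≠ b) (hat : a ≠ t) (hbt : b ≠ t) (σ : E) (v : R → ℕ)
    (ht : v t = 0) (h : v b ≤ N) :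
    Ev (A := A) N (stt a b t) (σ, v) [] (σ, Function.update v a (v b)) := by
  have h1 := ev_cl (A := A) (N := N) a σ v
  have e1 : Function.update v a 0 b = v b := Function.update_of_ne hab.symm _ _
  have e2 : Function.update v a 0 t = 0 := by rw [Function.update_of_ne hat.symm, ht]
  have e3 : Function.update v a 0 a = 0 := Function.update_self _ _ _
  have h2 := ev_cp (A := A) (N := N) hab.symm hbt hat σ (Function.update v a 0) e2 (by omega)
  rw [Function.update_idem, e1, e3, zero_add] at h2
  exact Ev.sq0 h1 h2

/-- Capped addition: add `p` to `w` as long as the slack `u` is positive. -/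
def adc (p w u t : R) : Cmd E R A :=
  .sq (.wh p (.sq (.dec p) (.sq (.inc t) (.ifz u skp (.sq (.dec u) (.inc w)))))) (mv t p)

lemma ev_adc_aux {p w u t : R} (hpw : p ≠ w) (hpu : p ≠ u) (hpt : p ≠ t) (hwu : w ≠ u)
    (hwt : w ≠ t) (hut : u ≠ t) (σ : E) (v : R → ℕ) (h : v t + v p ≤ N) (h' : v w + v u ≤ N) :
    Ev (A := A) N (.wh p (.sq (.dec p) (.sq (.inc t) (.ifz u skp (.sq (.dec u) (.inc w))))))
      (σ, v) []
      (σ, Function.update (Function.update (Function.update (Function.update v p 0) t
        (v t + v p)) u (v u - v p)) w (v w + min (v p) (v u))) := by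
  obtain ⟨k, hk⟩ : ∃ k, v p = k := ⟨_, rfl⟩
  induction k generalizing v with
  | zero =>
    have e : Function.update (Function.update (Function.update (Function.update v p 0) t
        (v t + v p)) u (v u - v p)) w (v w + min (v p) (v u)) = v := by
      rw [hk, add_zero, Nat.sub_zero, Nat.zero_min, add_zero]
      funext r
      by_cases h1 : r = w
      · subst h1; simp
      · rw [Function.update_of_ne h1]
        by_cases h2 : r = u
        · subst h2; simp
        · rw [Function.update_of_ne h2]
          by_cases h3 : r = t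
          · subst h3; simp
          · rw [Function.update_of_ne h3]
            by_cases h4 : r = p
            · subst h4; simp [hk]
            · rw [Function.update_of_ne h4]
    rw [e]
    exact Ev.wh0 _ _ _ _ hk
  | succ k ih =>
    set v1 := Function.update v p (v p - 1) with hv1
    set v2 := Function.update v1 t (v1 t + 1) with hv2
    have p1 : v1 p = k := by rw [hv1, Function.update_self, hk]; rfl
    have t1 : v1 t = v t := by rw [hv1, Function.update_of_ne hpt.symm]
    have u1 : v1 u = v u := by rw [hv1, Function.update_of_ne hpu.symm]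
    have w1 : v1 w = v w := by rw [hv1, Function.update_of_ne hpw.symm]
    have p2 : v2 p = k := by rw [hv2, Function.update_of_ne hpt, p1]
    have t2 : v2 t = v t + 1 := by rw [hv2, Function.update_self, t1]
    have u2 : v2 u = v u := by rw [hv2, Function.update_of_ne hut, u1]
    have w2 : v2 w = v w := by rw [hv2, Function.update_of_ne hwt, w1]
    by_cases hu : v u = 0
    · have h3 := ih v2 (by omega) (by omega) p2
      have e : Function.update (Function.update (Function.update (Function.update v2 p 0) t
          (v2 t + v2 p)) u (v2 u - v2 p)) w (v2 w + min (v2 p) (v2 u)) =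
          Function.update (Function.update (Function.update (Function.update v p 0) t
          (v t + v p)) u (v u - v p)) w (v w + min (v p) (v u)) := by
        rw [p2, t2, u2, w2, hk, hu]
        funext r
        by_cases h1 : r = w
        · subst h1; simp
        · rw [Function.update_of_ne h1, Function.update_of_ne h1]
          by_cases h2 : r = u
          · subst h2; simp
          · rw [Function.update_of_ne h2, Function.update_of_ne h2]
            by_cases h3 : r = t
            · subst h3; simp; omega
            · rw [Function.update_of_ne h3, Function.update_of_ne h3]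
              by_cases h4 : r = p
              · subst h4; simp
              · rw [Function.update_of_ne h4, Function.update_of_ne h4, hv2,
                  Function.update_of_ne h3, hv1, Function.update_of_ne h4]
      rw [e] at h3
      exact Ev.wh1' (by omega) (Ev.sq0 (Ev.dec p σ v (by omega))
        (Ev.sq0 (Ev.inc t σ v1 (by omega)) (Ev.ifz0 u _ _ σ v2 _ _ (by omega) (ev_skp _)))) h3
    · set v3 := Function.update v2 u (v2 u - 1) with hv3
      set v4 := Function.update v3 w (v3 w + 1) with hv4
      have w3 : v3 w = v w := by rw [hv3, Function.update_of_ne hwu, w2]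
      have p4 : v4 p = k := by
        rw [hv4, Function.update_of_ne hpw, hv3, Function.update_of_ne hpu, p2]
      have t4 : v4 t = v t + 1 := by
        rw [hv4, Function.update_of_ne hwt.symm, hv3, Function.update_of_ne hut.symm, t2]
      have u4 : v4 u = v u - 1 := by
        rw [hv4, Function.update_of_ne hwu.symm, hv3, Function.update_self, u2]
      have w4 : v4 w = v w + 1 := by rw [hv4, Function.update_self, w3]
      have h3 := ih v4 (by omega) (by omega) p4
      have e : Function.update (Function.update (Function.update (Function.update v4 p 0) t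
          (v4 t + v4 p)) u (v4 u - v4 p)) w (v4 w + min (v4 p) (v4 u)) =
          Function.update (Function.update (Function.update (Function.update v p 0) t
          (v t + v p)) u (v u - v p)) w (v w + min (v p) (v u)) := by
        rw [p4, t4, u4, w4, hk]
        funext r
        by_cases h1 : r = w
        · subst h1; simp; omega
        · rw [Function.update_of_ne h1, Function.update_of_ne h1]
          by_cases h2 : r = u
          · subst h2; simp; omega
          · rw [Function.update_of_ne h2, Function.update_of_ne h2]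
            by_cases h3 : r = t
            · subst h3; simp; omega
            · rw [Function.update_of_ne h3, Function.update_of_ne h3]
              by_cases h4 : r = p
              · subst h4; simp
              · rw [Function.update_of_ne h4, Function.update_of_ne h4, hv4,
                  Function.update_of_ne h1, hv3, Function.update_of_ne h2, hv2,
                  Function.update_of_ne h3, hv1, Function.update_of_ne h4]
      rw [e] at h3
      exact Ev.wh1' (by omega) (Ev.sq0 (Ev.dec p σ v (by omega))
        (Ev.sq0 (Ev.inc t σ v1 (by omega)) (Ev.ifz1 u _ _ σ v2 _ _ (by omega)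
          (Ev.sq0 (Ev.dec u σ v2 (by omega)) (Ev.inc w σ v3 (by omega)))))) h3

lemma ev_adc {p w u t : R} (hpw : p ≠ w) (hpu : p ≠ u) (hpt : p ≠ t) (hwu : w ≠ u)
    (hwt : w ≠ t) (hut : u ≠ t) (σ : E) (v : R → ℕ) (ht : v t = 0) (h : v p ≤ N)
    (h' : v w + v u ≤ N) :
    Ev (A := A) N (adc p w u t) (σ, v) []
      (σ, Function.update (Function.update v u (v u - v p)) w (v w + min (v p) (v u))) := by
  have h1 := ev_adc_aux (A := A) (N := N) hpw hpu hpt hwu hwt hut σ v (by omega) h'
  set v1 := Function.update (Function.update (Function.update (Function.update v p 0) t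
        (v t + v p)) u (v u - v p)) w (v w + min (v p) (v u)) with hv1
  have t1 : v1 t = v p := by
    rw [hv1, Function.update_of_ne hwt.symm, Function.update_of_ne hut.symm,
      Function.update_self, ht, zero_add]
  have p1 : v1 p = 0 := by
    rw [hv1, Function.update_of_ne hpw, Function.update_of_ne hpu, Function.update_of_ne hpt,
      Function.update_self]
  have h2 := ev_mv (A := A) (N := N) hpt.symm σ v1 (by omega)
  have e : Function.update (Function.update v1 t 0) p (v1 p + v1 t) =
      Function.update (Function.update v u (v u - v p)) w (v w + min (v p) (v u)) := by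
    rw [t1, p1, zero_add]
    funext r
    by_cases h1 : r = p
    · subst h1
      rw [Function.update_self, Function.update_of_ne hpw, Function.update_of_ne hpu]
    · rw [Function.update_of_ne h1]
      by_cases h2 : r = t
      · subst h2
        rw [Function.update_self, Function.update_of_ne hwt.symm, Function.update_of_ne hut.symm,
          ht]
      · rw [Function.update_of_ne h2, hv1]
        by_cases h3 : r = w
        · subst h3
          rw [Function.update_self, Function.update_self]
        · rw [Function.update_of_ne h3, Function.update_of_ne h3]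
          by_cases h4 : r = u
          · subst h4
            rw [Function.update_self, Function.update_self]
          · rw [Function.update_of_ne h4, Function.update_of_ne h4, Function.update_of_ne h2,
              Function.update_of_ne h1]
  rw [e] at h2
  exact Ev.sq0 h1 h2

end

end Pool.Agent.W_MP_5d512e_dic
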