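import Pool.Agent.W_MP_5d512e_dic.Loop

/-!
# One simulated step of the transducer
-/

set_option autoImplicit false

namespace Pool.Agent.W_MP_5d512e_dic

open Pool.Agent.W_MP_5d512e_h33
open Pool.Agent.W_MP_5d512e_h83 (Pk pk pk_val)

open Gt Lb

section

variable {S : Type} {d M e : ℕ} (Y : Sys S (Fin (d + 1)))

/-- The head at `h`, the delay pointers at zero. -/
def hdp (e h : ℕ) : Fin (e + 1) → ℕ := fun i => if i = 0 then h else 0

/-- The configurations between two steps. -/
def can (M e : ℕ) (q : S) (L h : ℕ) (l O : List (Fin (d + 1))) :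
    Gt S d M e × List (Lb d e) × List (Fin (d + 1)) :=
  (jb q (pk M l), wd L 0 O (hfe (hdp e h)) (onef O.length) allf nof [E], O)

lemma length_wd (L k : ℕ) (O : List (Fin (d + 1))) (hf : Fin (e + 1) → ℕ → Bool)
    (tf mf ff : ℕ → Bool) : (wd L k O hf tf mf ff [E]).length = 2 * 2 ^ L := by
  have hN : 1 ≤ 2 ^ L := Nat.one_le_two_pow
  rw [wd, length_gw hN, List.length_singleton]
  omega

/-- Append one letter. -/
lemma app_one (q : S) (z : Fin (d + 1)) (l' : List (Fin (d + 1)))
    (hl : (z :: l').length ≤ M) {L h : ℕ} (O : List (Fin (d + 1))) (hL : 1 ≤ L)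
    (hh : h ≤ O.length) (hO : O.length < 2 ^ L) (hO2 : 2 ^ L ≤ 2 * (O.length + 1)) :
    ∃ L' n, L ≤ L' ∧ n ≤ 6 * L + 3 ∧ O.length + 1 < 2 ^ L' ∧
      2 ^ L' ≤ 2 * (O.length + 1 + 1) ∧
      (mac (M := M) (e := e) Y).Steps n (can M e q L h (z :: l') O)
        (can M e q L' h l' (O ++ [z])) := by
  have hlen : (O ++ [z]).length = O.length + 1 := by simp
  have a1 := step_write (M := M) (e := e) Y q z l' hl O hO (hfe (hdp e h))
  have a2 := scan (M := M) (e := e) Y .T (by intro h; cases h) q (pk M l') hL hO (O ++ [z])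
    (hfe (hdp e h)) (onef O.length) (onef O.length) rfl (O ++ [z])
  by_cases hc : O.length + 1 < 2 ^ L
  · have hk : kpf L O.length = false := by
      unfold kpf
      rw [Nat.mod_eq_of_lt hO]
      simp
      omega
    rw [hk] at a2
    have a3 := step_s4F (M := M) (e := e) Y q (pk M l') hc (O ++ [z]) (hfe (hdp e h))
      (onef O.length) (O ++ [z])
    refine ⟨L, 1 + 3 * L + 1, le_rfl, by omega, hc, by omega, ?_⟩
    have := ((RS2.Steps.one a1).trans a2).trans (RS2.Steps.one a3)
    unfold can
    rw [hlen]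
    exact this
  · have he : O.length + 1 = 2 ^ L := by omega
    have hk : kpf L O.length = true := by
      unfold kpf
      rw [Nat.mod_eq_of_lt hO]
      simp
      omega
    rw [hk] at a2
    have a3 := step_s4T (M := M) (e := e) Y q (pk M l') (L := L) (O ++ [z]) (hfe (hdp e h))
      (onef O.length) (mtf L O.length) (O ++ [z])
    have a4 := grow_aux (M := M) (e := e) Y q (pk M l') (L := L) (O ++ [z]) (hfe (hdp e h)) nof
      allf (O ++ [z]) L le_rfl hL
    rw [if_pos rfl] at a4
    have a5 := step_s4W (M := M) (e := e) Y q (pk M l') hL (O ++ [z]) (by rw [hlen]; omega)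
      (hdp e h) (by intro i; unfold hdp; split_ifs <;> omega) allf (O ++ [z])
    refine ⟨L + 1, 1 + 3 * L + 1 + 3 * L + 1, by omega, by omega, ?_, ?_, ?_⟩
    · rw [pow_succ]; omega
    · rw [pow_succ]; omega
    have := ((((RS2.Steps.one a1).trans a2).trans (RS2.Steps.one a3)).trans a4).trans
      (RS2.Steps.one a5)
    unfold can
    rw [hlen, he]
    exact this

/-- Append all letters. -/
lemma app_all (q : S) (l : List (Fin (d + 1))) (hl : l.length ≤ M) {L h : ℕ}
    (O : List (Fin (d + 1))) (hL : 1 ≤ L) (hh : h ≤ O.length) (hO : O.length < 2 ^ L)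
    (hO2 : 2 ^ L ≤ 2 * (O.length + 1)) :
    ∃ L' n, L ≤ L' ∧ n ≤ l.length * (6 * L' + 3) ∧ (O ++ l).length < 2 ^ L' ∧
      2 ^ L' ≤ 2 * ((O ++ l).length + 1) ∧
      (mac (M := M) (e := e) Y).Steps n (can M e q L h l O) (can M e q L' h [] (O ++ l)) := by
  induction l generalizing L O with
  | nil =>
    refine ⟨L, 0, le_rfl, by simp, by simpa using hO, by simpa using hO2, ?_⟩
    rw [List.append_nil]
    exact .zero _
  | cons z l ih =>
    obtain ⟨L1, n1, h1, h2, h3, h4, h5⟩ := app_one (M := M) (e := e) Y q z l hl O hL hh hO hO2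
    have hlen : (O ++ [z]).length = O.length + 1 := by simp
    obtain ⟨L2, n2, k1, k2, k3, k4, k5⟩ := ih (by rw [List.length_cons] at hl; omega) (O ++ [z])
      (L := L1) (by omega) (by omega) (by omega) (by omega)
    rw [List.append_assoc] at k3 k4 k5
    refine ⟨L2, n1 + n2, by omega, ?_, k3, k4, h5.trans k5⟩
    rw [List.length_cons, Nat.succ_mul]
    omega

/-- Reading rounds. -/
lemma read_all (q : S) (x : Fin (d + 1)) {L h : ℕ} (O : List (Fin (d + 1)))
    (hh : h < 2 ^ L) (hx : O[h]? = some x) (D : Fin (e + 1) → ℕ) (hD : D 0 = h) (tf : ℕ → Bool)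
    (y : ℕ) (hy : y ≤ x.val) :
    (mac (M := M) (e := e) Y).Steps y
      (rd q 0, wd L 0 O (hfe D) tf allf nof [E], O)
      (rd q ⟨y, by omega⟩, wd L 0 O (hfe D) tf allf nof [E], O) := by
  induction y with
  | zero => exact .zero _
  | succ y ih =>
    have h1 := ih (by omega)
    have h2 := step_rd (M := M) (e := e) Y q ⟨y, by omega⟩ O hh x hx D hD tf
    rw [if_neg (by intro h; rw [h] at hy; simp at hy)] at h2
    have e0 : (⟨y, by omega⟩ : Fin (d + 1)) + 1 = ⟨y + 1, by omega⟩ := by
      apply Fin.ext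
      rw [Fin.val_add_one_of_lt' (by simp only; omega)]
    rw [e0] at h2
    exact .succ _ _ _ _ h1 h2

/-! ### The delay -/

/-- A complete scan with a head or delay pointer. -/
lemma scanH (i : Fin (e + 1)) (q : S) (l : Pk (Fin (d + 1)) M) {L : ℕ} (hL : 1 ≤ L)
    (D : Fin (e + 1) → ℕ) (hD : D i < 2 ^ L) (O : List (Fin (d + 1))) (tf : ℕ → Bool)
    (Q : List (Fin (d + 1))) :
    (mac (M := M) (e := e) Y).Steps (3 * L + 1)
      (s1 (.H i) q l true, wd L 0 O (hfe D) tf allf nof [E], Q)
      (nxt Y (s4 (.H i) q l (kpf L (D i))) false,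
        wd L 0 O (hfe (Function.update D i ((D i + 1) % 2 ^ L))) tf allf nof [E], Q) := by
  have a1 := scan (M := M) (e := e) Y (.H i) (by intro h; cases h) q l hL (p := D i) hD O
    (hfe D) tf nof rfl Q
  have a2 := step_s4H (M := M) (e := e) Y i q l (L := L) (p := D i) (kpf L (D i)) O (hfe D) tf Q
  have e0 : Function.update (hfe D) i (onef ((D i + 1) % 2 ^ L)) =
      hfe (Function.update D i ((D i + 1) % 2 ^ L)) := by
    funext i'
    by_cases hi : i' = i
    · subst hi
      simp [hfe]
    · simp [hfe, hi]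
  rw [e0] at a2
  exact a1.trans (RS2.Steps.one a2)

/-- The delay pointers run through all addresses. -/
lemma odo (q : S) (l : Pk (Fin (d + 1)) M) {L : ℕ} (hL : 1 ≤ L) (O : List (Fin (d + 1)))
    (tf : ℕ → Bool) (Q : List (Fin (d + 1))) (m : ℕ) (hm : m ≤ e) (D : Fin (e + 1) → ℕ)
    (hD : ∀ i, D i < 2 ^ L) (h0 : ∀ i : Fin (e + 1), e - m < i.val → D i = 0) :
    ∃ n, (mac (M := M) (e := e) Y).Steps n
      (s1 (.H (Fin.last e)) q l true, wd L 0 O (hfe D) tf allf nof [E], Q)
      (s1 (.H ⟨e - m, by omega⟩) q l true, wd L 0 O (hfe D) tf allf nof [E], Q) ∧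
      (1 ≤ m → (2 ^ L) ^ m ≤ n) ∧ n ≤ 4 * m * (2 ^ L) ^ (m + 1) := by
  induction m generalizing D with
  | zero =>
    refine ⟨0, ?_, by omega, by simp⟩
    exact .zero _
  | succ m ih =>
    set j : Fin (e + 1) := ⟨e - m, by omega⟩ with hj
    have hj0 : j ≠ 0 := by
      intro h
      have := congrArg Fin.val h
      simp only [hj, Fin.val_zero] at this
      omega
    have hj1 : j - 1 = ⟨e - (m + 1), by omega⟩ := by
      apply Fin.ext
      rw [Fin.val_sub_one_of_ne_zero hj0]
      simp only [hj]
      omega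
    have hP : 0 < 2 ^ L := by positivity
    have inner : ∀ v, v ≤ 2 ^ L - 1 → ∀ D : Fin (e + 1) → ℕ, (∀ i, D i < 2 ^ L) →
        (∀ i : Fin (e + 1), e - m < i.val → D i = 0) → D j = 2 ^ L - 1 - v →
        ∃ n, (mac (M := M) (e := e) Y).Steps n
          (s1 (.H (Fin.last e)) q l true, wd L 0 O (hfe D) tf allf nof [E], Q)
          (s1 (.H (j - 1)) q l true,
            wd L 0 O (hfe (Function.update D j 0)) tf allf nof [E], Q) ∧
          (v + 1) * (2 ^ L) ^ m ≤ n ∧
          n ≤ (v + 1) * (4 * m * (2 ^ L) ^ (m + 1) + (3 * L + 1)) := by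
      intro v
      induction v with
      | zero =>
        intro _ D hD h0 hDj
        obtain ⟨n, k1, k2, k3⟩ := ih (by omega) D hD h0
        have a1 := scanH (M := M) (e := e) Y j q l hL D (hD j) O tf Q
        have hk : kpf L (D j) = true := by
          unfold kpf
          rw [Nat.mod_eq_of_lt (hD j), hDj]
          simp
        have e1 : (D j + 1) % 2 ^ L = 0 := by
          rw [hDj, show 2 ^ L - 1 - 0 + 1 = 2 ^ L by omega]
          exact Nat.mod_self _
        have e2 : nxt Y (s4 (.H j) q l (kpf L (D j))) false = s1 (.H (j - 1)) q l true := by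
          rw [hk]
          simp [nxt, hj0]
        rw [e1, e2] at a1
        refine ⟨_, k1.trans a1, ?_, by omega⟩
        rcases Nat.eq_zero_or_pos m with h | h
        · subst h
          simp only [pow_zero]
          omega
        · have := k2 h
          omega
      | succ v ihv =>
        intro hv D hD h0 hDj
        obtain ⟨n, k1, k2, k3⟩ := ih (by omega) D hD h0
        have a1 := scanH (M := M) (e := e) Y j q l hL D (hD j) O tf Q
        have hk : kpf L (D j) = false := by
          unfold kpf
          rw [Nat.mod_eq_of_lt (hD j), hDj]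
          simp
          omega
        have e1 : (D j + 1) % 2 ^ L = 2 ^ L - 1 - v := by
          rw [hDj, Nat.mod_eq_of_lt (by omega)]
          omega
        have e2 : nxt Y (s4 (.H j) q l (kpf L (D j))) false =
            s1 (.H (Fin.last e)) q l true := by
          rw [hk]
          simp [nxt, hj0]
        rw [e1, e2] at a1
        obtain ⟨n', r1, r2, r3⟩ := ihv (by omega) (Function.update D j (2 ^ L - 1 - v))
          (by
            intro i
            by_cases hi : i = j
            · subst hi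
              rw [Function.update_self]
              omega
            · rw [Function.update_of_ne hi]
              exact hD i)
          (by
            intro i hi
            have hij : i ≠ j := by
              intro h
              rw [h] at hi
              simp only [hj] at hi
              omega
            rw [Function.update_of_ne hij]
            exact h0 i hi)
          (by rw [Function.update_self])
        rw [Function.update_idem] at r1
        refine ⟨_, (k1.trans a1).trans r1, ?_, ?_⟩
        · have : (v + 1 + 1) * (2 ^ L) ^ m = (v + 1) * (2 ^ L) ^ m + (2 ^ L) ^ m := by ring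
          rw [this]
          rcases Nat.eq_zero_or_pos m with h | h
          · subst h
            simp only [pow_zero, mul_one] at r2 ⊢
            omega
          · have := k2 h
            omega
        · have : (v + 1 + 1) * (4 * m * (2 ^ L) ^ (m + 1) + (3 * L + 1)) =
              (v + 1) * (4 * m * (2 ^ L) ^ (m + 1) + (3 * L + 1)) +
              (4 * m * (2 ^ L) ^ (m + 1) + (3 * L + 1)) := by ring
          rw [this]
          omega
    have hDj : D j = 0 := h0 j (by simp only [hj]; omega)
    obtain ⟨n, k1, k2, k3⟩ := inner (2 ^ L - 1) le_rfl D hD (fun i hi => h0 i (by omega))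
      (by rw [hDj]; omega)
    have e1 : Function.update D j 0 = D := by
      rw [← hDj]
      exact Function.update_eq_self j D
    rw [e1, hj1] at k1
    rw [show 2 ^ L - 1 + 1 = 2 ^ L by omega] at k2 k3
    refine ⟨n, k1, ?_, ?_⟩
    · intro _
      rw [pow_succ, mul_comm]
      exact k2
    · have hLlt : L < 2 ^ L := Nat.lt_two_pow_self
      have h1 : 3 * L + 1 ≤ 4 * (2 ^ L) ^ (m + 1) := by
        have : 2 ^ L ≤ (2 ^ L) ^ (m + 1) := Nat.le_self_pow (by omega) _
        omega
      calc n ≤ 2 ^ L * (4 * m * (2 ^ L) ^ (m + 1) + (3 * L + 1)) := k3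
        _ ≤ 2 ^ L * (4 * m * (2 ^ L) ^ (m + 1) + 4 * (2 ^ L) ^ (m + 1)) :=
          Nat.mul_le_mul_left _ (by omega)
        _ = 4 * (m + 1) * (2 ^ L) ^ (m + 1 + 1) := by ring

/-- One simulated step. -/
lemma cycle (q : S) (hM : ∀ q x, (Y.out q x).length ≤ M) {L h : ℕ} (O : List (Fin (d + 1)))
    (hL : 1 ≤ L) (hO : O.length < 2 ^ L) (hO2 : 2 ^ L ≤ 2 * (O.length + 1))
    (x : Fin (d + 1)) (hx : O[h + 1]? = some x) :
    ∃ L' n, L ≤ L' ∧ n ≤ 4 * e * (2 ^ L) ^ (e + 1) + (M + 1) * (6 * L' + 3) + d + 3 ∧
      (2 ^ L) ^ e ≤ n ∧ (O ++ Y.out q x).length < 2 ^ L' ∧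
      2 ^ L' ≤ 2 * ((O ++ Y.out q x).length + 1) ∧
      (mac (M := M) (e := e) Y).Steps n (can M e q L h [] O)
        (can M e (Y.δ q x) L' (h + 1) [] (O ++ Y.out q x)) := by
  have hlt : h + 1 < O.length := by
    by_contra hcon
    rw [List.getElem?_eq_none (by omega)] at hx
    cases hx
  have a1 := step_jb_nil (M := M) (e := e) Y q (L := L) O (hfe (hdp e h)) (onef O.length)
  obtain ⟨n0, b1, b2, b3⟩ := odo (M := M) (e := e) Y q (pk M []) hL O (onef O.length) O e le_rfl
    (hdp e h) (by intro i; unfold hdp; split_ifs <;> omega)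
    (by
      intro i hi
      have : i ≠ 0 := by
        rintro rfl
        simp at hi
      simp [hdp, this])
  have e0 : (⟨e - e, by omega⟩ : Fin (e + 1)) = 0 := by
    apply Fin.ext
    simp
  rw [e0] at b1
  have a2 := scanH (M := M) (e := e) Y 0 q (pk M []) hL (hdp e h) (by simp [hdp]; omega) O
    (onef O.length) O
  have e1 : nxt (M := M) (e := e) Y (s4 (.H 0) q (pk M []) (kpf L (hdp e h 0))) false =
      rd q 0 := by
    simp [nxt]
  have e2 : Function.update (hdp e h) 0 ((hdp e h 0 + 1) % 2 ^ L) = hdp e (h + 1) := by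
    have : hdp e h 0 = h := by simp [hdp]
    rw [this, Nat.mod_eq_of_lt (by omega)]
    funext i
    by_cases hi : i = 0
    · subst hi
      simp [hdp]
    · simp [hdp, hi]
  rw [e1, e2] at a2
  have hd0 : hdp e (h + 1) 0 = h + 1 := by simp [hdp]
  have a4 := read_all (M := M) (e := e) Y q x O (L := L) (h := h + 1) (by omega) hx
    (hdp e (h + 1)) hd0 (onef O.length) x.val le_rfl
  have a5 := step_rd (M := M) (e := e) Y q x (L := L) (h := h + 1) O (by omega) x hx
    (hdp e (h + 1)) hd0 (onef O.length)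
  rw [if_pos rfl] at a5
  obtain ⟨L', n, k1, k2, k3, k4, k5⟩ := app_all (M := M) (e := e) Y (Y.δ q x) (Y.out q x)
    (hM q x) O (h := h + 1) hL (by omega) hO hO2
  have hlast := (((((RS2.Steps.one a1).trans b1).trans a2).trans a4).trans
    (RS2.Steps.one a5)).trans k5
  refine ⟨L', _, k1, ?_, ?_, k3, k4, hlast⟩
  · have h1 : (Y.out q x).length * (6 * L' + 3) ≤ M * (6 * L' + 3) :=
      Nat.mul_le_mul_right _ (hM q x)
    have h2 : (M + 1) * (6 * L' + 3) = M * (6 * L' + 3) + (6 * L' + 3) := by ring
    have h3 := x.isLt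
    omega
  · rcases Nat.eq_zero_or_pos e with h | h
    · subst h
      simp only [pow_zero]
      omega
    · have := b2 h
      omega

end

/-! ### Finiteness -/

instance {d e : ℕ} : Finite (Cell d e) := by
  let f : Cell d e → Option (Fin (d + 1)) × Bool × Bool × Bool × (Fin (e + 1) → Bool) × Bool ×
      Bool × Bool :=
    fun x => (x.c, x.par, x.bit, x.mt, x.hH, x.hT, x.yg, x.fr)
  apply Finite.of_injective f
  intro x y h
  cases x
  cases y
  simp_all [f]

instance : Finite Bnd := by
  let f : Bnd → Fin 3 × Bool × Bool × Bool × Bool × Bool :=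
    fun x => (x.kd, x.dir, x.odd, x.ctr, x.yg, x.nc)
  apply Finite.of_injective f
  intro x y h
  cases x
  cases y
  simp_all [f]

instance {d e : ℕ} : Finite (Lb d e) := by
  let f : Lb d e → Unit ⊕ Cell d e ⊕ Bnd := fun x =>
    match x with
    | .E => Sum.inl ()
    | .C x => Sum.inr (Sum.inl x)
    | .B x => Sum.inr (Sum.inr x)
  apply Finite.of_injective f
  intro x y h
  cases x <;> cases y <;> simp_all [f]

instance {e : ℕ} : Finite (Md e) := by
  let f : Md e → Fin (e + 1) ⊕ Bool := fun x =>
    match x with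
    | .H j => Sum.inl j
    | .T => Sum.inr true
    | .W => Sum.inr false
  apply Finite.of_injective f
  intro x y h
  cases x <;> cases y <;> simp_all [f]

instance {S : Type} {d M e : ℕ} [Finite S] : Finite (Gt S d M e) := by
  have : Finite (Pk (Fin (d + 1)) M) := List.finite_length_le (Fin (d + 1)) M
  let f : Gt S d M e → (S × Pk (Fin (d + 1)) M) ⊕ (Fin 4 × Md e × S × Pk (Fin (d + 1)) M ×
      Bool × Bool) ⊕ (S × Fin (d + 1)) := fun x =>
    match x with
    | .jb q l => Sum.inl (q, l)
    | .s1 md q l κ => Sum.inr (Sum.inl (0, md, q, l, κ, false))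
    | .s2 md q l κ la => Sum.inr (Sum.inl (1, md, q, l, κ, la))
    | .s3 md q l κ la => Sum.inr (Sum.inl (2, md, q, l, κ, la))
    | .s4 md q l κ => Sum.inr (Sum.inl (3, md, q, l, κ, false))
    | .rd q y => Sum.inr (Sum.inr (q, y))
  apply Finite.of_injective f
  intro x y h
  cases x <;> cases y <;> simp_all [f]

end Pool.Agent.W_MP_5d512e_dic
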