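import Pool.Agent.W_MP_5d512e_dic.Cmd

/-!
# Words generated by morphisms are in logarithmic space
-/

set_option autoImplicit false

namespace Pool.Agent.W_MP_5d512e_dic

open Pool.Agent.W_MP_5d512e_h33 (LogSpace)

/-- Registers. -/
inductive Rg (m : ℕ)
  | N
  | S
  | J
  | K
  | T
  | X
  | U
  | V (y : Fin m)
  | W (y : Fin m)
  deriving DecidableEq

instance {m : ℕ} : Finite (Rg m) := by
  let f : Rg m → Fin 7 ⊕ Fin m ⊕ Fin m := fun x =>
    match x with
    | .N => Sum.inl 0
    | .S => Sum.inl 1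
    | .J => Sum.inl 2
    | .K => Sum.inl 3
    | .T => Sum.inl 4
    | .X => Sum.inl 5
    | .U => Sum.inl 6
    | .V y => Sum.inr (Sum.inl y)
    | .W y => Sum.inr (Sum.inr y)
  apply Finite.of_injective f
  intro x y h
  cases x <;> cases y <;> simp_all [f]

/-- The iterated images of a letter. -/
def wdm {m : ℕ} (H : Fin m → List (Fin m)) : ℕ → Fin m → List (Fin m)
  | 0, x => [x]
  | s + 1, x => (H x).flatMap (wdm H s)

section

variable {m d : ℕ}

/-- Contents of the registers. -/
def rs (n s j k t u : ℕ) (V W : Fin m → ℕ) : Rg m → ℕ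
  | .N => n
  | .S => s
  | .J => j
  | .K => k
  | .T => t
  | .X => 0
  | .U => u
  | .V y => V y
  | .W y => W y

section

variable (n s j k t u a : ℕ) (V W : Fin m → ℕ) (y : Fin m)

lemma rs_N : Function.update (rs n s j k t u V W) .N a = rs a s j k t u V W := by
  funext r; cases r <;> simp [rs, Function.update_apply]

lemma rs_S : Function.update (rs n s j k t u V W) .S a = rs n a j k t u V W := by
  funext r; cases r <;> simp [rs, Function.update_apply]

lemma rs_J : Function.update (rs n s j k t u V W) .J a = rs n s a k t u V W := by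
  funext r; cases r <;> simp [rs, Function.update_apply]

lemma rs_K : Function.update (rs n s j k t u V W) .K a = rs n s j a t u V W := by
  funext r; cases r <;> simp [rs, Function.update_apply]

lemma rs_T : Function.update (rs n s j k t u V W) .T a = rs n s j k a u V W := by
  funext r; cases r <;> simp [rs, Function.update_apply]

lemma rs_U : Function.update (rs n s j k t u V W) .U a = rs n s j k t a V W := by
  funext r; cases r <;> simp [rs, Function.update_apply]

lemma rs_V : Function.update (rs n s j k t u V W) (.V y) a =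
    rs n s j k t u (Function.update V y a) W := by
  funext r; cases r <;> simp [rs, Function.update_apply]

lemma rs_W : Function.update (rs n s j k t u V W) (.W y) a =
    rs n s j k t u V (Function.update W y a) := by
  funext r; cases r <;> simp [rs, Function.update_apply]

end

lemma ev_forL_set {ι E R A : Type} [DecidableEq R] [DecidableEq ι] {N : ℕ} {σ : E}
    (f : ι → Cmd E R A) (mk : (ι → ℕ) → (R → ℕ)) (g : ι → ℕ)
    (h : ∀ y V, Ev N (f y) (σ, mk V) [] (σ, mk (Function.update V y (g y)))) (l : List ι)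
    (V : ι → ℕ) :
    Ev N (forL f l) (σ, mk V) [] (σ, mk (fun y => if y ∈ l then g y else V y)) := by
  induction l generalizing V with
  | nil =>
    simp only [List.not_mem_nil, if_false]
    exact ev_skp _
  | cons x l ih =>
    have h1 := h x V
    have h2 := ih (Function.update V x (g x))
    have e : (fun y => if y ∈ l then g y else Function.update V x (g x) y) =
        (fun y => if y ∈ x :: l then g y else V y) := by
      funext y
      by_cases hy : y ∈ l
      · simp [hy]
      · by_cases hx : y = x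
        · subst hx
          simp
        · simp [hy, hx]
    rw [e] at h2
    exact Ev.sq0 h1 h2

variable (H : Fin m → List (Fin m)) (c : Fin m → Fin d) (x0 : Fin m)

/-- Programs for the given alphabet. -/
abbrev Cm (m d : ℕ) := Cmd (Fin m × Bool) (Rg m) (Fin d)

/-- Set all `V` to one. -/
def c1 (m d : ℕ) : Cm m d := forL (fun y => .sq (clr (.V y)) (.inc (.V y))) (List.finRange m)

/-- Compute the new lengths. -/
def c2 (d : ℕ) : Cm m d := forL (fun y => .sq (clr (.W y)) (.sq (stt .U .N .X) (.sq (.inc .U)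
  (.sq (forL (fun z => adc (.V z) (.W y) .U .X) (H y)) (clr .U))))) (List.finRange m)

/-- Copy the new lengths. -/
def c3 (m d : ℕ) : Cm m d := forL (fun y => stt (.V y) (.W y) .X) (List.finRange m)

/-- Capped lengths. -/
def Vc (n i : ℕ) (y : Fin m) : ℕ := min (wdm H i y).length (n + 1)

lemma ev_c1 (n s j k t u : ℕ) (V W : Fin m → ℕ) (σ : Fin m × Bool) :
    Ev (n + 1) (c1 m d) (σ, rs n s j k t u V W) [] (σ, rs n s j k t u (Vc H n 0) W) := by
  have h := ev_forL_set (N := n + 1) (σ := σ) (A := Fin d)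
    (fun y => .sq (clr (.V y)) (.inc (.V y))) (fun V => rs n s j k t u V W) (fun _ => 1)
    (by
      intro y V
      have h1 := ev_cl (A := Fin d) (N := n + 1) (.V y) σ (rs n s j k t u V W)
      rw [rs_V] at h1
      have h2 := Ev.inc (A := Fin d) (N := n + 1) (.V y) σ
        (rs n s j k t u (Function.update V y 0) W) (by simp [rs])
      rw [rs_V, Function.update_idem] at h2
      have e : rs n s j k t u (Function.update V y 0) W (.V y) = 0 := by simp [rs]
      rw [e] at h2
      exact Ev.sq0 h1 h2) (List.finRange m) V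
  have e : (fun y => if y ∈ List.finRange m then 1 else V y) = Vc H n 0 := by
    funext y
    simp [Vc, wdm]
  rw [e] at h
  exact h

lemma ev_adcs (n s j k t : ℕ) (V : Fin m → ℕ) (hV : ∀ z, V z ≤ n + 1) (y : Fin m)
    (σ : Fin m × Bool) (zs : List (Fin m)) (u : ℕ) (W : Fin m → ℕ) (hu : W y + u ≤ n + 1) :
    Ev (n + 1) (forL (fun z => adc (.V z) (.W y) .U .X) zs : Cm m d)
      (σ, rs n s j k t u V W) []
      (σ, rs n s j k t (u - (zs.map V).sum) V
        (Function.update W y (W y + min (zs.map V).sum u))) := by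
  induction zs generalizing u W with
  | nil =>
    simp only [List.map_nil, List.sum_nil, Nat.zero_min, add_zero, Nat.sub_zero,
      Function.update_eq_self]
    exact ev_skp _
  | cons z zs ih =>
    have h1 := ev_adc (A := Fin d) (N := n + 1) (p := (Rg.V z : Rg m)) (w := .W y) (u := .U)
      (t := .X) (by simp) (by simp) (by simp) (by simp) (by simp) (by simp) σ
      (rs n s j k t u V W) rfl (hV z) hu
    have e1 : rs n s j k t u V W .U = u := rfl
    have e2 : rs n s j k t u V W (.V z) = V z := rfl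
    have e3 : rs n s j k t u V W (.W y) = W y := rfl
    rw [e1, e2, e3, rs_U, rs_W] at h1
    have h2 := ih (u - V z) (Function.update W y (W y + min (V z) u)) (by
      rw [Function.update_self]
      omega)
    rw [Function.update_self, Function.update_idem] at h2
    have e4 : u - V z - (zs.map V).sum = u - ((z :: zs).map V).sum := by
      rw [List.map_cons, List.sum_cons]
      omega
    have e5 : W y + min (V z) u + min (zs.map V).sum (u - V z) =
        W y + min ((z :: zs).map V).sum u := by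
      rw [List.map_cons, List.sum_cons]
      omega
    rw [e4, e5] at h2
    exact Ev.sq0 h1 h2

lemma sum_cap (n : ℕ) (f : Fin m → ℕ) (zs : List (Fin m)) :
    min (zs.map (fun z => min (f z) (n + 1))).sum (n + 1) = min (zs.map f).sum (n + 1) := by
  induction zs with
  | nil => simp
  | cons z zs ih =>
    simp only [List.map_cons, List.sum_cons]
    omega

lemma ev_c2 (n s j k t i : ℕ) (W : Fin m → ℕ) (σ : Fin m × Bool) :
    Ev (n + 1) (c2 H d) (σ, rs n s j k t 0 (Vc H n i) W) []
      (σ, rs n s j k t 0 (Vc H n i) (Vc H n (i + 1))) := by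
  have hV : ∀ z, Vc H n i z ≤ n + 1 := fun z => Nat.min_le_right _ _
  have h := ev_forL_set (N := n + 1) (σ := σ) (A := Fin d)
    (fun y => .sq (clr (.W y)) (.sq (stt .U .N .X) (.sq (.inc .U)
      (.sq (forL (fun z => adc (.V z) (.W y) .U .X) (H y)) (clr .U)))))
    (fun W => rs n s j k t 0 (Vc H n i) W) (Vc H n (i + 1))
    (by
      intro y W
      have h1 := ev_cl (A := Fin d) (N := n + 1) (.W y) σ (rs n s j k t 0 (Vc H n i) W)
      rw [rs_W] at h1
      have h2 := ev_stt (A := Fin d) (N := n + 1) (a := (Rg.U : Rg m)) (b := .N) (t := .X)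
        (by simp) (by simp) (by simp) σ
        (rs n s j k t 0 (Vc H n i) (Function.update W y 0)) rfl (by simp [rs])
      rw [rs_U] at h2
      have e1 : rs n s j k t 0 (Vc H n i) (Function.update W y 0) .N = n := rfl
      rw [e1] at h2
      have h3 := Ev.inc (A := Fin d) (N := n + 1) (.U : Rg m) σ
        (rs n s j k t n (Vc H n i) (Function.update W y 0)) (by simp [rs])
      rw [rs_U] at h3
      have e2 : rs n s j k t n (Vc H n i) (Function.update W y 0) .U = n := rfl
      rw [e2] at h3
      have h4 := ev_adcs (d := d) n s j k t (Vc H n i) hV y σ (H y) (n + 1)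
        (Function.update W y 0) (by simp)
      rw [Function.update_self, Function.update_idem, zero_add] at h4
      have e3 : min ((H y).map (Vc H n i)).sum (n + 1) = Vc H n (i + 1) y := by
        have e : (H y).map (Vc H n i) =
            (H y).map (fun z => min (wdm H i z).length (n + 1)) := rfl
        rw [e, sum_cap n (fun z => (wdm H i z).length) (H y), Vc, wdm, List.length_flatMap]
      rw [e3] at h4
      have h5 := ev_cl (A := Fin d) (N := n + 1) (.U : Rg m) σ
        (rs n s j k t (n + 1 - ((H y).map (Vc H n i)).sum) (Vc H n i)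
          (Function.update W y (Vc H n (i + 1) y)))
      rw [rs_U] at h5
      exact Ev.sq0 h1 (Ev.sq0 h2 (Ev.sq0 h3 (Ev.sq0 h4 h5)))) (List.finRange m) W
  have e : (fun y => if y ∈ List.finRange m then Vc H n (i + 1) y else W y) =
      Vc H n (i + 1) := by
    funext y
    simp
  rw [e] at h
  exact h

lemma ev_c3 (n s j k t u : ℕ) (V W : Fin m → ℕ) (hW : ∀ y, W y ≤ n + 1) (σ : Fin m × Bool) :
    Ev (n + 1) (c3 m d) (σ, rs n s j k t u V W) [] (σ, rs n s j k t u W W) := by
  have h := ev_forL_set (N := n + 1) (σ := σ) (A := Fin d)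
    (fun y => stt (.V y) (.W y) .X) (fun V => rs n s j k t u V W) W
    (by
      intro y V
      have h2 := ev_stt (A := Fin d) (N := n + 1) (a := (Rg.V y : Rg m)) (b := .W y) (t := .X)
        (by simp) (by simp) (by simp) σ (rs n s j k t u V W) rfl (hW y)
      rw [rs_V] at h2
      exact h2) (List.finRange m) V
  have e : (fun y => if y ∈ List.finRange m then W y else V y) = W := by
    funext y
    simp
  rw [e] at h
  exact h

/-- Compute the lengths. -/
def cT (d : ℕ) : Cm m d := .wh .T (.sq (.dec .T) (.sq (c2 H d) (c3 m d)))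

lemma ev_cT (n s j k i t : ℕ) (W : Fin m → ℕ) (σ : Fin m × Bool) :
    ∃ W', Ev (n + 1) (cT H d) (σ, rs n s j k t 0 (Vc H n i) W) []
      (σ, rs n s j k 0 0 (Vc H n (i + t)) W') := by
  induction t generalizing i W with
  | zero => exact ⟨W, Ev.wh0 _ _ _ _ rfl⟩
  | succ t ih =>
    have h1 := Ev.dec (A := Fin d) (N := n + 1) (.T : Rg m) σ
      (rs n s j k (t + 1) 0 (Vc H n i) W) (by simp [rs])
    rw [rs_T] at h1
    have e1 : rs n s j k (t + 1) 0 (Vc H n i) W .T - 1 = t := rfl
    rw [e1] at h1
    have h2 := ev_c2 (d := d) H n s j k t i W σ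
    have h3 := ev_c3 (d := d) n s j k t 0 (Vc H n i) (Vc H n (i + 1))
      (fun y => Nat.min_le_right _ _) σ
    obtain ⟨W', h4⟩ := ih (i + 1) (Vc H n (i + 1))
    rw [show i + 1 + t = i + (t + 1) by ring] at h4
    exact ⟨W', Ev.wh1' (by simp [rs]) (Ev.sq0 h1 (Ev.sq0 h2 h3)) h4⟩

/-- Compare. -/
def cJ (m d : ℕ) : Cm m d :=
  .wh .T (.sq (.dec .T) (.ifz .J (.act (fun σ => (σ.1, true))) (.sq (.dec .J) (.inc .K))))

lemma ev_cJ (n s j k t u : ℕ) (V W : Fin m → ℕ) (x : Fin m) (fl : Bool) (hk : k + j ≤ n + 1) :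
    Ev (n + 1) (cJ m d) ((x, fl), rs n s j k t u V W) []
      ((x, fl || decide (j < t)), rs n s (j - t) (k + min j t) 0 u V W) := by
  induction t generalizing j k fl with
  | zero =>
    simp only [Nat.sub_zero, Nat.min_zero, add_zero, Nat.not_lt_zero, decide_false,
      Bool.or_false]
    exact Ev.wh0 _ _ _ _ rfl
  | succ t ih =>
    have h1 := Ev.dec (A := Fin d) (N := n + 1) (.T : Rg m) (x, fl)
      (rs n s j k (t + 1) u V W) (by simp [rs])
    rw [rs_T] at h1
    have e1 : rs n s j k (t + 1) u V W .T - 1 = t := rfl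
    rw [e1] at h1
    by_cases hj : j = 0
    · subst hj
      have h2 := Ev.act (A := Fin d) (N := n + 1) (fun σ : Fin m × Bool => (σ.1, true)) (x, fl)
        (rs n s 0 k t u V W)
      have h3 := Ev.ifz0 (N := n + 1) (.J : Rg m) _ (.sq (.dec .J) (.inc .K)) _ _ _ _ rfl h2
      have h4 := ih 0 k true hk
      simp only [Bool.true_or, Nat.zero_sub, Nat.zero_min, add_zero] at h4
      have e2 : (fl || decide (0 < t + 1)) = true := by simp
      rw [e2, Nat.zero_sub, Nat.zero_min, add_zero]
      exact Ev.wh1' (by simp [rs]) (Ev.sq0 h1 h3) h4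
    · have h2 := Ev.dec (A := Fin d) (N := n + 1) (.J : Rg m) (x, fl)
        (rs n s j k t u V W) (by simpa [rs] using hj)
      rw [rs_J] at h2
      have e2 : rs n s j k t u V W .J - 1 = j - 1 := rfl
      rw [e2] at h2
      have h3 := Ev.inc (A := Fin d) (N := n + 1) (.K : Rg m) (x, fl)
        (rs n s (j - 1) k t u V W) (by simp only [rs]; omega)
      rw [rs_K] at h3
      have e3 : rs n s (j - 1) k t u V W .K + 1 = k + 1 := rfl
      rw [e3] at h3
      have h4 := Ev.ifz1 (N := n + 1) (.J : Rg m) (.act (fun σ => (σ.1, true))) _ _ _ _ _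
        (by simpa [rs] using hj) (Ev.sq0 h2 h3)
      have h5 := ih (j - 1) (k + 1) fl (by omega)
      have e4 : decide (j - 1 < t) = decide (j < t + 1) := by
        congr 1
        apply propext
        omega
      have e5 : j - 1 - t = j - (t + 1) := by omega
      have e6 : k + 1 + min (j - 1) t = k + min j (t + 1) := by omega
      rw [e4, e5, e6] at h5
      exact Ev.wh1' (by simp [rs]) (Ev.sq0 h1 h4) h5

/-- Find the child. -/
def pck (d : ℕ) : List (Fin m) → Cm m d
  | [] => skp
  | y :: ys => .sq (stt .T (.V y) .X) (.sq (cJ m d) (.cas (fun σ => if σ.2 = true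
      then .sq (mv .K .J) (.act (fun _ => (y, false)))
      else .sq (clr .K) (pck d ys))))

lemma ev_pck (n s i : ℕ) (W : Fin m → ℕ) (a : Fin m) (ys : List (Fin m)) (x : Fin m) (j : ℕ)
    (hj : j ≤ n) (ha : (ys.flatMap (wdm H i))[j]? = some a) :
    ∃ y j', j' ≤ n ∧ (wdm H i y)[j']? = some a ∧
      Ev (n + 1) (pck d ys) ((x, false), rs n s j 0 0 0 (Vc H n i) W) []
        ((y, false), rs n s j' 0 0 0 (Vc H n i) W) := by
  induction ys generalizing x j with
  | nil => simp at ha
  | cons y ys ih =>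
    have h1 := ev_stt (A := Fin d) (N := n + 1) (a := (Rg.T : Rg m)) (b := .V y) (t := .X)
        (by simp) (by simp) (by simp) (x, false) (rs n s j 0 0 0 (Vc H n i) W) rfl
        (Nat.min_le_right _ _)
    rw [rs_T] at h1
    have e1 : rs n s j 0 0 0 (Vc H n i) W (.V y) = Vc H n i y := rfl
    rw [e1] at h1
    have h2 := ev_cJ (d := d) n s j 0 (Vc H n i y) 0 (Vc H n i) W x false (by omega)
    rw [Bool.false_or, zero_add] at h2
    rw [List.flatMap_cons] at ha
    by_cases hlt : j < (wdm H i y).length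
    · have hV : j < Vc H n i y := by
        unfold Vc
        omega
      rw [List.getElem?_append_left hlt] at ha
      rw [decide_eq_true hV] at h2
      refine ⟨y, j, hj, ha, ?_⟩
      have h3 := ev_mv (A := Fin d) (N := n + 1) (a := (Rg.K : Rg m)) (b := .J) (by simp)
        (x, true) (rs n s (j - Vc H n i y) (min j (Vc H n i y)) 0 0 (Vc H n i) W)
        (by simp only [rs]; omega)
      rw [rs_K, rs_J] at h3
      have e3 : rs n s (j - Vc H n i y) (min j (Vc H n i y)) 0 0 (Vc H n i) W .J +
          rs n s (j - Vc H n i y) (min j (Vc H n i y)) 0 0 (Vc H n i) W .K = j := by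
        simp only [rs]
        omega
      rw [e3] at h3
      have h4 := Ev.act (A := Fin d) (N := n + 1) (fun _ : Fin m × Bool => (y, false)) (x, true)
        (rs n s j 0 0 0 (Vc H n i) W)
      refine Ev.sq0 h1 (Ev.sq0 h2 (Ev.cas _ _ _ _ _ ?_))
      simp only [if_true]
      exact Ev.sq0 h3 h4
    · have hV : ¬ j < Vc H n i y := by
        unfold Vc
        omega
      have hVe : Vc H n i y = (wdm H i y).length := by
        unfold Vc
        omega
      rw [List.getElem?_append_right (by omega)] at ha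
      rw [decide_eq_false hV] at h2
      obtain ⟨y', j', k1, k2, k3⟩ := ih x (j - (wdm H i y).length) (by omega) ha
      refine ⟨y', j', k1, k2, ?_⟩
      have h3 := ev_cl (A := Fin d) (N := n + 1) (.K : Rg m)
        (x, false) (rs n s (j - Vc H n i y) (min j (Vc H n i y)) 0 0 (Vc H n i) W)
      rw [rs_K] at h3
      refine Ev.sq0 h1 (Ev.sq0 h2 (Ev.cas _ _ _ _ _ ?_))
      simp only [Bool.false_eq_true, if_false]
      rw [← hVe] at k3
      exact Ev.sq0 h3 k3

/-- Descend one level. -/
def lvl (d : ℕ) : Cm m d :=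
  .sq (.dec .S) (.sq (c1 m d) (.sq (stt .T .S .X) (.sq (cT H d) (.cas fun σ => pck d (H σ.1)))))

lemma ev_lvls (n s : ℕ) (hs : s ≤ n) (V W : Fin m → ℕ) (a : Fin m) (x : Fin m) (j : ℕ)
    (hj : j ≤ n) (ha : (wdm H s x)[j]? = some a) :
    ∃ V' W' j', Ev (n + 1) (.wh .S (lvl H d)) ((x, false), rs n s j 0 0 0 V W) []
        ((a, false), rs n 0 j' 0 0 0 V' W') := by
  induction s generalizing V W x j with
  | zero =>
    have hx : x = a := by
      cases j with
      | zero => simpa [wdm] using ha
      | succ j => simp [wdm] at ha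
    subst hx
    exact ⟨V, W, j, Ev.wh0 _ _ _ _ rfl⟩
  | succ s ih =>
    have h1 := Ev.dec (A := Fin d) (N := n + 1) (.S : Rg m) (x, false)
      (rs n (s + 1) j 0 0 0 V W) (by simp [rs])
    rw [rs_S] at h1
    have e1 : rs n (s + 1) j 0 0 0 V W .S - 1 = s := rfl
    rw [e1] at h1
    have h2 := ev_c1 (d := d) H n s j 0 0 0 V W (x, false)
    have h3 := ev_stt (A := Fin d) (N := n + 1) (a := (Rg.T : Rg m)) (b := .S) (t := .X)
        (by simp) (by simp) (by simp) (x, false) (rs n s j 0 0 0 (Vc H n 0) W) rfl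
        (by simp only [rs]; omega)
    rw [rs_T] at h3
    have e3 : rs n s j 0 0 0 (Vc H n 0) W .S = s := rfl
    rw [e3] at h3
    obtain ⟨W1, h4⟩ := ev_cT (d := d) H n s j 0 0 s W (x, false)
    rw [zero_add] at h4
    obtain ⟨y, j1, k1, k2, k3⟩ := ev_pck (d := d) H n s s W1 a (H x) x j hj ha
    obtain ⟨V', W', j', h5⟩ := ih (by omega) (Vc H n s) W1 y j1 k1 k2
    refine ⟨V', W', j', Ev.wh1' (by simp [rs]) ?_ h5⟩
    exact Ev.sq0 h1 (Ev.sq0 h2 (Ev.sq0 h3 (Ev.sq0 h4 (Ev.cas _ _ _ _ _ k3))))

/-- The program. -/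
def prg : Cm m d :=
  .sq (.act (fun _ => (x0, false))) (.sq (stt .J .N .X) (.sq (stt .S .N .X)
    (.sq (.wh .S (lvl H d)) (.sq (.out (fun σ => c σ.1)) (.inc .N)))))

lemma ev_prg (n j : ℕ) (V W : Fin m → ℕ) (a : Fin m) (σ : Fin m × Bool)
    (ha : (wdm H n x0)[n]? = some a) :
    ∃ V' W' j' σ', Ev (n + 1) (prg H c x0) (σ, rs n 0 j 0 0 0 V W) [c a]
      (σ', rs (n + 1) 0 j' 0 0 0 V' W') := by
  have h1 := Ev.act (A := Fin d) (N := n + 1) (fun _ : Fin m × Bool => (x0, false)) σ
    (rs n 0 j 0 0 0 V W)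
  have h2 := ev_stt (A := Fin d) (N := n + 1) (a := (Rg.J : Rg m)) (b := .N) (t := .X)
    (by simp) (by simp) (by simp) (x0, false) (rs n 0 j 0 0 0 V W) rfl (by simp [rs])
  rw [rs_J] at h2
  have e2 : rs n 0 j 0 0 0 V W .N = n := rfl
  rw [e2] at h2
  have h3 := ev_stt (A := Fin d) (N := n + 1) (a := (Rg.S : Rg m)) (b := .N) (t := .X)
    (by simp) (by simp) (by simp) (x0, false) (rs n 0 n 0 0 0 V W) rfl (by simp [rs])
  rw [rs_S] at h3
  have e3 : rs n 0 n 0 0 0 V W .N = n := rfl
  rw [e3] at h3
  obtain ⟨V', W', j', h4⟩ := ev_lvls (d := d) H n n le_rfl V W a x0 n le_rfl ha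
  have h5 := Ev.out (N := n + 1) (fun σ : Fin m × Bool => c σ.1) (a, false)
    (rs n 0 j' 0 0 0 V' W')
  have h6 := Ev.inc (A := Fin d) (N := n + 1) (.N : Rg m) (a, false)
    (rs n 0 j' 0 0 0 V' W') (by simp [rs])
  rw [rs_N] at h6
  refine ⟨V', W', j', (a, false), ?_⟩
  have h7 := Ev.sq _ _ _ _ _ _ _ h5 h6
  have h8 := Ev.sq _ _ _ _ _ _ _ h4 h7
  have h9 := Ev.sq _ _ _ _ _ _ _ h3 h8
  have h10 := Ev.sq _ _ _ _ _ _ _ h2 h9
  exact Ev.sq _ _ _ _ _ _ _ h1 h10

/-- Letter images of words generated by morphisms are in logarithmic space. -/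
theorem morphic_log (ω : ℕ → Fin m) (hω : ∀ n, (wdm H n x0)[n]? = some (ω n)) :
    LogSpace (fun n => c (ω n)) := by
  refine log_of_prog (prg H c x0) (fun n => c (ω n)) (fun n => n + 1) 1 1 ?_ le_rfl ?_
    (fun n s => ∃ j V W, s.2 = rs n 0 j 0 0 0 V W) (x0, false) ?_ ?_
  · intro a b hab
    exact Nat.add_le_add_right hab 1
  · intro n
    simp
  · refine ⟨0, fun _ => 0, fun _ => 0, ?_⟩
    funext r
    cases r <;> rfl
  · rintro n ⟨σ, v⟩ ⟨j, V, W, hv⟩
    simp only at hv
    subst hv
    obtain ⟨V', W', j', σ', h⟩ := ev_prg H c x0 n j V W (ω n) σ (hω n)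
    exact ⟨_, h, j', V', W', rfl⟩

end

end Pool.Agent.W_MP_5d512e_dic
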