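import Pool.Agent.W_MP_5d512e_dic.Scan

/-!
# Complete scans, growth, and one simulated step
-/

set_option autoImplicit false

namespace Pool.Agent.W_MP_5d512e_dic

open Pool.Agent.W_MP_5d512e_h33
open Pool.Agent.W_MP_5d512e_h83 (Pk pk pk_val)

open Gt Lb

section

variable {S : Type} {d M e : ℕ} (Y : Sys S (Fin (d + 1)))

lemma quietE : ∀ l ∈ ([E] : List (Lb d e)), quiet l := by
  intro l hl
  rw [List.mem_singleton.1 hl]
  trivial

/-! ### Scans that move a pointer -/

/-- The first `k` stages. -/
lemma scan_aux (md : Md e) (hmd : md ≠ .W) (q : S) (l : Pk (Fin (d + 1)) M) {L p : ℕ}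
    (hp : p < 2 ^ L) (O : List (Fin (d + 1))) (hf : Fin (e + 1) → ℕ → Bool) (tf ff : ℕ → Bool)
    (hpf : pf md hf tf = onef p) (Q : List (Fin (d + 1))) (k : ℕ) (hk : k ≤ L) (hk0 : 1 ≤ k) :
    (mac (M := M) (e := e) Y).Steps (3 * k)
      (s1 md q l (kpf 0 p), wd L 0 O hf tf (mtf 0 p) ff [E], Q)
      (if k = L then s4 md q l (kpf k p) else s1 md q l (kpf k p),
        wd L k O hf tf (mtf k p) nof [E], Q) := by
  have key : ∀ (k : ℕ) (ff : ℕ → Bool), k < L → (mac (M := M) (e := e) Y).Steps 3
      (s1 md q l (kpf k p), wd L k O hf tf (mtf k p) ff [E], Q)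
      (if k + 1 = L then s4 md q l (kpf (k + 1) p) else s1 md q l (kpf (k + 1) p),
        wd L (k + 1) O hf tf (mtf (k + 1) p) nof [E], Q) := by
    intro k ff hk
    have a1 := step_s1 (M := M) Y md q l (kpf k p) hk O hf tf (mtf k p) ff [E] quietE rfl Q
    have a2 := step_s2 Y md hmd q l (decide (k + 1 = L)) (k := k) hp O hf tf hpf Q
    have a3 := step_s3 (M := M) Y md q l (kpf (k + 1) p) hk O hf tf (mtf (k + 1) p) [] []
      (by simp) (fun _ => []) (by simp) rfl rfl Q
    simp only [List.nil_append] at a3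
    exact .succ _ _ _ _ (.succ _ _ _ _ (.succ _ _ _ _ (.zero _) a1) a2) a3
  induction k with
  | zero => omega
  | succ k ih =>
    by_cases h0 : k = 0
    · subst h0
      exact key 0 ff (by omega)
    · have h1 := ih (by omega) (by omega)
      rw [if_neg (by omega)] at h1
      have h2 := h1.trans (key k nof (by omega))
      rw [show 3 * (k + 1) = 3 * k + 3 by ring]
      exact h2

lemma kpf_zero (p : ℕ) : kpf 0 p = true := by simp [kpf, Nat.mod_one]

lemma mtf_zero (p : ℕ) : mtf 0 p = allf := by
  funext j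
  simp [mtf, allf, Nat.mod_one]

/-- A complete scan. -/
lemma scan (md : Md e) (hmd : md ≠ .W) (q : S) (l : Pk (Fin (d + 1)) M) {L p : ℕ} (hL : 1 ≤ L)
    (hp : p < 2 ^ L) (O : List (Fin (d + 1))) (hf : Fin (e + 1) → ℕ → Bool) (tf ff : ℕ → Bool)
    (hpf : pf md hf tf = onef p) (Q : List (Fin (d + 1))) :
    (mac (M := M) (e := e) Y).Steps (3 * L)
      (s1 md q l true, wd L 0 O hf tf allf ff [E], Q)
      (s4 md q l (kpf L p), wd L L O hf tf (mtf L p) nof [E], Q) := by
  have h := scan_aux Y md hmd q l hp O hf tf ff hpf Q L le_rfl hL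
  rwa [if_pos rfl, kpf_zero, mtf_zero] at h

lemma gw_congr {L : Type} {b c b' c' : ℕ → L} {N : ℕ} {R : List L} (hN : 1 ≤ N)
    (hb : ∀ j, 1 ≤ j → j < N → b j = b' j) (hc : ∀ j, j < N → c j = c' j) :
    gw b c N R = gw b' c' N R := by
  rw [gw, gw, hc 0 (by omega), seg_congr (b' := b') (c' := c')
    (fun j h1 h2 => hb j h1 (by omega)) (fun j h1 h2 => hc j (by omega))]

/-- End of a scan that moves a head or a delay pointer. -/
lemma step_s4H (i : Fin (e + 1)) (q : S) (l : Pk (Fin (d + 1)) M) {L p : ℕ}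
    (κ : Bool) (O : List (Fin (d + 1)))
    (hf : Fin (e + 1) → ℕ → Bool) (tf : ℕ → Bool) (Q : List (Fin (d + 1))) :
    (mac (M := M) (e := e) Y).Step (s4 (.H i) q l κ, wd L L O hf tf (mtf L p) nof [E], Q)
      (nxt Y (s4 (.H i) q l κ) false,
        wd L 0 O (Function.update hf i (onef ((p + 1) % 2 ^ L))) tf allf nof [E], Q) := by
  have hN : 1 ≤ 2 ^ L := Nat.one_le_two_pow
  have hon : ∀ x, (mac (M := M) (e := e) Y).on (s4 (.H i) q l κ) x = false := by
    intro x
    cases x <;> rfl
  have hm : ∀ j, j < 2 ^ L → mtf L p j = onef ((p + 1) % 2 ^ L) j := by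
    intro j hj
    unfold mtf onef
    rw [Nat.mod_eq_of_lt hj]
  have h := bstep Y (s4 (.H i) q l κ) rfl false
    (b := fun j => B (bn L L j)) (c := fun j => C (cl O hf tf (mtf L p) nof L j))
    (b' := fun j => B (bn L 0 j))
    (c' := fun j => C (cl O (Function.update hf i (onef ((p + 1) % 2 ^ L))) tf allf nof 0 j))
    (R := [E]) (R' := [E]) Q hN quietE 0
    (by intro j hj; rw [hon] at hj; exact Bool.noConfusion hj)
    (by intro j hj; rw [hon] at hj; exact Bool.noConfusion hj)
    (by rintro j ⟨hj, -⟩; rw [hon] at hj; exact Bool.noConfusion hj)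
    (by simp only [hon]; simp)
    (by
      intro j _ _
      simp only [upt, upB, bn]; rw [rk_bitf])
    (by
      intro j hj
      simp only [upt, upC, cl]
      rw [hm j hj]
      have e0 : Function.update (fun i => hf i j) i (onef ((p + 1) % 2 ^ L) j) =
          (fun i' => Function.update hf i (onef ((p + 1) % 2 ^ L)) i' j) := by
        funext i'
        by_cases hi : i' = i
        · subst hi
          simp
        · simp [hi]
      rw [e0]
      rfl)
    rfl
  have h2 := ext_wd L 0 O (Function.update hf i (onef ((p + 1) % 2 ^ L))) tf allf [E] rfl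
  unfold wd at h2 ⊢
  rw [h2, List.append_nil] at h
  exact h

/-- End of a scan that moves the tail. -/
lemma step_s4F (q : S) (l : Pk (Fin (d + 1)) M) {L p : ℕ} (hp : p + 1 < 2 ^ L)
    (O : List (Fin (d + 1)))
    (hf : Fin (e + 1) → ℕ → Bool) (tf : ℕ → Bool) (Q : List (Fin (d + 1))) :
    (mac (M := M) (e := e) Y).Step (s4 .T q l false, wd L L O hf tf (mtf L p) nof [E], Q)
      (jb q l, wd L 0 O hf (onef (p + 1)) allf nof [E], Q) := by
  have hN : 1 ≤ 2 ^ L := Nat.one_le_two_pow
  have hon : ∀ x, (mac (M := M) (e := e) Y).on (s4 .T q l false) x = false := by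
    intro x
    cases x <;> rfl
  have hm : ∀ j, j < 2 ^ L → mtf L p j = onef (p + 1) j := by
    intro j hj
    unfold mtf onef
    rw [Nat.mod_eq_of_lt hj, Nat.mod_eq_of_lt hp]
  have h := bstep Y (s4 .T q l false) rfl false
    (b := fun j => B (bn L L j)) (c := fun j => C (cl O hf tf (mtf L p) nof L j))
    (b' := fun j => B (bn L 0 j))
    (c' := fun j => C (cl O hf (onef (p + 1)) allf nof 0 j))
    (R := [E]) (R' := [E]) Q hN quietE 0
    (by intro j hj; rw [hon] at hj; exact Bool.noConfusion hj)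
    (by intro j hj; rw [hon] at hj; exact Bool.noConfusion hj)
    (by rintro j ⟨hj, -⟩; rw [hon] at hj; exact Bool.noConfusion hj)
    (by simp only [hon]; simp)
    (by
      intro j _ _
      simp only [upt, upB, bn]; rw [rk_bitf])
    (by
      intro j hj
      simp only [upt, upC, cl]
      rw [hm j hj]
      rfl)
    rfl
  have h2 := ext_wd L 0 O hf (onef (p + 1)) allf [E] rfl
  unfold wd at h2 ⊢
  rw [h2, List.append_nil] at h
  exact h

/-! ### Growth -/

/-- Young boundaries. -/
def yb (j : ℕ) : Bnd := ybl (dirf j) (bitf 0 j)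

/-- Young cells. -/
def yc (k j : ℕ) : Cell d e := ycl (bitf 0 j) (decide (j = 2 ^ k))

/-- The young part. -/
def yv (k : ℕ) : List (Lb d e) := B ncb :: C (yc k (2 ^ k)) ::
  seg (fun j => B (yb j)) (fun j => C (yc k j)) (2 ^ k + 1) (2 ^ k - 1)

lemma mem_yv {k : ℕ} {x : Lb d e} (h : x ∈ yv k) : x = B ncb ∨ (∃ j, x = B (yb j)) ∨
    ∃ j, x = C (yc k j) := by
  rw [yv, List.mem_cons, List.mem_cons] at h
  rcases h with h | h | h
  · exact Or.inl h
  · exact Or.inr (Or.inr ⟨_, h⟩)
  · obtain ⟨j, -, -, h | h⟩ := mem_seg h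
    · exact Or.inr (Or.inl ⟨j, h⟩)
    · exact Or.inr (Or.inr ⟨j, h⟩)

lemma quiet_yv (k : ℕ) : ∀ l ∈ (yv k ++ [E] : List (Lb d e)), quiet l := by
  intro l hl
  rcases List.mem_append.1 hl with hl | hl
  · rcases mem_yv hl with rfl | ⟨j, rfl⟩ | ⟨j, rfl⟩
    · rfl
    · rfl
    · exact ⟨rfl, rfl, rfl, rfl⟩
  · exact quietE l hl

lemma ext_yv (k : ℕ) : (yv k : List (Lb d e)).filterMap ext = [] := by
  rw [List.filterMap_eq_nil_iff]
  intro x hx
  rcases mem_yv hx with rfl | ⟨j, rfl⟩ | ⟨j, rfl⟩
  all_goals rfl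

lemma bitf_two_mul (i : ℕ) : bitf 0 (2 * i) = false := by
  unfold bitf
  simp

lemma bitf_two_mul_add (i : ℕ) : bitf 0 (2 * i + 1) = true := by
  unfold bitf
  simp


lemma dirf_two_mul_add (i : ℕ) : dirf (2 * i + 1) = !bitf 0 i := by
  rw [dirf_odd (by omega)]
  unfold bitf
  simp only [pow_zero, Nat.div_one]
  rcases (by omega : i % 2 = 0 ∨ i % 2 = 1) with h | h
  · have : (2 * i + 1) % 4 = 1 := by omega
    simp [h, this]
  · have : (2 * i + 1) % 4 = 3 := by omega
    simp [h, this]

/-- The young part doubles. -/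
lemma yv_double (k : ℕ) (U : Lb d e → List (Lb d e)) (hncb : U (B ncb) = [B ncb])
    (hB : ∀ j, U (B (yb j)) = [B (ybl (dirf j) false)])
    (hC : ∀ j, U (C (yc k j)) = [C (ycl false (decide (j = 2 ^ k))), B (ybl (!bitf 0 j) true),
      C (ycl true false)]) : (yv k : List (Lb d e)).flatMap U = yv (k + 1) := by
  have hp : 0 < 2 ^ k := by positivity
  have hC' : ∀ j, U (C (yc k j)) = [C (yc (k + 1) (2 * j)), B (yb (2 * j + 1)),
      C (yc (k + 1) (2 * j + 1))] := by
    intro j
    rw [hC, yc, yc, yb, bitf_two_mul, bitf_two_mul_add, dirf_two_mul_add]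
    have e1 : decide (2 * j = 2 ^ (k + 1)) = decide (j = 2 ^ k) := by
      rw [pow_succ]
      congr 1
      apply propext
      omega
    have e2 : decide (2 * j + 1 = 2 ^ (k + 1)) = false := by
      rw [pow_succ]
      simp
      omega
    rw [e1, e2]
  have hB' : ∀ j, 0 < j → U (B (yb j)) = [B (yb (2 * j))] := by
    intro j hj
    rw [hB, yb, bitf_two_mul, dirf_two_mul hj]
  rw [yv, List.flatMap_cons, List.flatMap_cons, hncb, hC',
    seg_flatMap_two U (b' := fun j => B (yb j)) (c' := fun j => C (yc (k + 1) j))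
      (fun j h1 _ => hB' j (by omega)) (fun j _ _ => hC' j), yv]
  have e1 : 2 ^ (k + 1) - 1 = 1 + 2 * (2 ^ k - 1) := by rw [pow_succ]; omega
  have e2 : 2 * (2 ^ k + 1) = 2 ^ (k + 1) + 1 + 1 := by rw [pow_succ]; omega
  have e3 : 2 * 2 ^ k = 2 ^ (k + 1) := by rw [pow_succ, mul_comm]
  rw [e1, seg_append, e2, e3]
  rfl

/-- The first `k` stages of a growth scan. -/
lemma grow_aux (q : S) (l : Pk (Fin (d + 1)) M) {L : ℕ}
    (O : List (Fin (d + 1))) (hf : Fin (e + 1) → ℕ → Bool) (tf mf : ℕ → Bool) (Q : List (Fin (d + 1)))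
    (k : ℕ) (hk : k ≤ L) (hL : 1 ≤ L) :
    (mac (M := M) (e := e) Y).Steps (3 * k)
      (s1 .W q l false, wd L 0 O hf tf mf nof (yv 0 ++ [E]), Q)
      (if k = L then s4 .W q l false else s1 .W q l false,
        wd L k O hf tf mf nof (yv k ++ [E]), Q) := by
  have key : ∀ (k : ℕ), k < L → (mac (M := M) (e := e) Y).Steps 3
      (s1 .W q l false, wd L k O hf tf mf nof (yv k ++ [E]), Q)
      (if k + 1 = L then s4 .W q l false else s1 .W q l false,
        wd L (k + 1) O hf tf mf nof (yv (k + 1) ++ [E]), Q) := by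
    intro k hk
    have hE : (yv k ++ [E] : List (Lb d e)).filterMap ext = [] := by
      rw [List.filterMap_append, ext_yv]
      rfl
    have a1 := step_s1 (M := M) Y .W q l false hk O hf tf mf nof (yv k ++ [E]) (quiet_yv k) hE Q
    have a2 := step_s2W (M := M) Y q l (decide (k + 1 = L)) (L := L) (k := k) O hf tf mf
      (yv k ++ [E]) (quiet_yv k) hE Q
    have hind : ∀ x ∈ (yv k : List (Lb d e)), ∀ b,
        upt (s3 (S := S) (M := M) .W q l false (decide (k + 1 = L))) b x =
        upt (s3 (S := S) (M := M) .W q l false (decide (k + 1 = L))) false x := by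
      intro x hx b
      rcases mem_yv hx with rfl | ⟨j, rfl⟩ | ⟨j, rfl⟩
      · cases b <;> rfl
      · rfl
      · rfl
    have a3 := step_s3 (M := M) Y .W q l false hk O hf tf mf (yv k) (yv (k + 1))
      (by
        intro x hx
        rcases mem_yv hx with rfl | ⟨j, rfl⟩ | ⟨j, rfl⟩ <;> rfl)
      (upt (s3 (S := S) (M := M) .W q l false (decide (k + 1 = L))) false) hind
      (yv_double k _ rfl (fun j => rfl) (fun j => rfl)) (ext_yv _) Q
    exact .succ _ _ _ _ (.succ _ _ _ _ (.succ _ _ _ _ (.zero _) a1) a2) a3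
  induction k with
  | zero =>
    rw [if_neg (by omega)]
    exact .zero _
  | succ k ih =>
    have h1 := ih (by omega)
    rw [if_neg (by omega)] at h1
    have h2 := h1.trans (key k (by omega))
    rw [show 3 * (k + 1) = 3 * k + 3 by ring]
    exact h2

/-- Start of the growth. -/
lemma step_s4T (q : S) (l : Pk (Fin (d + 1)) M) {L : ℕ} (O : List (Fin (d + 1)))
    (hf : Fin (e + 1) → ℕ → Bool) (tf mf : ℕ → Bool) (Q : List (Fin (d + 1))) :
    (mac (M := M) (e := e) Y).Step (s4 .T q l true, wd L L O hf tf mf nof [E], Q)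
      (s1 .W q l false, wd L 0 O hf nof allf nof (yv 0 ++ [E]), Q) := by
  have hN : 1 ≤ 2 ^ L := Nat.one_le_two_pow
  have hon : ∀ x, (mac (M := M) (e := e) Y).on (s4 .T q l true) x = false := by
    intro x
    cases x <;> rfl
  have h := bstep Y (s4 .T q l true) rfl false
    (b := fun j => B (bn L L j)) (c := fun j => C (cl O hf tf mf nof L j))
    (b' := fun j => B (bn L 0 j))
    (c' := fun j => C (cl O hf nof allf nof 0 j))
    (R := [E]) (R' := yv 0 ++ [E]) Q hN quietE 0
    (by intro j hj; rw [hon] at hj; exact Bool.noConfusion hj)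
    (by intro j hj; rw [hon] at hj; exact Bool.noConfusion hj)
    (by rintro j ⟨hj, -⟩; rw [hon] at hj; exact Bool.noConfusion hj)
    (by simp only [hon]; simp)
    (by
      intro j _ _
      simp only [upt, upB, bn]; rw [rk_bitf])
    (by
      intro j hj
      simp only [upt, upC, cl]
      rfl)
    rfl
  have h2 := ext_wd L 0 O hf nof allf (yv 0 ++ [E])
    (by rw [List.filterMap_append, ext_yv]; rfl)
  unfold wd at h2 ⊢
  rw [h2, List.append_nil] at h
  exact h

/-- Pointers at given addresses. -/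
def hfe (D : Fin (e + 1) → ℕ) : Fin (e + 1) → ℕ → Bool := fun i => onef (D i)

/-- End of the growth. -/
lemma step_s4W (q : S) (l : Pk (Fin (d + 1)) M) {L : ℕ} (hL : 1 ≤ L) (O : List (Fin (d + 1)))
    (hO : O.length ≤ 2 ^ L) (D : Fin (e + 1) → ℕ) (hD : ∀ i, D i < 2 ^ L) (mf : ℕ → Bool)
    (Q : List (Fin (d + 1))) :
    (mac (M := M) (e := e) Y).Step
      (s4 .W q l false, wd L L O (hfe D) nof mf nof (yv L ++ [E]), Q)
      (jb q l, wd (L + 1) 0 O (hfe D) (onef (2 ^ L)) allf nof [E], Q) := by
  have hN : 1 ≤ 2 ^ L := Nat.one_le_two_pow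
  set g : Gt S d M e := s4 .W q l false with hg
  have hon : ∀ x, (mac (M := M) (e := e) Y).on g x = false := by
    intro x
    cases x <;> rfl
  have hval : ∀ i, i < 2 ^ L → (decide (i = 2 ^ L)) = false := by
    intro i hi
    simp
    omega
  have h1 := bstep Y g rfl false
    (b := fun j => B (bn L L j)) (c := fun j => C (cl O (hfe D) nof mf nof L j))
    (b' := fun j => B ⟨kdf 0 j, dirf j, bitf 0 j, false, false, false⟩)
    (c' := fun j => C (cl O (hfe D) nof allf nof 0 j))
    (R := yv L ++ [E]) (R' := (yv L ++ [E]).flatMap (upt g false)) Q hN (quiet_yv L) 0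
    (by intro j hj; rw [hon] at hj; exact Bool.noConfusion hj)
    (by intro j hj; rw [hon] at hj; exact Bool.noConfusion hj)
    (by rintro j ⟨hj, -⟩; rw [hon] at hj; exact Bool.noConfusion hj)
    (by simp only [hon]; simp)
    (by
      intro j _ _
      simp only [upt, hg, upB, bn]; rw [rk_bitf])
    (by
      intro j hj
      simp only [upt, hg, upC, cl]
      rfl)
    rfl
  -- the new word
  have hyv : (yv L ++ [E] : List (Lb d e)).flatMap (upt g false) =
      seg (fun j => B (bn (L + 1) 0 j))
        (fun j => C (cl O (hfe D) (onef (2 ^ L)) allf nof 0 j)) (2 ^ L) (2 ^ L) ++ [E] := by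
    rw [List.flatMap_append]
    congr 1
    have hcell : ∀ j, 2 ^ L ≤ j → upt g false (C (yc (d := d) (e := e) L j)) =
        [C (cl O (hfe D) (onef (2 ^ L)) allf nof 0 j)] := by
      intro j hj
      simp only [upt, hg, upC, yc, ycl, cl, hfe, onef, allf, nof]
      have e1 : O[j]? = none := List.getElem?_eq_none (by omega)
      have e2 : (fun i : Fin (e + 1) => decide (j = D i)) = fun _ => false := by
        funext i
        have := hD i
        simp
        omega
      rw [e1, e2]
    have hbd : ∀ j, 2 ^ L + 1 ≤ j → upt g false (B (yb j) : Lb d e) = [B (bn (L + 1) 0 j)] := by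
      intro j hj
      simp only [upt, hg, upB, yb, ybl, bn]
      rw [rk_bitf]
      have e2 : decide (j = 2 ^ (L + 1 - 1)) = false := by
        simp
        omega
      rw [e2]
    have hnc : upt g false (B ncb : Lb d e) = [B (bn (L + 1) 0 (2 ^ L))] := by
      simp only [upt, hg, upB, ncb, bn]
      have hodd : bitf 0 (2 ^ L) = false := by
        obtain ⟨e, rfl⟩ : ∃ e, L = e + 1 := ⟨L - 1, by omega⟩
        rw [pow_succ, mul_comm]
        exact bitf_two_mul _
      have hdir : dirf (2 ^ L) = true := by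
        have := dirf_pow_mul L (j := 1) (by norm_num)
        rw [mul_one] at this
        rw [this, dirf_odd (by norm_num)]
        rfl
      have hk : kdf 0 (2 ^ L) = 1 := by
        rw [← rk_bitf, hodd]
        rfl
      rw [hodd, hdir, hk]
      simp [rk]
    rw [yv, List.flatMap_cons, List.flatMap_cons, hnc, hcell _ le_rfl,
      seg_flatMap (upt g false) (fun j h1 _ => hbd j h1) (fun j h1 _ => hcell j (by omega))]
    obtain ⟨n, hn⟩ : ∃ n, 2 ^ L = n + 1 := ⟨2 ^ L - 1, by omega⟩
    have e : seg (fun j => B (bn (L + 1) 0 j))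
        (fun j => C (cl O (hfe D) (onef (2 ^ L)) allf nof 0 j)) (2 ^ L) (2 ^ L) =
        B (bn (L + 1) 0 (2 ^ L)) :: C (cl O (hfe D) (onef (2 ^ L)) allf nof 0 (2 ^ L)) ::
        seg (fun j => B (bn (L + 1) 0 j))
        (fun j => C (cl O (hfe D) (onef (2 ^ L)) allf nof 0 j)) (2 ^ L + 1) (2 ^ L - 1) := by
      have : seg (fun j => B (bn (L + 1) 0 j))
        (fun j => C (cl O (hfe D) (onef (2 ^ L)) allf nof 0 j)) (2 ^ L) (2 ^ L) =
        seg (fun j => B (bn (L + 1) 0 j))
        (fun j => C (cl O (hfe D) (onef (2 ^ L)) allf nof 0 j)) (2 ^ L) (2 ^ L - 1 + 1) := by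
        congr 1
        omega
      rw [this, seg]
    rw [e]
    rfl
  have hword : gw (fun j => (B ⟨kdf 0 j, dirf j, bitf 0 j, false, false, false⟩ : Lb d e))
      (fun j => C (cl O (hfe D) nof allf nof 0 j)) (2 ^ L)
      ((yv L ++ [E] : List (Lb d e)).flatMap (upt g false)) =
      wd (L + 1) 0 O (hfe D) (onef (2 ^ L)) allf nof [E] := by
    rw [hyv, wd, gw, gw]
    have e1 : 2 ^ (L + 1) - 1 = (2 ^ L - 1) + 2 ^ L := by rw [pow_succ]; omega
    rw [e1, seg_append, show 1 + (2 ^ L - 1) = 2 ^ L by omega, List.append_assoc]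
    have hc0 : ∀ j, j < 2 ^ L → (C (cl O (hfe D) nof allf nof 0 j) : Lb d e) =
        C (cl O (hfe D) (onef (2 ^ L)) allf nof 0 j) := by
      intro j hj
      simp only [cl, onef, nof]
      rw [hval j hj]
    congr 1
    · exact hc0 0 (by omega)
    · congr 1
      apply seg_congr
      · intro j h1 h2
        simp only [bn]
        have : decide (j = 2 ^ (L + 1 - 1)) = false := by
          simp
          omega
        rw [this]
      · intro j h1 h2
        exact hc0 j (by omega)
  rw [hword] at h1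
  have h2 := ext_wd (L + 1) 0 O (hfe D) (onef (2 ^ L)) allf [E] rfl
  rw [h2, List.append_nil] at h1
  exact h1

/-! ### Writing -/

lemma filterMap_seg_none {b c : ℕ → Lb d e} {i n : ℕ} (hb : ∀ j, ext (b j) = none)
    (hc : ∀ j, i ≤ j → j < i + n → ext (c j) = none) : (seg b c i n).filterMap ext = [] := by
  rw [List.filterMap_eq_nil_iff]
  intro a ha
  obtain ⟨j, h1, h2, h3 | h3⟩ := mem_seg ha
  · rw [h3]; exact hb j
  · rw [h3]; exact hc j h1 h2

lemma filterMap_gw_one {b c : ℕ → Lb d e} {N t : ℕ} {z : Fin (d + 1)} (hb : ∀ j, ext (b j) = none)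
    (hc : ∀ j, j ≠ t → ext (c j) = none) (ht : t < N) (hz : ext (c t) = some z) :
    (gw b c N [E]).filterMap ext = [z] := by
  rw [gw, List.filterMap_cons, List.filterMap_append]
  by_cases h0 : t = 0
  · subst h0
    rw [hz, filterMap_seg_none hb fun j h1 _ => hc j (by omega)]
    rfl
  · rw [hc 0 (Ne.symm h0)]
    have e : N - 1 = (t - 1) + (1 + (N - 1 - t)) := by omega
    have e2 : 1 + (t - 1) = t := by omega
    rw [e, seg_append, seg_append, e2, List.filterMap_append, List.filterMap_append,
      filterMap_seg_none hb fun j h1 h2 => hc j (by omega),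
      filterMap_seg_none (i := t + 1) hb fun j h1 h2 => hc j (by omega)]
    rw [seg, seg, List.filterMap_cons, List.filterMap_cons, hb, hz]
    rfl

/-- Write a letter. -/
lemma step_write (q : S) (z : Fin (d + 1)) (l' : List (Fin (d + 1)))
    (hl : (z :: l').length ≤ M) {L : ℕ} (O : List (Fin (d + 1)))
    (hO : O.length < 2 ^ L) (hf : Fin (e + 1) → ℕ → Bool) :
    (mac (M := M) (e := e) Y).Step
      (jb q (pk M (z :: l')), wd L 0 O hf (onef O.length) allf nof [E], O)
      (s1 .T q (pk M l') true,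
        wd L 0 (O ++ [z]) hf (onef O.length) allf (onef O.length) [E], O ++ [z]) := by
  have hN : 1 ≤ 2 ^ L := Nat.one_le_two_pow
  set g : Gt S d M e := jb q (pk M (z :: l')) with hg
  have hpk : (pk M (z :: l')).1 = z :: l' := pk_val hl
  have hon : ∀ x, (mac (M := M) (e := e) Y).on g x = false := by
    intro x
    cases x <;> rfl
  have hR : ([E] : List (Lb d e)).flatMap (upt g false) = [E] := rfl
  have h1 := bstep Y g rfl false
    (b := fun j => B (bn L 0 j)) (c := fun j => C (cl O hf (onef O.length) allf nof 0 j))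
    (b' := fun j => B (bn L 0 j))
    (c' := fun j => C (cl (O ++ [z]) hf (onef O.length) allf (onef O.length) 0 j))
    (R := [E]) (R' := [E]) O hN quietE 0
    (by intro j hj; rw [hon] at hj; exact Bool.noConfusion hj)
    (by intro j hj; rw [hon] at hj; exact Bool.noConfusion hj)
    (by rintro j ⟨hj, -⟩; rw [hon] at hj; exact Bool.noConfusion hj)
    (by simp only [hon]; simp)
    (by
      intro j _ _
      rfl)
    (by
      intro j hj
      simp only [upt, hg, upC, hpk, cl, onef, nof]
      by_cases hjt : j = O.length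
      · subst hjt
        simp
      · have e : (O ++ [z])[j]? = O[j]? := by
          rcases Nat.lt_or_ge j O.length with h | h
          · rw [List.getElem?_append_left h]
          · rw [List.getElem?_eq_none h, List.getElem?_eq_none]
            rw [List.length_append, List.length_singleton]
            omega
        rw [e]
        simp [hjt])
    hR
  have h2 : (gw (fun j => B (bn L 0 j))
      (fun j => C (cl (O ++ [z]) hf (onef O.length) allf (onef O.length) 0 j)) (2 ^ L)
      [E]).filterMap ext = [z] := by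
    apply filterMap_gw_one (t := O.length) (fun j => rfl) _ hO
    · simp [ext, cl, onef]
    · intro j hj
      simp [ext, cl, onef, hj]
  have h3 : nxt Y g false = s1 .T q (pk M l') true := by
    simp only [hg, nxt, hpk]
  rw [h2, h3] at h1
  exact h1

/-- Start to move the head. -/
lemma step_jb_nil (q : S) {L : ℕ} (O : List (Fin (d + 1)))
    (hf : Fin (e + 1) → ℕ → Bool) (tf : ℕ → Bool) :
    (mac (M := M) (e := e) Y).Step
      (jb q (pk M []), wd L 0 O hf tf allf nof [E], O)
      (s1 (.H (Fin.last e)) q (pk M []) true, wd L 0 O hf tf allf nof [E], O) := by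
  have hN : 1 ≤ 2 ^ L := Nat.one_le_two_pow
  set g : Gt S d M e := jb q (pk M []) with hg
  have hpk : (pk M ([] : List (Fin (d + 1)))).1 = [] := by simp [pk]
  have hon : ∀ x, (mac (M := M) (e := e) Y).on g x = false := by
    intro x
    cases x <;> rfl
  have h1 := bstep Y g rfl false
    (b := fun j => B (bn L 0 j)) (c := fun j => C (cl O hf tf allf nof 0 j))
    (b' := fun j => B (bn L 0 j))
    (c' := fun j => C (cl O hf tf allf nof 0 j))
    (R := [E]) (R' := [E]) O hN quietE 0
    (by intro j hj; rw [hon] at hj; exact Bool.noConfusion hj)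
    (by intro j hj; rw [hon] at hj; exact Bool.noConfusion hj)
    (by rintro j ⟨hj, -⟩; rw [hon] at hj; exact Bool.noConfusion hj)
    (by simp only [hon]; simp)
    (by
      intro j _ _
      rfl)
    (by
      intro j hj
      simp only [upt, hg, upC, hpk])
    rfl
  have h2 := ext_wd L 0 O hf tf allf [E] rfl
  have h3 : nxt Y g false = s1 (.H (Fin.last e)) q (pk M []) true := by
    simp only [hg, nxt, hpk]
  unfold wd at h2 ⊢
  rw [h2, List.append_nil, h3] at h1
  exact h1

/-- Reading. -/
lemma step_rd (q : S) (y : Fin (d + 1)) {L h : ℕ} (O : List (Fin (d + 1)))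
    (hh : h < 2 ^ L) (x : Fin (d + 1)) (hx : O[h]? = some x) (D : Fin (e + 1) → ℕ)
    (hD : D 0 = h) (tf : ℕ → Bool) :
    (mac (M := M) (e := e) Y).Step
      (rd q y, wd L 0 O (hfe D) tf allf nof [E], O)
      (if x = y then jb (Y.δ q y) (pk M (Y.out q y)) else rd q (y + 1),
        wd L 0 O (hfe D) tf allf nof [E], O) := by
  have hN : 1 ≤ 2 ^ L := Nat.one_le_two_pow
  set g : Gt S d M e := rd q y with hg
  have hon : ∀ j, (mac (M := M) (e := e) Y).on g (B (bn L 0 j)) = false := fun j => rfl
  have hon' : ∀ j, (mac (M := M) (e := e) Y).on g (C (cl O (hfe D) tf allf nof 0 j)) =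
      (decide (j = h) && decide (O[j]? = some y)) := by
    intro j
    rw [← hD]
    exact isup_ba _
  have h1 := bstep Y g rfl (decide (x = y))
    (b := fun j => B (bn L 0 j)) (c := fun j => C (cl O (hfe D) tf allf nof 0 j))
    (b' := fun j => B (bn L 0 j))
    (c' := fun j => C (cl O (hfe D) tf allf nof 0 j))
    (R := [E]) (R' := [E]) O hN quietE h
    (by intro j hj; simp only [hon] at hj; exact Bool.noConfusion hj)
    (by
      intro j hj
      simp only [hon', Bool.and_eq_true, decide_eq_true_eq] at hj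
      exact hj.1)
    (by rintro j ⟨hj, -⟩; simp only [hon] at hj; exact Bool.noConfusion hj)
    (by
      simp only [hon, hon']
      rw [decide_eq_true_eq]
      constructor
      · intro hxy
        by_cases h0 : h = 0
        · left
          rw [h0] at hx ⊢
          simp [hx, hxy]
        · right
          exact ⟨h, by omega, by omega, Or.inr (by simp [hx, hxy])⟩
      · rintro (k | ⟨j, -, -, k | k⟩)
        · simp only [Bool.and_eq_true, decide_eq_true_eq] at k
          rw [← k.1] at hx
          rw [hx] at k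
          exact Option.some.inj k.2
        · exact Bool.noConfusion k
        · simp only [Bool.and_eq_true, decide_eq_true_eq] at k
          rw [k.1, hx] at k
          exact Option.some.inj k.2)
    (by
      intro j _ _
      rfl)
    (by
      intro j hj
      rfl)
    rfl
  have h2 := ext_wd L 0 O (hfe D) tf allf [E] rfl
  have h3 : nxt Y g (decide (x = y)) =
      if x = y then jb (Y.δ q y) (pk M (Y.out q y)) else rd q (y + 1) := by
    simp only [hg, nxt, decide_eq_true_eq]
  unfold wd at h2 ⊢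
  rw [h2, List.append_nil, h3] at h1
  exact h1

end

end Pool.Agent.W_MP_5d512e_dic
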