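import Pool.Agent.W_MP_5d512e_dic.Tape

/-!
# The round system that simulates an iterated transducer on a tape
-/

set_option autoImplicit false

namespace Pool.Agent.W_MP_5d512e_dic

open Pool.Agent.W_MP_5d512e_h33
open Pool.Agent.W_MP_5d512e_h83 (Pk pk pk_val)

/-- A cell: content, parity of the address, current bit of the address, match flag, the
pointers (the head and the delay pointers; the end of the contents), young, fresh. -/
structure Cell (d e : ℕ) where
  c : Option (Fin (d + 1))
  par : Bool
  bit : Bool
  mt : Bool
  hH : Fin (e + 1) → Bool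
  hT : Bool
  yg : Bool
  fr : Bool

/-- A boundary between cells: state, direction, odd address, middle of the tape, young, next
middle. -/
structure Bnd where
  kd : Fin 3
  dir : Bool
  odd : Bool
  ctr : Bool
  yg : Bool
  nc : Bool

/-- Labels. -/
inductive Lb (d e : ℕ)
  | E
  | C (x : Cell d e)
  | B (x : Bnd)

/-- Modes of a scan: move the head or a delay pointer, move the tail, grow. -/
inductive Md (e : ℕ)
  | H (j : Fin (e + 1))
  | T
  | W
  deriving DecidableEq

/-- Control states. -/
inductive Gt (S : Type) (d M e : ℕ)
  | jb (q : S) (l : Pk (Fin (d + 1)) M)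
  | s1 (md : Md e) (q : S) (l : Pk (Fin (d + 1)) M) (κ : Bool)
  | s2 (md : Md e) (q : S) (l : Pk (Fin (d + 1)) M) (κ : Bool) (la : Bool)
  | s3 (md : Md e) (q : S) (l : Pk (Fin (d + 1)) M) (κ : Bool) (la : Bool)
  | s4 (md : Md e) (q : S) (l : Pk (Fin (d + 1)) M) (κ : Bool)
  | rd (q : S) (y : Fin (d + 1))

/-- State of a boundary at rest. -/
def rk (odd : Bool) : Fin 3 := if odd = true then 0 else 1

lemma rk_bitf (j : ℕ) : rk (bitf 0 j) = kdf 0 j := by
  unfold rk bitf kdf
  simp [Nat.mod_one]

/-- Pointer of a mode. -/
def ptr {d e : ℕ} : Md e → Cell d e → Bool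
  | .H j, x => x.hH j
  | .T, x => x.hT
  | .W, _ => false

/-- The boundary in front of the new half of the tape. -/
def ncb : Bnd := ⟨2, true, false, false, false, true⟩

/-- A young cell. -/
def ycl {d e : ℕ} (par hT : Bool) : Cell d e :=
  ⟨none, par, false, false, fun _ => false, hT, true, false⟩

/-- A young boundary. -/
def ybl (dir odd : Bool) : Bnd := ⟨2, dir, odd, false, true, false⟩

section

variable {S : Type} {d M e : ℕ}

open Gt Lb

/-- Bit as an action. -/
def ba (b : Bool) : Ac := if b = true then .up else .id

/-- Actions. -/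
def omt : Gt S d M e → Lb d e → Ac
  | s1 _ _ _ _, B x => ba (x.ctr && decide (x.kd = 0))
  | s2 md _ _ _ _, C x => ba (ptr md x && x.bit)
  | s3 _ _ _ _ _, B x => bact x.kd x.dir
  | s3 _ _ _ _ la, E => if la = true then .dn else .id
  | rd _ y, C x => ba (x.hH 0 && decide (x.c = some y))
  | _, _ => .id

/-- Control. -/
def nxt (Y : Sys S (Fin (d + 1))) : Gt S d M e → Bool → Gt S d M e
  | jb q l, _ => match l.1 with
    | [] => s1 (.H (Fin.last e)) q l true
    | _ :: t => s1 .T q (pk M t) true
  | s1 md q l κ, P => s2 md q l κ P
  | s2 md q l κ la, P => s3 md q l (κ && P) la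
  | s3 md q l κ la, _ => if la = true then s4 md q l κ else s1 md q l κ
  | s4 (.H j) q l κ, _ => if j = 0 then rd q 0
      else if κ = true then s1 (.H (j - 1)) q l true else s1 (.H (Fin.last e)) q l true
  | s4 .T q l κ, _ => if κ = true then s1 .W q l false else jb q l
  | s4 .W q l _, _ => jb q l
  | rd q y, P => if P = true then jb (Y.δ q y) (pk M (Y.out q y)) else rd q (y + 1)

/-- Images of a cell. -/
def upC (b : Bool) (x : Cell d e) : Gt S d M e → List (Lb d e)
  | jb _ l => match l.1 with
    | [] => [C x]
    | z :: _ => if x.hT = true then [C { x with c := some z, fr := true }] else [C x]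
  | s1 _ _ _ _ => [C { x with fr := false }]
  | s2 .W _ _ _ _ => [C x]
  | s2 _ _ _ κ _ => [C { x with mt := x.mt && (x.bit == (b ^^ κ)) }]
  | s3 _ _ _ _ _ => if x.yg = true
      then [C (ycl false x.hT), B (ybl (!x.par) true), C (ycl true false)]
      else [C { x with bit := (x.bit ^^ b) }]
  | s4 (.H j) _ _ _ => [C { x with hH := Function.update x.hH j x.mt, bit := x.par, mt := true }]
  | s4 .T _ _ κ => [C { x with hT := !κ && x.mt, bit := x.par, mt := true }]
  | s4 .W _ _ _ => [C { x with bit := x.par, mt := true, yg := false }]
  | rd _ _ => [C x]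

/-- Images of a boundary. -/
def upB (b : Bool) (x : Bnd) : Gt S d M e → List (Lb d e)
  | s3 _ _ _ _ _ => if x.yg = true then [B { x with odd := false }]
      else [B { x with kd := nkd x.kd b }]
  | s4 .W _ _ _ => [B ⟨rk x.odd, x.dir, x.odd, x.nc, false, false⟩]
  | s4 _ _ _ _ => [B { x with kd := rk x.odd }]
  | _ => [B x]

/-- Images of the end marker. -/
def upE : Gt S d M e → List (Lb d e)
  | s4 .T _ _ κ => if κ = true then [B ncb, C (ycl true true), E] else [E]
  | _ => [E]

/-- Images. -/
def upt (g : Gt S d M e) (b : Bool) : Lb d e → List (Lb d e)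
  | E => upE g
  | C x => upC b x g
  | B x => upB b x g

/-- Extraction. -/
def ext : Lb d e → Option (Fin (d + 1))
  | C x => if x.fr = true then x.c else none
  | _ => none

/-- Kinds. -/
def kdt : Gt S d M e → Bool
  | s3 _ _ _ _ _ => true
  | _ => false

/-- The round system. -/
def mac (Y : Sys S (Fin (d + 1))) : RS2 (Gt S d M e) (Lb d e) (Fin (d + 1)) where
  kind := kdt
  om := omt
  nx := nxt Y
  up := fun g b l => upt g b l
  ne := by
    intro g b l
    cases l with
    | E =>
      simp only [upt]
      cases g <;> simp only [upE] <;> first | simp | skip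
      rename_i md _ _ κ
      cases md <;> simp <;> split_ifs <;> simp
    | C x =>
      simp only [upt]
      cases g with
      | jb q l =>
        simp only [upC]
        split
        · simp
        · split_ifs <;> simp
      | s1 => simp [upC]
      | s2 md => cases md <;> simp [upC]
      | s3 => simp only [upC]; split_ifs <;> simp
      | s4 md => cases md <;> simp [upC]
      | rd => simp [upC]
    | B x =>
      simp only [upt]
      cases g with
      | jb q l => simp [upB]
      | s1 => simp [upB]
      | s2 md => simp [upB]
      | s3 => simp only [upB]; split_ifs <;> simp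
      | s4 md => cases md <;> simp [upB]
      | rd => simp [upB]
  ex := ext

lemma upt_len (g : Gt S d M e) (b : Bool) (l : Lb d e) : (upt g b l).length ≤ 3 := by
  cases l with
  | E =>
    simp only [upt]
    cases g with
    | s4 md _ _ κ => cases md <;> simp only [upE] <;> (try split_ifs) <;> simp
    | _ => simp [upE]
  | C x =>
    simp only [upt]
    cases g with
    | jb q l =>
      simp only [upC]
      split
      · simp
      · split_ifs <;> simp
    | s1 => simp [upC]
    | s2 md => cases md <;> simp [upC]
    | s3 => simp only [upC]; split_ifs <;> simp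
    | s4 md => cases md <;> simp [upC]
    | rd => simp [upC]
  | B x =>
    simp only [upt]
    cases g with
    | jb q l => simp [upB]
    | s1 => simp [upB]
    | s2 md => simp [upB]
    | s3 => simp only [upB]; split_ifs <;> simp
    | s4 md => cases md <;> simp [upB]
    | rd => simp [upB]

end

end Pool.Agent.W_MP_5d512e_dic
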