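import Pool.Agent.W_MP_5d512e_h83.Main

/-!
# Round systems with actions on two states and their simulation

The letters act on the states `some false`, `some true` as the identity, as `up` (from `false` to
`true`) or as `dn` (from `true` to `false`); any other use leads to the dead state `none`.
-/

set_option autoImplicit false

namespace Pool.Agent.W_MP_5d512e_dic

open Pool.Agent.W_MP_5d512e_h33
open Pool.Agent.W_MP_5d512e_h83 (Pk pk pk_val unpk unpk_ne unpk_len unpk_flat unpk_mem)

/-- Actions of the letters. -/
inductive Ac
  | id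
  | up
  | dn

/-- The action on the states. -/
def act : Ac → Option Bool → Option Bool
  | .id, q => q
  | .up, some false => some true
  | .dn, some true => some false
  | _, _ => none

@[simp] lemma act_id (q : Option Bool) : act .id q = q := rfl

@[simp] lemma act_none (x : Ac) : act x none = none := by cases x <;> rfl

/-- The inverse action. -/
def inv : Ac → Ac
  | .id => .id
  | .up => .dn
  | .dn => .up

/-- A letter is active. -/
def isup : Ac → Bool
  | .up => true
  | _ => false

/-- State as a bit. -/
def bt : Option Bool → Bool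
  | some b => b
  | none => false

/-- A round system. `kind g = false`: at most one letter acts, by `up`, and everybody learns
whether there is one. `kind g = true`: every letter learns the state at its place. -/
structure RS2 (G L A : Type) where
  kind : G → Bool
  om : G → L → Ac
  nx : G → Bool → G
  up : G → Bool → L → List L
  ne : ∀ g b l, up g b l ≠ []
  ex : L → Option A

/-- Letters of the transducer. -/
inductive Lt2 (G L : Type) (m : ℕ)
  | S
  | A1 (g : G) (j : Fin (m + 1)) (l : Pk L m)
  | A2 (g : G) (l : Pk L m) (b : Bool)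

namespace RS2

variable {G L A : Type} (X : RS2 G L A)

/-- New word in a round of kind `true`. -/
def gpass (g : G) : Option Bool → List L → List L
  | _, [] => []
  | q, l :: w => X.up g (bt q) l ++ gpass g (act (X.om g l) q) w

/-- Final state in a round of kind `true`. -/
def gfin (g : G) : Option Bool → List L → Option Bool
  | q, [] => q
  | q, l :: w => gfin g (act (X.om g l) q) w

lemma gpass_append (g : G) (q : Option Bool) (u v : List L) :
    X.gpass g q (u ++ v) = X.gpass g q u ++ X.gpass g (X.gfin g q u) v := by
  induction u generalizing q with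
  | nil => rfl
  | cons x u ih => rw [List.cons_append, gpass, ih, gpass, gfin, List.append_assoc]

lemma gfin_append (g : G) (q : Option Bool) (u v : List L) :
    X.gfin g q (u ++ v) = X.gfin g (X.gfin g q u) v := by
  induction u generalizing q with
  | nil => rfl
  | cons x u ih => rw [List.cons_append, gfin, ih, gfin]

/-- A letter is active. -/
def on (g : G) (l : L) : Bool := isup (X.om g l)

/-- Next word in a round of kind `false`. -/
def bnext (g : G) (P : Bool) (w : List L) : List L := w.flatMap (X.up g P)

/-- One round. -/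
inductive Step : G × List L × List A → G × List L × List A → Prop
  | b (g : G) (w : List L) (O : List A) (hk : X.kind g = false)
      (hdn : ∀ l ∈ w, X.om g l ≠ .dn) (hc : w.countP (X.on g) ≤ 1) :
      Step (g, w, O) (X.nx g (w.any (X.on g)), X.bnext g (w.any (X.on g)) w,
        O ++ (X.bnext g (w.any (X.on g)) w).filterMap X.ex)
  | g (g : G) (w : List L) (O : List A) (hk : X.kind g = true)
      (hf : X.gfin g (some false) w = some false) :
      Step (g, w, O) (X.nx g false, X.gpass g (some false) w,
        O ++ (X.gpass g (some false) w).filterMap X.ex)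

/-- Several rounds. -/
inductive Steps : ℕ → G × List L × List A → G × List L × List A → Prop
  | zero (s : G × List L × List A) : Steps 0 s s
  | succ (n : ℕ) (s s' s'' : G × List L × List A) : Steps n s s' → X.Step s' s'' →
      Steps (n + 1) s s''

variable {X}

lemma Steps.one {s s' : G × List L × List A} (h : X.Step s s') : X.Steps 1 s s' :=
  .succ 0 s s s' (.zero s) h

lemma Steps.trans {n m : ℕ} {s s' s'' : G × List L × List A} (h : X.Steps n s s')
    (h' : X.Steps m s' s'') : X.Steps (n + m) s s'' := by
  induction h' with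
  | zero => exact h
  | succ m s1 s2 s3 _ hs ih => exact .succ _ _ _ _ (ih h) hs

variable (X)

/-- Action of the first letter. -/
def omh (g : G) : List L → Ac
  | [] => .id
  | x :: _ => X.om g x

/-- Image of the first letter. -/
def uph (g : G) (b : Bool) : List L → List L
  | [] => []
  | x :: _ => X.up g b x

/-- Actions of the letters of the transducer. -/
def ac {m : ℕ} : Lt2 G L m → Ac
  | .S => .id
  | .A1 g j l => if j = 0 then X.omh g l.1 else .id
  | .A2 g l _ => inv (X.omh g l.1)

/-- Outputs of the transducer. -/
def ot {m : ℕ} (g0 : G) (ini : List L) (q : Option Bool) : Lt2 G L m → List (Lt2 G L m)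
  | .S => [.S, .A1 g0 (Fin.last m) (pk m ini)]
  | .A1 g j l => if j = 0 then (if X.kind g = true
      then [.A1 (X.nx g false) (Fin.last m) (pk m (X.uph g (bt q) l.1))]
      else [.A2 g l (bt q)]) else (unpk l).map (.A1 g (j - 1))
  | .A2 g l b => [.A1 (X.nx g (b || bt q)) (Fin.last m) (pk m (X.uph g (b || bt q) l.1))]

/-- Extraction. -/
def psi {m : ℕ} (a : A) : Lt2 G L m → Option A
  | .S => some a
  | .A1 _ j l => if j = 0 then (match l.1 with
      | [] => none
      | x :: _ => X.ex x) else none
  | .A2 _ _ _ => none

/-- The transducer. -/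
def sys (m : ℕ) (g0 : G) (ini : List L) : Sys (Option Bool) (Lt2 G L m) where
  δ := fun q x => act (X.ac x) q
  out := X.ot g0 ini
  q0 := some false
  a := .S
  u := [.A1 g0 (Fin.last m) (pk m ini)]
  hne := by
    intro s x
    cases x with
    | S => simp [ot]
    | A1 g j l => simp only [ot]; split_ifs <;> simp [unpk_ne]
    | A2 g l b => simp [ot]
  ha := rfl
  hu := by simp

lemma ot_len {m : ℕ} (g0 : G) (ini : List L) (s : Option Bool) (x : Lt2 G L m) :
    (X.ot g0 ini s x).length ≤ 2 := by
  cases x with
  | S => simp [ot]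
  | A1 g j l =>
    simp only [ot]
    split_ifs
    · simp
    · simp
    · simpa using unpk_len l
  | A2 g l b => simp [ot]

variable {m : ℕ} (g0 : G) (ini : List L)

/-- The letters of a word at the beginning of a round. -/
def emb (m : ℕ) (g : G) (w : List L) : List (Lt2 G L m) := w.map (fun x => .A1 g 0 (pk m [x]))

lemma emb_psi (hm : 1 ≤ m) (a : A) (g : G) (w : List L) :
    (emb m g w).filterMap (X.psi a) = w.filterMap X.ex := by
  induction w with
  | nil => rfl
  | cons x w ih =>
    have h : X.psi a (.A1 g 0 (pk m [x]) : Lt2 G L m) = X.ex x := by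
      simp only [psi, if_true]
      rw [pk_val (by simpa using hm)]
    have e : emb m g (x :: w) = .A1 g 0 (pk m [x]) :: emb m g w := rfl
    rw [e, List.filterMap_cons, List.filterMap_cons, h, ih]

/-- The word between the two sweeps of a round. -/
def mid (m : ℕ) (g : G) (b : Bool) (w : List L) : List (Lt2 G L m) :=
  w.map (fun x => .A2 g (pk m [x]) b)

lemma mid_psi (a : A) (g : G) (b : Bool) (w : List L) :
    (mid m g b w).filterMap (X.psi a) = [] := by
  rw [List.filterMap_eq_nil_iff]
  intro x hx
  obtain ⟨y, _, rfl⟩ := List.mem_map.1 hx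
  rfl

/-- Images as packs. -/
def bpk (m : ℕ) (g : G) (b : Bool) (w : List L) : List (Pk L m) :=
  w.map (fun x => pk m (X.up g b x))

lemma run1 (hm : 1 ≤ m) (g : G) (hk : X.kind g = false) (b : Bool) (w : List L)
    (hw : ∀ l ∈ w, X.om g l = .id) :
    run (X.sys m g0 ini).δ (X.sys m g0 ini).out (some b) (emb m g w) =
      (some b, mid m g b w) := by
  induction w with
  | nil => rfl
  | cons x w ih =>
    have e : emb m g (x :: w) = .A1 g 0 (pk m [x]) :: emb m g w := rfl
    have h1 : (X.sys m g0 ini).δ (some b) (.A1 g 0 (pk m [x])) = some b := by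
      simp only [sys, ac, if_true]
      rw [pk_val (by simpa using hm)]
      simp only [omh]
      rw [hw x List.mem_cons_self]
      rfl
    have h2 : (X.sys m g0 ini).out (some b) (.A1 g 0 (pk m [x])) = [.A2 g (pk m [x]) b] := by
      simp only [sys, ot, if_true, hk]
      rfl
    rw [e, run_cons, h1, h2, ih fun l hl => hw l (List.mem_cons_of_mem _ hl)]
    rfl

lemma run2 (hm : 1 ≤ m) (g : G) (b c : Bool) (w : List L)
    (hw : ∀ l ∈ w, X.om g l = .id) :
    run (X.sys m g0 ini).δ (X.sys m g0 ini).out (some c) (mid m g b w) =
      (some c, (X.bpk m g (b || c) w).map (.A1 (X.nx g (b || c)) (Fin.last m))) := by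
  induction w with
  | nil => rfl
  | cons x w ih =>
    have hx : (pk m [x]).1 = [x] := pk_val (by simpa using hm)
    have e : mid m g b (x :: w) = .A2 g (pk m [x]) b :: mid m g b w := rfl
    have h1 : (X.sys m g0 ini).δ (some c) (.A2 g (pk m [x]) b) = some c := by
      simp only [sys, ac]
      rw [hx]
      simp only [omh]
      rw [hw x List.mem_cons_self]
      rfl
    have h2 : (X.sys m g0 ini).out (some c) (.A2 g (pk m [x]) b) =
        [.A1 (X.nx g (b || c)) (Fin.last m) (pk m (X.up g (b || c) x))] := by
      simp only [sys, ot]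
      rw [hx]
      rfl
    rw [e, run_cons, h1, h2, ih fun l hl => hw l (List.mem_cons_of_mem _ hl)]
    rfl

lemma run3 (g : G) (j : Fin (m + 1)) (hj : j ≠ 0) (W : List (Pk L m)) :
    run (X.sys m g0 ini).δ (X.sys m g0 ini).out (some false) (W.map (.A1 g j)) =
      (some false, (W.flatMap unpk).map (.A1 g (j - 1))) := by
  induction W with
  | nil => simp
  | cons x W ih =>
    have h1 : (X.sys m g0 ini).δ (some false) (.A1 g j x) = some false := by
      simp [sys, ac, hj]
    have h2 : (X.sys m g0 ini).out (some false) (.A1 g j x) = (unpk x).map (.A1 g (j - 1)) := by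
      simp [sys, ot, hj]
    rw [List.map_cons, run_cons, h1, h2, ih, List.flatMap_cons, List.map_append]

/-- The packs after a round of kind `true`. -/
def gpk (m : ℕ) (g : G) : Option Bool → List L → List (Pk L m)
  | _, [] => []
  | q, x :: w => pk m (X.up g (bt q) x) :: gpk m g (act (X.om g x) q) w

lemma run4 (hm : 1 ≤ m) (g : G) (hk : X.kind g = true) (q : Option Bool) (w : List L) :
    run (X.sys m g0 ini).δ (X.sys m g0 ini).out q (emb m g w) =
      (X.gfin g q w, (X.gpk m g q w).map (.A1 (X.nx g false) (Fin.last m))) := by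
  induction w generalizing q with
  | nil => rfl
  | cons x w ih =>
    have e : emb m g (x :: w) = .A1 g 0 (pk m [x]) :: emb m g w := rfl
    have hx : (pk m [x]).1 = [x] := pk_val (by simpa using hm)
    have h1 : (X.sys m g0 ini).δ q (.A1 g 0 (pk m [x])) = act (X.om g x) q := by
      simp only [sys, ac, if_true]
      rw [hx]
      rfl
    have h2 : (X.sys m g0 ini).out q (.A1 g 0 (pk m [x])) =
        [.A1 (X.nx g false) (Fin.last m) (pk m (X.up g (bt q) x))] := by
      simp only [sys, ot, if_true, hk]
      rw [hx]
      rfl
    rw [e, run_cons, h1, h2, ih, gfin, gpk]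
    rfl

lemma gpk_flat (hup : ∀ g b l, (X.up g b l).length ≤ m) (g : G) (q : Option Bool)
    (w : List L) : (X.gpk m g q w).flatMap (fun p => p.1) = X.gpass g q w := by
  induction w generalizing q with
  | nil => rfl
  | cons x w ih => rw [gpk, List.flatMap_cons, ih, pk_val (hup _ _ _), gpass]

lemma gpk_mem (hup : ∀ g b l, (X.up g b l).length ≤ m) (g : G) (q : Option Bool)
    (w : List L) : ∀ p ∈ X.gpk m g q w, p.1 ≠ [] := by
  induction w generalizing q with
  | nil => simp [gpk]
  | cons x w ih =>
    intro p hp
    rw [gpk, List.mem_cons] at hp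
    rcases hp with rfl | hp
    · rw [pk_val (hup _ _ _)]
      exact X.ne _ _ _
    · exact ih _ p hp

lemma bpk_flat (hup : ∀ g b l, (X.up g b l).length ≤ m) (g : G) (b : Bool)
    (w : List L) : (X.bpk m g b w).flatMap (fun p => p.1) = X.bnext g b w := by
  induction w with
  | nil => rfl
  | cons x w ih =>
    have e : X.bpk m g b (x :: w) = pk m (X.up g b x) :: X.bpk m g b w := rfl
    rw [e, List.flatMap_cons, ih, pk_val (hup _ _ _), bnext, bnext, List.flatMap_cons]

lemma bpk_mem (hup : ∀ g b l, (X.up g b l).length ≤ m) (g : G) (b : Bool)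
    (w : List L) : ∀ p ∈ X.bpk m g b w, p.1 ≠ [] := by
  intro p hp
  obtain ⟨x, _, rfl⟩ := List.mem_map.1 hp
  rw [pk_val (hup _ _ _)]
  exact X.ne _ _ _

lemma psi_map_ne (a : A) (g : G) (j : Fin (m + 1)) (hj : j ≠ 0) (W : List (Pk L m)) :
    (W.map (Lt2.A1 g j : Pk L m → Lt2 G L m)).filterMap (X.psi a) = [] := by
  rw [List.filterMap_eq_nil_iff]
  intro x hx
  obtain ⟨y, _, rfl⟩ := List.mem_map.1 hx
  simp only [psi, if_neg hj]

lemma sing_of {m : ℕ} (g : G) (W : List (Pk L m)) (h : ∀ p ∈ W, p.1 ≠ [] ∧ p.1.length ≤ 1) :
    W.map (Lt2.A1 g 0 : Pk L m → Lt2 G L m) = emb m g (W.flatMap (fun p => p.1)) := by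
  induction W with
  | nil => rfl
  | cons x W ih =>
    have ih' := ih fun p hp => h p (List.mem_cons_of_mem _ hp)
    obtain ⟨h1, h2⟩ := h x List.mem_cons_self
    obtain ⟨y, hy⟩ : ∃ y, x.1 = [y] := by
      obtain ⟨l, hl⟩ := x
      cases l with
      | nil => exact absurd rfl h1
      | cons y l =>
        cases l with
        | nil => exact ⟨y, rfl⟩
        | cons z l => simp at h2
    have hx : x = pk m [y] := by
      apply Subtype.ext
      rw [hy, pk_val]
      have := x.2
      rw [hy] at this
      exact this
    rw [List.map_cons, ih', List.flatMap_cons, hy, hx]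
    rfl

lemma flat_length_le {m : ℕ} (W : List (Pk L m)) (h : ∀ p ∈ W, p.1 ≠ []) :
    W.length ≤ (W.flatMap (fun p => p.1)).length := by
  induction W with
  | nil => simp
  | cons x W ih =>
    rw [List.flatMap_cons, List.length_append, List.length_cons]
    have := ih fun p hp => h p (List.mem_cons_of_mem _ hp)
    have := List.length_pos_iff.2 (h x List.mem_cons_self)
    omega

lemma flatMap_unpk {m : ℕ} (W : List (Pk L m)) :
    (W.flatMap unpk).flatMap (fun p => p.1) = W.flatMap (fun p => p.1) := by
  induction W with
  | nil => simp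
  | cons x W ih => rw [List.flatMap_cons, List.flatMap_append, ih, unpk_flat, List.flatMap_cons]

/-- The unpacking sweeps. -/
lemma unpack (a : A) (g : G) (j : ℕ) (hj : j ≤ m) (W : List (Pk L m))
    (hW : ∀ p ∈ W, p.1 ≠ [] ∧ p.1.length ≤ j + 1) (T : List (Lt2 G L m)) :
    ∃ t V, t ≤ j * (W.flatMap (fun p => p.1)).length ∧
      (qstep (X.sys m g0 ini).δ (X.sys m g0 ini).out)^[t]
        (some false, W.map (.A1 g ⟨j, by omega⟩), T) =
          (some false, emb m g (W.flatMap (fun p => p.1)), T ++ V) ∧
      V.filterMap (X.psi a) = if j = 0 then [] else (emb m g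
        (W.flatMap (fun p => p.1))).filterMap (X.psi a) := by
  induction j generalizing W T with
  | zero =>
    refine ⟨0, [], by simp, ?_, by simp⟩
    rw [← sing_of g W (by simpa using hW)]
    simp
  | succ j ih =>
    have hne : (⟨j + 1, by omega⟩ : Fin (m + 1)) ≠ 0 := by
      intro h
      have := congrArg Fin.val h
      simp at this
    have hsub : (⟨j + 1, by omega⟩ : Fin (m + 1)) - 1 = ⟨j, by omega⟩ := by
      apply Fin.ext
      rw [Fin.val_sub_one_of_ne_zero hne]
      rfl
    have h := read_block (X.sys m g0 ini).δ (X.sys m g0 ini).out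
      (W.map (.A1 g (⟨j + 1, by omega⟩ : Fin (m + 1)))) (some false) [] T
    rw [List.append_nil, run3 X g0 ini g _ hne W, hsub, List.length_map] at h
    have hW2 : ∀ p ∈ W.flatMap unpk, p.1 ≠ [] ∧ p.1.length ≤ j + 1 := by
      intro p hp
      obtain ⟨l, hl, hpl⟩ := List.mem_flatMap.1 hp
      exact unpk_mem l (hW l hl).1 (hW l hl).2 p hpl
    obtain ⟨t, V, h1, h2, h3⟩ := ih (by omega) (W.flatMap unpk) hW2
      (T ++ (W.flatMap unpk).map (.A1 g ⟨j, by omega⟩))
    rw [flatMap_unpk] at h1 h2 h3
    refine ⟨t + W.length, (W.flatMap unpk).map (.A1 g ⟨j, by omega⟩) ++ V, ?_, ?_, ?_⟩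
    · have := flat_length_le W fun p hp => (hW p hp).1
      rw [Nat.succ_mul]
      omega
    · rw [Function.iterate_add_apply, h]
      simp only [List.nil_append]
      rw [h2, List.append_assoc]
    · rw [List.filterMap_append, h3, if_neg (Nat.succ_ne_zero j)]
      by_cases hj0 : j = 0
      · subst hj0
        rw [if_pos rfl, List.append_nil, ← flatMap_unpk, ← sing_of g _ (by simpa using hW2)]
        rfl
      · rw [if_neg hj0]
        have hne' : (⟨j, by omega⟩ : Fin (m + 1)) ≠ 0 := by
          intro h
          exact hj0 (congrArg Fin.val h)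
        rw [psi_map_ne X a g _ hne', List.nil_append]

/-- Decomposition of a word with one active letter. -/
lemma split_one (g : G) (w : List L) (hdn : ∀ l ∈ w, X.om g l ≠ .dn)
    (hc : w.countP (X.on g) ≤ 1) (ha : w.any (X.on g) = true) :
    ∃ u x v, w = u ++ x :: v ∧ X.om g x = .up ∧ (∀ l ∈ u, X.om g l = .id) ∧
      (∀ l ∈ v, X.om g l = .id) := by
  have hid : ∀ l, X.on g l = false → X.om g l ≠ .dn → X.om g l = .id := by
    intro l h1 h2
    unfold on at h1
    cases h : X.om g l with
    | id => rfl
    | up => rw [h] at h1; simp [isup] at h1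
    | dn => exact absurd h h2
  induction w with
  | nil => simp at ha
  | cons y w ih =>
    by_cases hy : X.on g y = true
    · refine ⟨[], y, w, rfl, ?_, by simp, ?_⟩
      · unfold on at hy
        cases h : X.om g y with
        | id => rw [h] at hy; simp [isup] at hy
        | up => rfl
        | dn => rw [h] at hy; simp [isup] at hy
      · intro l hl
        rw [List.countP_cons_of_pos hy] at hc
        have h0 : w.countP (X.on g) = 0 := by omega
        rw [List.countP_eq_zero] at h0
        exact hid l (by simpa using h0 l hl) (hdn l (List.mem_cons_of_mem _ hl))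
    · have hy' : X.on g y = false := by simpa using hy
      rw [List.countP_cons_of_neg hy] at hc
      rw [List.any_cons, hy', Bool.false_or] at ha
      obtain ⟨u, x, v, h1, h2, h3, h4⟩ := ih (fun l hl => hdn l (List.mem_cons_of_mem _ hl)) hc ha
      refine ⟨y :: u, x, v, by rw [h1]; rfl, h2, ?_, h4⟩
      intro l hl
      rcases List.mem_cons.1 hl with rfl | hl
      · exact hid l hy' (hdn l List.mem_cons_self)
      · exact h3 l hl

/-- The two sweeps of a round of kind `false`. -/
lemma sweeps (hm : 1 ≤ m) (g : G) (hk : X.kind g = false) (w : List L)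
    (hdn : ∀ l ∈ w, X.om g l ≠ .dn) (hc : w.countP (X.on g) ≤ 1) :
    ∃ V, V.length = w.length ∧ (∀ a, V.filterMap (X.psi a) = []) ∧
      run (X.sys m g0 ini).δ (X.sys m g0 ini).out (some false) (emb m g w) =
        (some (w.any (X.on g)), V) ∧
      run (X.sys m g0 ini).δ (X.sys m g0 ini).out (some (w.any (X.on g))) V =
        (some false, (X.bpk m g (w.any (X.on g)) w).map
          (.A1 (X.nx g (w.any (X.on g))) (Fin.last m))) := by
  cases ha : w.any (X.on g) with
  | false =>
    have hid : ∀ l ∈ w, X.om g l = .id := by
      intro l hl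
      have h1 : X.on g l = false := by
        by_contra hcon
        have : w.any (X.on g) = true := List.any_eq_true.2 ⟨l, hl, by simpa using hcon⟩
        rw [this] at ha
        exact Bool.noConfusion ha
      have h2 := hdn l hl
      unfold on at h1
      cases h : X.om g l with
      | id => rfl
      | up => rw [h] at h1; simp [isup] at h1
      | dn => exact absurd h h2
    refine ⟨mid m g false w, by simp [mid], fun a => mid_psi X a g false w,
      run1 X g0 ini hm g hk false w hid, ?_⟩
    exact run2 X g0 ini hm g false false w hid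
  | true =>
    obtain ⟨u, x, v, rfl, hx, hu, hv⟩ := split_one X g w hdn hc ha
    have hpx : (pk m [x]).1 = [x] := pk_val (by simpa using hm)
    refine ⟨mid m g false u ++ .A2 g (pk m [x]) false :: mid m g true v, by simp [mid], ?_, ?_, ?_⟩
    · intro a
      rw [List.filterMap_append, mid_psi, List.filterMap_cons, mid_psi]
      rfl
    · have e : emb m g (u ++ x :: v) = emb m g u ++ .A1 g 0 (pk m [x]) :: emb m g v := by
        simp [emb]
      have h1 : (X.sys m g0 ini).δ (some false) (.A1 g 0 (pk m [x])) = some true := by
        simp only [sys, ac, if_true]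
        rw [hpx]
        simp only [omh]
        rw [hx]
        rfl
      have h2 : (X.sys m g0 ini).out (some false) (.A1 g 0 (pk m [x])) =
          [.A2 g (pk m [x]) false] := by
        simp only [sys, ot, if_true, hk]
        rfl
      rw [e, run_append, run1 X g0 ini hm g hk false u hu, run_cons, h1, h2,
        run1 X g0 ini hm g hk true v hv]
      rfl
    · have h1 : (X.sys m g0 ini).δ (some true) (.A2 g (pk m [x]) false) = some false := by
        simp only [sys, ac]
        rw [hpx]
        simp only [omh]
        rw [hx]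
        rfl
      have h2 : (X.sys m g0 ini).out (some true) (.A2 g (pk m [x]) false) =
          [.A1 (X.nx g true) (Fin.last m) (pk m (X.up g true x))] := by
        simp only [sys, ot]
        rw [hpx]
        rfl
      rw [run_append, run2 X g0 ini hm g false true u hu, run_cons, h1, h2,
        run2 X g0 ini hm g true false v hv]
      simp [bpk]

/-- One round of the transducer. -/
lemma round (hm : 1 ≤ m) (hup : ∀ g b l, (X.up g b l).length ≤ m) (a : A)
    {s s' : G × List L × List A} (h : X.Step s s') (T : List (Lt2 G L m)) :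
    ∃ t V, t ≤ (m + 2) * s'.2.1.length ∧ s.2.1.length ≤ t ∧ s.2.1.length ≤ s'.2.1.length ∧
      (qstep (X.sys m g0 ini).δ (X.sys m g0 ini).out)^[t] (some false, emb m s.1 s.2.1, T) =
        (some false, emb m s'.1 s'.2.1, T ++ V) ∧
      s'.2.2 = s.2.2 ++ V.filterMap (X.psi a) := by
  have hm0 : m ≠ 0 := by omega
  have hl0 : (Fin.last m) ≠ 0 := by
    intro h
    exact hm0 (congrArg Fin.val h)
  cases h with
  | b g w O hk hdn hc =>
    simp only
    obtain ⟨V0, v1, v2, v3, v4⟩ := sweeps X g0 ini hm g hk w hdn hc
    generalize w.any (X.on g) = P at *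
    have h1 := read_block (X.sys m g0 ini).δ (X.sys m g0 ini).out (emb m g w) (some false) [] T
    have hlen1 : (emb m g w).length = w.length := by simp [emb]
    rw [List.append_nil, v3, hlen1] at h1
    have h2 := read_block (X.sys m g0 ini).δ (X.sys m g0 ini).out V0 (some P) [] (T ++ V0)
    rw [List.append_nil, v4, v1] at h2
    have hfl : (X.bpk m g P w).flatMap (fun p => p.1) = X.bnext g P w := bpk_flat X hup g P w
    obtain ⟨t, V, h3, h4, h5⟩ := unpack X g0 ini a (X.nx g P) m le_rfl (X.bpk m g P w)
      (fun p hp => ⟨bpk_mem X hup g P w p hp, p.2.trans (by omega)⟩)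
      (T ++ V0 ++ (X.bpk m g P w).map (.A1 (X.nx g P) (Fin.last m)))
    rw [hfl] at h3 h4 h5
    have hlb : w.length ≤ (X.bnext g P w).length := by
      have := flat_length_le (X.bpk m g P w) (bpk_mem X hup g P w)
      rw [hfl] at this
      simpa [bpk] using this
    refine ⟨t + (w.length + w.length), V0 ++
      ((X.bpk m g P w).map (.A1 (X.nx g P) (Fin.last m)) ++ V), ?_, by omega, hlb, ?_, ?_⟩
    · have e : (m + 2) * (X.bnext g P w).length =
          m * (X.bnext g P w).length + 2 * (X.bnext g P w).length := by ring
      rw [e]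
      omega
    · rw [Function.iterate_add_apply, Function.iterate_add_apply, h1]
      simp only [List.nil_append] at h2 ⊢
      rw [h2]
      simp only [List.append_assoc] at h4 ⊢
      exact h4
    · rw [List.filterMap_append, List.filterMap_append, v2, psi_map_ne X a _ _ hl0, h5,
        if_neg hm0, emb_psi X hm]
      rfl
  | g g w O hk hf =>
    simp only
    have h1 := read_block (X.sys m g0 ini).δ (X.sys m g0 ini).out (emb m g w) (some false) [] T
    have hlen1 : (emb m g w).length = w.length := by simp [emb]
    rw [List.append_nil, run4 X g0 ini hm g hk, hlen1, hf] at h1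
    have hfl : (X.gpk m g (some false) w).flatMap (fun p => p.1) = X.gpass g (some false) w :=
      gpk_flat X hup g _ w
    obtain ⟨t, V, h3, h4, h5⟩ := unpack X g0 ini a (X.nx g false) m le_rfl
      (X.gpk m g (some false) w)
      (fun p hp => ⟨gpk_mem X hup g _ w p hp, p.2.trans (by omega)⟩)
      (T ++ (X.gpk m g (some false) w).map (.A1 (X.nx g false) (Fin.last m)))
    rw [hfl] at h3 h4 h5
    have hlg : ∀ q (w : List L), (X.gpk m g q w).length = w.length := by
      intro q w
      induction w generalizing q with
      | nil => rfl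
      | cons x w ih => rw [gpk, List.length_cons, ih, List.length_cons]
    have hlb : w.length ≤ (X.gpass g (some false) w).length := by
      have := flat_length_le (X.gpk m g (some false) w) (gpk_mem X hup g _ w)
      rw [hfl, hlg] at this
      exact this
    refine ⟨t + w.length,
      (X.gpk m g (some false) w).map (.A1 (X.nx g false) (Fin.last m)) ++ V, ?_, by omega,
      hlb, ?_, ?_⟩
    · have e : (m + 2) * (X.gpass g (some false) w).length =
          m * (X.gpass g (some false) w).length + 2 * (X.gpass g (some false) w).length := by ring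
      rw [e]
      omega
    · rw [Function.iterate_add_apply, h1]
      simp only [List.nil_append]
      simp only [List.append_assoc] at h4 ⊢
      exact h4
    · rw [List.filterMap_append, psi_map_ne X a _ _ hl0, h5, if_neg hm0, emb_psi X hm]
      rfl

/-- Several rounds of the transducer. -/
lemma rounds (hm : 1 ≤ m) (hup : ∀ g b l, (X.up g b l).length ≤ m) (a : A) {n : ℕ}
    {s s' : G × List L × List A} (h : X.Steps n s s') (hs : s.2.1 ≠ [])
    (T : List (Lt2 G L m)) :
    ∃ t V, t ≤ n * ((m + 2) * s'.2.1.length) ∧ n ≤ t ∧ s.2.1.length ≤ s'.2.1.length ∧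
      (qstep (X.sys m g0 ini).δ (X.sys m g0 ini).out)^[t] (some false, emb m s.1 s.2.1, T) =
        (some false, emb m s'.1 s'.2.1, T ++ V) ∧
      s'.2.2 = s.2.2 ++ V.filterMap (X.psi a) := by
  induction h with
  | zero s => exact ⟨0, [], by simp, le_rfl, le_rfl, by simp, by simp⟩
  | succ n s s' s'' _ hst ih =>
    obtain ⟨t, V, h1, h2, h3, h4, h5⟩ := ih hs
    obtain ⟨t', V', k1, k2, k3, k4, k5⟩ := round X g0 ini hm hup a hst (T ++ V)
    have hpos := List.length_pos_iff.2 hs
    refine ⟨t' + t, V ++ V', ?_, by omega, by omega, ?_, ?_⟩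
    · rw [Nat.succ_mul]
      have : n * ((m + 2) * s'.2.1.length) ≤ n * ((m + 2) * s''.2.1.length) :=
        Nat.mul_le_mul_left _ (Nat.mul_le_mul_left _ k3)
      omega
    · rw [Function.iterate_add_apply, h4, k4, List.append_assoc]
    · rw [k5, h5, List.filterMap_append, List.append_assoc]

end RS2

instance {m : ℕ} {G L : Type} [Finite G] [Finite L] : Finite (Lt2 G L m) := by
  have : Finite (Pk L m) := List.finite_length_le L m
  let f : Lt2 G L m → Unit ⊕ (G × Fin (m + 1) × Pk L m) ⊕ (G × Pk L m × Bool) := fun x =>
    match x with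
    | .S => Sum.inl ()
    | .A1 g j l => Sum.inr (Sum.inl (g, j, l))
    | .A2 g l b => Sum.inr (Sum.inr (g, l, b))
  apply Finite.of_injective f
  intro x y h
  cases x <;> cases y <;> simp_all [f]

end Pool.Agent.W_MP_5d512e_dic
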