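import Pool.Agent.W_MP_5d512e_dic.Machine

/-!
# Scans of the tape
-/

set_option autoImplicit false

namespace Pool.Agent.W_MP_5d512e_dic

open Pool.Agent.W_MP_5d512e_h33
open Pool.Agent.W_MP_5d512e_h83 (Pk pk pk_val)

open Gt Lb

/-! ### Words -/

/-- A cell, `N-1` boundaries and cells, and a rest. -/
def gw {L : Type} (b c : ℕ → L) (N : ℕ) (R : List L) : List L := c 0 :: (seg b c 1 (N - 1) ++ R)

section

variable {L : Type} {b c b' c' : ℕ → L} {N : ℕ} {R R' : List L}

lemma length_gw (hN : 1 ≤ N) : (gw b c N R).length = 2 * N - 1 + R.length := by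
  rw [gw, List.length_cons, List.length_append, length_seg]
  omega

lemma flatMap_gw (U : L → List L) (hb : ∀ j, 1 ≤ j → j < N → U (b j) = [b' j])
    (hc : ∀ j, j < N → U (c j) = [c' j]) (hN : 1 ≤ N) (hR : R.flatMap U = R') :
    (gw b c N R).flatMap U = gw b' c' N R' := by
  rw [gw, List.flatMap_cons, hc 0 (by omega), List.flatMap_append,
    seg_flatMap U (b' := b') (c' := c') (fun j h1 h2 => hb j h1 (by omega))
      (fun j h1 h2 => hc j (by omega)), hR]
  rfl

lemma countP_gw (f : L → Bool) (p : ℕ) (hb : ∀ j, f (b j) = true → j = p)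
    (hc : ∀ j, f (c j) = true → j = p) (hbc : ∀ j, ¬ (f (b j) = true ∧ f (c j) = true))
    (hR : R.countP f = 0) : (gw b c N R).countP f ≤ 1 := by
  have h := countP_seg f b c p 1 (N - 1) hb hc hbc
  rw [gw, List.countP_cons, List.countP_append, hR]
  by_cases h0 : f (c 0) = true
  · have := hc 0 h0
    subst this
    rw [if_neg (by omega)] at h
    rw [if_pos h0]
    omega
  · rw [if_neg h0]
    split_ifs at h <;> omega

lemma any_gw (f : L → Bool) (β : Bool) (hR : R.any f = false)
    (h : β = true ↔ (f (c 0) = true ∨ ∃ j, 1 ≤ j ∧ j < 1 + (N - 1) ∧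
      (f (b j) = true ∨ f (c j) = true))) : (gw b c N R).any f = β := by
  rw [Bool.eq_iff_iff, h, gw, List.any_cons, List.any_append, hR, Bool.or_false,
    Bool.or_eq_true, any_seg]

end

section

variable {S : Type} {d M e : ℕ}

/-- The cells. -/
def cl (O : List (Fin (d + 1))) (hf : Fin (e + 1) → ℕ → Bool) (tf mf ff : ℕ → Bool) (k j : ℕ) : Cell d e :=
  ⟨O[j]?, bitf 0 j, bitf k j, mf j, fun i => hf i j, tf j, false, ff j⟩

/-- The boundaries. -/
def bn (L k j : ℕ) : Bnd := ⟨kdf k j, dirf j, bitf 0 j, decide (j = 2 ^ (L - 1)), false, false⟩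

/-- The words. -/
def wd (L k : ℕ) (O : List (Fin (d + 1))) (hf : Fin (e + 1) → ℕ → Bool) (tf mf ff : ℕ → Bool) (R : List (Lb d e)) :
    List (Lb d e) :=
  gw (fun j => B (bn L k j)) (fun j => C (cl O hf tf mf ff k j)) (2 ^ L) R

/-- No cell. -/
def nof : ℕ → Bool := fun _ => false

/-- All cells. -/
def allf : ℕ → Bool := fun _ => true

/-- The cell `p`. -/
def onef (p : ℕ) : ℕ → Bool := fun j => decide (j = p)

lemma isup_ba (b : Bool) : isup (ba b) = b := by cases b <;> rfl

lemma ba_ne_dn (b : Bool) : ba b ≠ .dn := by cases b <;> simp [ba]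

lemma ba_false : ba false = .id := rfl

/-- Letters of the rest: old end marker or young letters. -/
def quiet : Lb d e → Prop
  | E => True
  | C x => x.yg = true ∧ x.bit = false ∧ x.hH 0 = false ∧ x.fr = false
  | B x => x.kd = 2

lemma omt_ne_dn (g : Gt S d M e) (hk : kdt g = false) (l : Lb d e) : omt g l ≠ .dn := by
  cases g <;> cases l <;> simp only [omt, kdt] at hk ⊢ <;>
    first | exact ba_ne_dn _ | (intro h; cases h) | cases hk

lemma quiet_on (Y : Sys S (Fin (d + 1))) (g : Gt S d M e) (hk : kdt g = false) (l : Lb d e)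
    (hl : quiet l) : (mac (M := M) (e := e) Y).on g l = false := by
  have h : omt g l = .id := by
    cases g <;> cases l <;> simp only [omt, kdt, quiet] at hk hl ⊢
    all_goals first
      | (cases hk; done)
      | (rw [hl]; simp [ba]; done)
      | (rw [hl.2.1]; simp [ba]; done)
      | (rw [hl.2.2.1]; simp [ba]; done)
  unfold RS2.on mac
  simp only
  rw [h]
  rfl

lemma quiet_countP (Y : Sys S (Fin (d + 1))) (g : Gt S d M e) (hk : kdt g = false)
    (R : List (Lb d e)) (hR : ∀ l ∈ R, quiet l) :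
    R.countP ((mac (M := M) (e := e) Y).on g) = 0 := by
  rw [List.countP_eq_zero]
  intro l hl
  rw [quiet_on Y g hk l (hR l hl)]
  simp

lemma quiet_any (Y : Sys S (Fin (d + 1))) (g : Gt S d M e) (hk : kdt g = false)
    (R : List (Lb d e)) (hR : ∀ l ∈ R, quiet l) :
    R.any ((mac (M := M) (e := e) Y).on g) = false := by
  by_contra h
  rw [Bool.not_eq_false, List.any_eq_true] at h
  obtain ⟨l, hl, h⟩ := h
  rw [quiet_on Y g hk l (hR l hl)] at h
  exact Bool.noConfusion h

/-! ### Rounds of kind `false` -/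

/-- General form of a round of kind `false`. -/
lemma bstep (Y : Sys S (Fin (d + 1))) (g : Gt S d M e) (hk : kdt g = false) (P : Bool)
    {b c b' c' : ℕ → Lb d e} {N : ℕ} {R R' : List (Lb d e)} (O : List (Fin (d + 1)))
    (hN : 1 ≤ N) (hq : ∀ l ∈ R, quiet l) (p : ℕ)
    (hb1 : ∀ j, (mac (M := M) (e := e) Y).on g (b j) = true → j = p)
    (hc1 : ∀ j, (mac (M := M) (e := e) Y).on g (c j) = true → j = p)
    (hbc : ∀ j, ¬ ((mac (M := M) (e := e) Y).on g (b j) = true ∧ (mac (M := M) (e := e) Y).on g (c j) = true))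
    (hP : P = true ↔ ((mac (M := M) (e := e) Y).on g (c 0) = true ∨ ∃ j, 1 ≤ j ∧ j < 1 + (N - 1) ∧
      ((mac (M := M) (e := e) Y).on g (b j) = true ∨ (mac (M := M) (e := e) Y).on g (c j) = true)))
    (hb : ∀ j, 1 ≤ j → j < N → upt g P (b j) = [b' j])
    (hc : ∀ j, j < N → upt g P (c j) = [c' j]) (hR : R.flatMap (upt g P) = R') :
    (mac (M := M) (e := e) Y).Step (g, gw b c N R, O) (nxt Y g P, gw b' c' N R',
      O ++ (gw b' c' N R').filterMap ext) := by
  have h1 : (gw b c N R).any ((mac (M := M) (e := e) Y).on g) = P :=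
    any_gw _ P (quiet_any Y g hk R hq) hP
  have h2 := countP_gw (N := N) ((mac (M := M) (e := e) Y).on g) p hb1 hc1 hbc (quiet_countP Y g hk R hq)
  have h3 : (mac (M := M) (e := e) Y).bnext g P (gw b c N R) = gw b' c' N R' :=
    flatMap_gw (upt g P) hb hc hN hR
  have h4 := RS2.Step.b (X := mac (M := M) (e := e) Y) g (gw b c N R) O hk
    (fun l _ => omt_ne_dn g hk l) h2
  rw [h1, h3] at h4
  exact h4

lemma ext_gw {b c : ℕ → Lb d e} {N : ℕ} {R : List (Lb d e)}
    (hb : ∀ j, ext (b j) = none) (hc : ∀ j, j < N → ext (c j) = none) (hN : 1 ≤ N)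
    (hR : R.filterMap ext = []) : (gw b c N R).filterMap ext = [] := by
  rw [List.filterMap_eq_nil_iff] at hR ⊢
  intro a ha
  rw [gw, List.mem_cons, List.mem_append] at ha
  rcases ha with rfl | ha | ha
  · exact hc 0 (by omega)
  · obtain ⟨j, h1, h2, h3 | h3⟩ := mem_seg ha
    · rw [h3]; exact hb j
    · rw [h3]; exact hc j (by omega)
  · exact hR a ha

lemma ext_wd (L k : ℕ) (O : List (Fin (d + 1))) (hf : Fin (e + 1) → ℕ → Bool) (tf mf : ℕ → Bool) (R : List (Lb d e))
    (hR : R.filterMap ext = []) : (wd L k O hf tf mf nof R).filterMap ext = [] := by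
  refine ext_gw (fun j => rfl) (fun j _ => ?_) (Nat.one_le_two_pow) hR
  simp [ext, cl, nof]

/-- The middle boundary acts in the last round only. -/
lemma kdf_ctr {L k : ℕ} (hL : 1 ≤ L) (hk : k < L) :
    kdf k (2 ^ (L - 1)) = 0 ↔ k + 1 = L := by
  unfold kdf
  have h1 : 2 ^ (L - 1) % 2 ^ k = 0 := Nat.mod_eq_zero_of_dvd (pow_dvd_pow 2 (by omega))
  have h2 : 2 ^ (L - 1) / 2 ^ k = 2 ^ (L - 1 - k) := Nat.pow_div (by omega) (by norm_num)
  rw [if_neg (by simpa using h1), h2]
  constructor
  · intro h
    by_contra hne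
    have h3 : 2 ^ (L - 1 - k) % 2 = 0 := by
      obtain ⟨e, he⟩ : ∃ e, L - 1 - k = e + 1 := ⟨L - 1 - k - 1, by omega⟩
      rw [he, pow_succ, Nat.mul_mod_left]
    rw [h3] at h
    simp at h
  · intro h
    rw [show L - 1 - k = 0 by omega]
    simp

/-- First round of a stage. -/
lemma step_s1 (Y : Sys S (Fin (d + 1))) (md : Md e) (q : S) (l : Pk (Fin (d + 1)) M) (κ : Bool)
    {L k : ℕ} (hk : k < L) (O : List (Fin (d + 1))) (hf : Fin (e + 1) → ℕ → Bool) (tf mf ff : ℕ → Bool)
    (R : List (Lb d e)) (hq : ∀ l ∈ R, quiet l) (hR : R.filterMap ext = []) (Q : List (Fin (d + 1))) :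
    (mac (M := M) (e := e) Y).Step (s1 md q l κ, wd L k O hf tf mf ff R, Q)
      (s2 md q l κ (decide (k + 1 = L)), wd L k O hf tf mf nof R, Q) := by
  have hN : 1 ≤ 2 ^ L := Nat.one_le_two_pow
  have hon : ∀ j, (mac (M := M) (e := e) Y).on (s1 md q l κ) (B (bn L k j)) =
      (decide (j = 2 ^ (L - 1)) && decide (kdf k j = 0)) := fun j => isup_ba _
  have hon' : ∀ j, (mac (M := M) (e := e) Y).on (s1 md q l κ) (C (cl O hf tf mf ff k j)) = false :=
    fun j => rfl
  have h := bstep Y (s1 md q l κ) rfl (decide (k + 1 = L))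
    (b := fun j => B (bn L k j)) (c := fun j => C (cl O hf tf mf ff k j))
    (b' := fun j => B (bn L k j)) (c' := fun j => C (cl O hf tf mf nof k j))
    (R := R) (R' := R) Q hN hq (2 ^ (L - 1))
    (by
      intro j hj
      simp only [hon, Bool.and_eq_true, decide_eq_true_eq] at hj
      exact hj.1)
    (by
      intro j hj
      simp only [hon'] at hj
      exact Bool.noConfusion hj)
    (by
      rintro j ⟨-, hj⟩
      simp only [hon'] at hj
      exact Bool.noConfusion hj)
    (by
      simp only [hon, hon']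
      rw [decide_eq_true_eq, ← kdf_ctr (by omega : 1 ≤ L) hk]
      constructor
      · intro h
        refine Or.inr ⟨2 ^ (L - 1), Nat.one_le_two_pow, ?_, Or.inl ?_⟩
        · have : 2 ^ (L - 1) < 2 ^ L := Nat.pow_lt_pow_right (by norm_num) (by omega)
          omega
        · simp [h]
      · rintro (h | ⟨j, -, -, h | h⟩)
        · exact Bool.noConfusion h
        · simp only [Bool.and_eq_true, decide_eq_true_eq] at h
          rw [← h.1]
          exact h.2
        · exact Bool.noConfusion h)
    (fun j _ _ => rfl) (fun j _ => rfl)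
    (by
      have : ∀ x ∈ R, upt (s1 md q l κ) (decide (k + 1 = L)) x = [x] := by
        intro x hx
        cases x with
        | E => rfl
        | B x => rfl
        | C x =>
          have h1 := (hq _ hx).2.2.2
          obtain ⟨a1, a2, a3, a4, a5, a6, a7, a8⟩ := x
          simp only at h1
          subst h1
          rfl
      clear hq hR
      induction R with
      | nil => rfl
      | cons x R ih =>
        rw [List.flatMap_cons, this x List.mem_cons_self,
          ih fun y hy => this y (List.mem_cons_of_mem _ hy)]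
        rfl)
  have h2 := ext_wd L k O hf tf mf R hR
  unfold wd at h2 ⊢
  rw [h2, List.append_nil] at h
  exact h

/-- Words without change. -/
lemma flatMap_id {L : Type} (U : L → List L) (R : List L) (h : ∀ x ∈ R, U x = [x]) :
    R.flatMap U = R := by
  induction R with
  | nil => rfl
  | cons x R ih =>
    rw [List.flatMap_cons, h x List.mem_cons_self, ih fun y hy => h y (List.mem_cons_of_mem _ hy)]
    rfl

/-- The pointer functions of a mode. -/
def pf (md : Md e) (hf : Fin (e + 1) → ℕ → Bool) (tf : ℕ → Bool) : ℕ → Bool :=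
  match md with
  | .H j => hf j
  | .T => tf
  | .W => nof

/-- Second round of a stage, when a pointer moves. -/
lemma step_s2 (Y : Sys S (Fin (d + 1))) (md : Md e) (hmd : md ≠ .W) (q : S)
    (l : Pk (Fin (d + 1)) M) (la : Bool) {L k p : ℕ} (hp : p < 2 ^ L)
    (O : List (Fin (d + 1))) (hf : Fin (e + 1) → ℕ → Bool) (tf : ℕ → Bool) (hpf : pf md hf tf = onef p)
    (Q : List (Fin (d + 1))) :
    (mac (M := M) (e := e) Y).Step (s2 md q l (kpf k p) la, wd L k O hf tf (mtf k p) nof [E], Q)
      (s3 md q l (kpf (k + 1) p) la, wd L k O hf tf (mtf (k + 1) p) nof [E], Q) := by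
  have hN : 1 ≤ 2 ^ L := Nat.one_le_two_pow
  have hon : ∀ j, (mac (M := M) (e := e) Y).on (s2 md q l (kpf k p) la) (B (bn L k j)) = false :=
    fun j => rfl
  have hon' : ∀ j, (mac (M := M) (e := e) Y).on (s2 md q l (kpf k p) la)
      (C (cl O hf tf (mtf k p) nof k j)) = (decide (j = p) && bitf k j) := by
    intro j
    have e0 : ptr md (cl O hf tf (mtf k p) nof k j) = decide (j = p) := by
      have := congrFun hpf j
      cases md with
      | H i => exact this
      | T => exact this
      | W => exact absurd rfl hmd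
    have : (mac (M := M) (e := e) Y).on (s2 md q l (kpf k p) la) (C (cl O hf tf (mtf k p) nof k j)) =
        (ptr md (cl O hf tf (mtf k p) nof k j) && bitf k j) := isup_ba _
    rw [this, e0]
  have h := bstep Y (s2 md q l (kpf k p) la) rfl (bitf k p)
    (b := fun j => B (bn L k j)) (c := fun j => C (cl O hf tf (mtf k p) nof k j))
    (b' := fun j => B (bn L k j)) (c' := fun j => C (cl O hf tf (mtf (k + 1) p) nof k j))
    (R := [E]) (R' := [E]) Q hN (by intro l hl; rw [List.mem_singleton.1 hl]; trivial) p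
    (by
      intro j hj
      simp only [hon] at hj
      exact Bool.noConfusion hj)
    (by
      intro j hj
      simp only [hon', Bool.and_eq_true, decide_eq_true_eq] at hj
      exact hj.1)
    (by
      rintro j ⟨hj, -⟩
      simp only [hon] at hj
      exact Bool.noConfusion hj)
    (by
      simp only [hon, hon']
      constructor
      · intro h
        by_cases h0 : p = 0
        · left
          rw [h0] at h ⊢
          simp [h]
        · right
          exact ⟨p, by omega, by omega, Or.inr (by simp [h])⟩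
      · rintro (h | ⟨j, -, -, h | h⟩)
        · simp only [Bool.and_eq_true, decide_eq_true_eq] at h
          rw [← h.1]
          exact h.2
        · exact Bool.noConfusion h
        · simp only [Bool.and_eq_true, decide_eq_true_eq] at h
          rw [← h.1]
          exact h.2)
    (fun j _ _ => rfl)
    (by
      intro j _
      have : (mtf k p j && (bitf k j == (bitf k p ^^ kpf k p))) = mtf (k + 1) p j :=
        mtf_succ k p j
      cases md with
      | W => exact absurd rfl hmd
      | H i =>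
        simp only [upt, upC, cl]
        rw [this]
      | T =>
        simp only [upt, upC, cl]
        rw [this])
    rfl
  have h2 := ext_wd L k O hf tf (mtf (k + 1) p) [E] rfl
  have h3 : nxt Y (s2 md q l (kpf k p) la) (bitf k p) = s3 md q l (kpf (k + 1) p) la := by
    rw [← kpf_succ]
    rfl
  unfold wd at h2 ⊢
  rw [h2, List.append_nil, h3] at h
  exact h

/-- Second round of a stage, growth. -/
lemma step_s2W (Y : Sys S (Fin (d + 1))) (q : S)
    (l : Pk (Fin (d + 1)) M) (la : Bool) {L k : ℕ}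
    (O : List (Fin (d + 1))) (hf : Fin (e + 1) → ℕ → Bool) (tf mf : ℕ → Bool) (R : List (Lb d e))
    (hq : ∀ l ∈ R, quiet l) (hR : R.filterMap ext = [])
    (Q : List (Fin (d + 1))) :
    (mac (M := M) (e := e) Y).Step (s2 .W q l false la, wd L k O hf tf mf nof R, Q)
      (s3 .W q l false la, wd L k O hf tf mf nof R, Q) := by
  have hN : 1 ≤ 2 ^ L := Nat.one_le_two_pow
  have hon : ∀ j, (mac (M := M) (e := e) Y).on (s2 .W q l false la) (B (bn L k j)) = false :=
    fun j => rfl
  have hon' : ∀ j, (mac (M := M) (e := e) Y).on (s2 .W q l false la)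
      (C (cl O hf tf mf nof k j)) = false := fun j => rfl
  have h := bstep Y (s2 .W q l false la) rfl false
    (b := fun j => B (bn L k j)) (c := fun j => C (cl O hf tf mf nof k j))
    (b' := fun j => B (bn L k j)) (c' := fun j => C (cl O hf tf mf nof k j))
    (R := R) (R' := R) Q hN hq 0
    (by
      intro j hj
      simp only [hon] at hj
      exact Bool.noConfusion hj)
    (by
      intro j hj
      simp only [hon'] at hj
      exact Bool.noConfusion hj)
    (by
      rintro j ⟨hj, -⟩
      simp only [hon] at hj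
      exact Bool.noConfusion hj)
    (by
      simp only [hon, hon']
      simp)
    (fun j _ _ => rfl) (fun j _ => rfl)
    (flatMap_id _ _ fun x _ => by cases x <;> rfl)
  have h2 := ext_wd L k O hf tf mf R hR
  unfold wd at h2 ⊢
  rw [h2, List.append_nil] at h
  exact h

/-! ### Rounds of kind `true` -/

lemma gs_zero (k : ℕ) : gs k 0 = false := by simp [gs]

lemma gs_last {k L : ℕ} (hk : k < L) : gs k (2 ^ L - 1) = decide (k + 1 = L) := by
  obtain ⟨e, rfl⟩ : ∃ e, L = k + (e + 1) := ⟨L - k - 1, by omega⟩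
  have h1 : (2 ^ (k + (e + 1)) - 1) / 2 ^ k = 2 ^ (e + 1) - 1 := by
    have hp : 0 < 2 ^ k := by positivity
    have hp' : 0 < 2 ^ (e + 1) := by positivity
    have e1 : 2 ^ (k + (e + 1)) - 1 = (2 ^ k - 1) + 2 ^ k * (2 ^ (e + 1) - 1) := by
      rw [pow_add, Nat.mul_sub, mul_one]
      have : 2 ^ k ≤ 2 ^ k * 2 ^ (e + 1) := Nat.le_mul_of_pos_right _ hp'
      omega
    rw [e1, Nat.add_mul_div_left _ _ hp, Nat.div_eq_of_lt (by omega), zero_add]
  unfold gs
  rw [h1]
  rcases Nat.eq_zero_or_pos e with rfl | he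
  · simp
  · obtain ⟨e, rfl⟩ : ∃ f, e = f + 1 := ⟨e - 1, by omega⟩
    have h2 : (2 ^ (e + 1 + 1) - 1) % 4 = 3 := by
      have : 2 ^ (e + 1 + 1) = 4 * 2 ^ e := by ring
      have h3 : 0 < 2 ^ e := by positivity
      rw [this]
      omega
    rw [h2]
    have h3 : ¬ (k + 1 = k + (e + 1 + 1)) := by omega
    simp

/-- Third round of a stage. The young part `V` becomes `V'`. -/
lemma step_s3 (Y : Sys S (Fin (d + 1))) (md : Md e) (q : S)
    (l : Pk (Fin (d + 1)) M) (κ : Bool) {L k : ℕ} (hk : k < L)
    (O : List (Fin (d + 1))) (hf : Fin (e + 1) → ℕ → Bool) (tf mf : ℕ → Bool) (V V' : List (Lb d e))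
    (hV1 : ∀ x ∈ V, omt (s3 (S := S) md q l κ (decide (k + 1 = L))) x = .id)
    (U : Lb d e → List (Lb d e))
    (hV2 : ∀ x ∈ V, ∀ b, upt (s3 (S := S) md q l κ (decide (k + 1 = L))) b x = U x)
    (hV3 : V.flatMap U = V') (hR : V'.filterMap ext = []) (Q : List (Fin (d + 1))) :
    (mac (M := M) (e := e) Y).Step
      (s3 md q l κ (decide (k + 1 = L)), wd L k O hf tf mf nof (V ++ [E]), Q)
      (if k + 1 = L then s4 md q l κ else s1 md q l κ,
        wd L (k + 1) O hf tf mf nof (V' ++ [E]), Q) := by
  have hN : 1 ≤ 2 ^ L := Nat.one_le_two_pow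
  set g : Gt S d M e := s3 md q l κ (decide (k + 1 = L)) with hg
  set b : ℕ → Lb d e := fun j => B (bn L k j) with hb
  set c : ℕ → Lb d e := fun j => C (cl O hf tf mf nof k j) with hc
  set b' : ℕ → Lb d e := fun j => B (bn L (k + 1) j) with hb'
  set c' : ℕ → Lb d e := fun j => C (cl O hf tf mf nof (k + 1) j) with hc'
  set st : ℕ → Option Bool := fun j => some (gs k j) with hst
  have hcup : ∀ j, (mac (M := M) (e := e) Y).up g (bt (st j)) (c j) = [c' j] := by
    intro j
    have e : (bitf k j ^^ gs k j) = bitf (k + 1) j := bitf_succ k j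
    simp only [mac, hg, hc, hc', hst, bt, upt, upC, cl]
    rw [if_neg (by simp), e]
  have hbup : ∀ j, (mac (M := M) (e := e) Y).up g (bt (st j)) (b (j + 1)) = [b' (j + 1)] := by
    intro j
    simp only [mac, hg, hb, hb', hst, bt, upt, upB, bn]
    rw [if_neg (by simp), nkd_kdf]
  have hcom : ∀ j, (mac (M := M) (e := e) Y).om g (c j) = .id := fun j => rfl
  have hbom : ∀ j, act ((mac (M := M) (e := e) Y).om g (b (j + 1))) (st j) = st (j + 1) :=
    fun j => bact_gs k j
  obtain ⟨k1, k2⟩ := gseg (mac (M := M) (e := e) Y) g b c b' c' st 0 (2 ^ L - 1)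
    (fun j _ _ => hbom j) (fun j _ _ => hcom (j + 1)) (fun j _ _ => hbup j)
    (fun j _ _ => hcup (j + 1))
  simp only [zero_add] at k1 k2
  obtain ⟨k3, k4⟩ := ginert (mac (M := M) (e := e) Y) g (st (2 ^ L - 1)) V U hV1 hV2
  have hst0 : st 0 = some false := by rw [hst]; simp only [gs_zero]
  have hstl : st (2 ^ L - 1) = some (decide (k + 1 = L)) := by
    rw [hst]; simp only [gs_last hk]
  have hE : act ((mac (M := M) (e := e) Y).om g E) (st (2 ^ L - 1)) = some false := by
    rw [hstl]
    simp only [mac, hg, omt]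
    by_cases h : k + 1 = L
    · simp [h, act]
    · simp [h, act]
  have hpass : (mac (M := M) (e := e) Y).gpass g (some false) (gw b c (2 ^ L) (V ++ [E])) =
      gw b' c' (2 ^ L) (V' ++ [E]) := by
    rw [gw, RS2.gpass, hcom 0, act_id, RS2.gpass_append, RS2.gpass_append]
    rw [hst0] at k1 k2
    rw [k1, k2, k3, k4, hV3]
    have h0 := hcup 0
    rw [hst0] at h0
    rw [h0]
    rfl
  have hfin : (mac (M := M) (e := e) Y).gfin g (some false) (gw b c (2 ^ L) (V ++ [E])) = some false := by
    rw [gw, RS2.gfin, hcom 0, act_id, RS2.gfin_append, RS2.gfin_append]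
    rw [hst0] at k1 k2
    rw [k2, k4, RS2.gfin, hE]
    rfl
  have h := RS2.Step.g (X := mac (M := M) (e := e) Y) g (gw b c (2 ^ L) (V ++ [E])) Q rfl hfin
  rw [hpass] at h
  have h2 := ext_wd L (k + 1) O hf tf mf (V' ++ [E])
    (by rw [List.filterMap_append, hR]; rfl)
  have h3 : (mac (M := M) (e := e) Y).nx g false = if k + 1 = L then s4 md q l κ else s1 md q l κ := by
    simp only [mac, hg, nxt, decide_eq_true_eq]
  have h4 : (mac (M := M) (e := e) Y).ex = ext := rfl
  unfold wd at h2 ⊢
  rw [h3, h4, h2, List.append_nil] at h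
  exact h

end

end Pool.Agent.W_MP_5d512e_dic
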