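import Pool.Agent.W_MP_5d512e_dic.Round

/-!
# A tape whose cells know their addresses: arithmetic and lists
-/

set_option autoImplicit false

namespace Pool.Agent.W_MP_5d512e_dic

open Pool.Agent.W_MP_5d512e_h33

/-! ### Arithmetic -/

/-- Direction of the boundary `j`: the odd part of `j` is `1` modulo `4`. -/
def dirf (j : ℕ) : Bool :=
  if j = 0 then false else if j % 2 = 1 then decide (j % 4 = 1) else dirf (j / 2)
termination_by j
decreasing_by omega

lemma dirf_odd {j : ℕ} (h : j % 2 = 1) : dirf j = decide (j % 4 = 1) := by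
  rw [dirf, if_neg (by omega), if_pos h]

lemma dirf_two_mul {j : ℕ} (h : 0 < j) : dirf (2 * j) = dirf j := by
  rw [dirf, if_neg (by omega), if_neg (by omega)]
  congr 1
  omega

lemma dirf_pow_mul (k : ℕ) {j : ℕ} (h : 0 < j) : dirf (2 ^ k * j) = dirf j := by
  induction k with
  | zero => simp
  | succ k ih =>
    rw [pow_succ, mul_comm (2 ^ k) 2, mul_assoc, dirf_two_mul (by positivity), ih]

/-- State of the boundary `j` at stage `k`: `0` now, `1` wait, `2` done. -/
def kdf (k j : ℕ) : Fin 3 :=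
  if j % 2 ^ k ≠ 0 then 2 else if (j / 2 ^ k) % 2 = 1 then 0 else 1

/-- The state at cell `j` in round `k`. -/
def gs (k j : ℕ) : Bool := decide ((j / 2 ^ k) % 4 = 1 ∨ (j / 2 ^ k) % 4 = 2)

lemma div_succ (k j : ℕ) : j / 2 ^ (k + 1) = j / 2 ^ k / 2 := by
  rw [pow_succ, Nat.div_div_eq_div_mul]

lemma mod_succ (k j : ℕ) : j % 2 ^ (k + 1) = j % 2 ^ k + 2 ^ k * ((j / 2 ^ k) % 2) := by
  rw [pow_succ, Nat.mod_mul]

lemma succ_div_cases (n j : ℕ) (hn : 0 < n) :
    ((j + 1) % n = 0 ∧ (j + 1) / n = j / n + 1 ∧ j % n = n - 1) ∨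
    ((j + 1) % n ≠ 0 ∧ (j + 1) / n = j / n ∧ (j + 1) % n = j % n + 1) := by
  have h1 := Nat.div_add_mod j n
  have h2 := Nat.mod_lt j hn
  by_cases h : j % n + 1 = n
  · left
    have e : j + 1 = n * (j / n + 1) := by rw [Nat.mul_add, mul_one]; omega
    refine ⟨?_, ?_, by omega⟩
    · rw [e]; exact Nat.mul_mod_right _ _
    · conv_lhs => rw [e]
      exact Nat.mul_div_cancel_left _ hn
  · right
    have hlt : j % n + 1 < n := by omega
    have e : j + 1 = (j % n + 1) + n * (j / n) := by omega
    refine ⟨?_, ?_, ?_⟩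
    · rw [e, Nat.add_mul_mod_self_left, Nat.mod_eq_of_lt hlt]
      omega
    · conv_lhs => rw [e]
      rw [Nat.add_mul_div_left _ _ hn, Nat.div_eq_of_lt hlt, zero_add]
    · conv_lhs => rw [e]
      rw [Nat.add_mul_mod_self_left, Nat.mod_eq_of_lt hlt]

/-- The action of a boundary. -/
def bact (kd : Fin 3) (dir : Bool) : Ac := if kd = 0 then (if dir then .up else .dn) else .id

lemma bact_gs (k j : ℕ) :
    act (bact (kdf k (j + 1)) (dirf (j + 1))) (some (gs k j)) = some (gs k (j + 1)) := by
  have hn : 0 < 2 ^ k := by positivity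
  rcases succ_div_cases (2 ^ k) j hn with ⟨h1, h2, h3⟩ | ⟨h1, h2, h3⟩
  · unfold kdf
    rw [if_neg (by simpa using h1)]
    by_cases h4 : ((j + 1) / 2 ^ k) % 2 = 1
    · rw [if_pos h4]
      have hd : dirf (j + 1) = decide (((j + 1) / 2 ^ k) % 4 = 1) := by
        have e : j + 1 = 2 ^ k * ((j + 1) / 2 ^ k) := by
          have := Nat.div_add_mod (j + 1) (2 ^ k)
          rw [h1, add_zero] at this
          exact this.symm
        have hq : 0 < (j + 1) / 2 ^ k := by
          rcases Nat.eq_zero_or_pos ((j + 1) / 2 ^ k) with h0 | h0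
          · rw [h0] at h4
            exact absurd h4 (by norm_num)
          · exact h0
        rw [← dirf_odd h4]
        conv_lhs => rw [e]
        exact dirf_pow_mul k hq
      rw [hd]
      unfold gs
      rw [h2] at h4 ⊢
      generalize j / 2 ^ k = v at h4
      rcases (by omega : (v + 1) % 4 = 1 ∨ (v + 1) % 4 = 3) with h5 | h5
      · have h6 : v % 4 = 0 := by omega
        simp [h5, h6, bact, act]
      · have h6 : v % 4 = 2 := by omega
        simp [h5, h6, bact, act]
    · rw [if_neg h4]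
      have : bact 1 (dirf (j + 1)) = .id := by simp [bact]
      rw [this, act_id]
      unfold gs
      rw [h2] at h4 ⊢
      generalize j / 2 ^ k = v at h4
      congr 1
      rcases (by omega : (v + 1) % 4 = 0 ∨ (v + 1) % 4 = 2) with h5 | h5
      · have h6 : v % 4 = 3 := by omega
        simp [h5, h6]
      · have h6 : v % 4 = 1 := by omega
        simp [h5, h6]
  · unfold kdf
    rw [if_pos h1]
    have : bact 2 (dirf (j + 1)) = .id := by simp [bact]
    rw [this, act_id]
    unfold gs
    rw [h2]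

/-- Next state of a boundary. -/
def nkd (kd : Fin 3) (b : Bool) : Fin 3 :=
  if kd = 1 then (if b then 0 else 1) else 2

lemma nkd_kdf (k j : ℕ) : nkd (kdf k (j + 1)) (gs k j) = kdf (k + 1) (j + 1) := by
  have hn : 0 < 2 ^ k := by positivity
  have hm := mod_succ k (j + 1)
  have hd := div_succ k (j + 1)
  rcases succ_div_cases (2 ^ k) j hn with ⟨h1, h2, h3⟩ | ⟨h1, h2, h3⟩
  · by_cases h4 : ((j + 1) / 2 ^ k) % 2 = 1
    · have e1 : kdf k (j + 1) = 0 := by
        unfold kdf
        rw [if_neg (by simpa using h1), if_pos h4]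
      have e2 : kdf (k + 1) (j + 1) = 2 := by
        unfold kdf
        rw [if_pos]
        rw [hm, h1, h4]
        omega
      rw [e1, e2]
      simp [nkd]
    · have e1 : kdf k (j + 1) = 1 := by
        unfold kdf
        rw [if_neg (by simpa using h1), if_neg h4]
      have h5 : ((j + 1) / 2 ^ k) % 2 = 0 := by omega
      have e2 : kdf (k + 1) (j + 1) = if ((j + 1) / 2 ^ k / 2) % 2 = 1 then 0 else 1 := by
        unfold kdf
        rw [if_neg (by rw [hm, h1, h5]; simp), hd]
      rw [e1, e2]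
      unfold gs
      rw [h2] at h5 ⊢
      generalize j / 2 ^ k = v at h5
      rcases (by omega : v % 4 = 1 ∨ v % 4 = 3) with h6 | h6
      · have h7 : ((v + 1) / 2) % 2 = 1 := by omega
        simp [h6, h7, nkd]
      · have h7 : ((v + 1) / 2) % 2 = 0 := by omega
        simp [h6, h7, nkd]
  · have e1 : kdf k (j + 1) = 2 := by
      unfold kdf
      rw [if_pos h1]
    have e2 : kdf (k + 1) (j + 1) = 2 := by
      unfold kdf
      rw [if_pos]
      rw [hm]
      omega
    rw [e1, e2]
    simp [nkd]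

/-- Bit `k` of `j`. -/
def bitf (k j : ℕ) : Bool := decide ((j / 2 ^ k) % 2 = 1)

lemma bitf_succ (k j : ℕ) : (bitf k j ^^ gs k j) = bitf (k + 1) j := by
  unfold bitf gs
  rw [div_succ]
  generalize j / 2 ^ k = v
  rcases (by omega : v % 4 = 0 ∨ v % 4 = 1 ∨ v % 4 = 2 ∨ v % 4 = 3) with h | h | h | h
  · have h1 : v % 2 = 0 := by omega
    have h2 : (v / 2) % 2 = 0 := by omega
    simp [h, h1, h2]
  · have h1 : v % 2 = 1 := by omega
    have h2 : (v / 2) % 2 = 0 := by omega
    simp [h, h1, h2]
  · have h1 : v % 2 = 0 := by omega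
    have h2 : (v / 2) % 2 = 1 := by omega
    simp [h, h1, h2]
  · have h1 : v % 2 = 1 := by omega
    have h2 : (v / 2) % 2 = 1 := by omega
    simp [h, h1, h2]

/-- The lower `k` bits of `j` and of `p + 1` agree. -/
def mtf (k p j : ℕ) : Bool := decide (j % 2 ^ k = (p + 1) % 2 ^ k)

/-- The carry into bit `k` when `1` is added to `p`. -/
def kpf (k p : ℕ) : Bool := decide (p % 2 ^ k = 2 ^ k - 1)

lemma kpf_succ (k p : ℕ) : (kpf k p && bitf k p) = kpf (k + 1) p := by
  have hn : 0 < 2 ^ k := by positivity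
  have hm := mod_succ k p
  have hlt := Nat.mod_lt p hn
  unfold kpf bitf
  rw [hm]
  have hp : 2 ^ (k + 1) = 2 * 2 ^ k := by rw [pow_succ, mul_comm]
  rcases (by omega : (p / 2 ^ k) % 2 = 0 ∨ (p / 2 ^ k) % 2 = 1) with h | h
  · rw [h, hp]
    have : ¬ (p % 2 ^ k + 2 ^ k * 0 = 2 * 2 ^ k - 1) := by omega
    simp [this]
    omega
  · rw [h, hp]
    by_cases h2 : p % 2 ^ k = 2 ^ k - 1
    · have : p % 2 ^ k + 2 ^ k * 1 = 2 * 2 ^ k - 1 := by omega
      simp [h2]
      omega
    · have : ¬ (p % 2 ^ k + 2 ^ k * 1 = 2 * 2 ^ k - 1) := by omega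
      simp [h2]
      omega

lemma mtf_succ (k p j : ℕ) :
    (mtf k p j && (bitf k j == (bitf k p ^^ kpf k p))) = mtf (k + 1) p j := by
  have hn : 0 < 2 ^ k := by positivity
  have hlt := Nat.mod_lt j hn
  have hlt' := Nat.mod_lt (p + 1) hn
  unfold mtf
  rw [mod_succ k j, mod_succ k (p + 1)]
  unfold bitf kpf
  by_cases h1 : j % 2 ^ k = (p + 1) % 2 ^ k
  · rw [h1]
    simp only [decide_true, Bool.true_and, Nat.add_left_cancel_iff]
    have h2 : (2 ^ k * (j / 2 ^ k % 2) = 2 ^ k * ((p + 1) / 2 ^ k % 2)) ↔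
        (j / 2 ^ k % 2 = (p + 1) / 2 ^ k % 2) := Nat.mul_right_inj hn.ne'
    simp only [h2]
    rcases succ_div_cases (2 ^ k) p hn with ⟨h3, h4, h5⟩ | ⟨h3, h4, h5⟩
    · rw [h4, h5]
      generalize j / 2 ^ k = v
      generalize p / 2 ^ k = u
      rcases (by omega : v % 2 = 0 ∨ v % 2 = 1) with hv | hv <;>
        rcases (by omega : u % 2 = 0 ∨ u % 2 = 1) with hu | hu
      · have : (u + 1) % 2 = 1 := by omega
        simp [hv, hu, this]
      · have : (u + 1) % 2 = 0 := by omega
        simp [hv, hu, this]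
      · have : (u + 1) % 2 = 1 := by omega
        simp [hv, hu, this]
      · have : (u + 1) % 2 = 0 := by omega
        simp [hv, hu, this]
    · rw [h4]
      have h6 : ¬ (p % 2 ^ k = 2 ^ k - 1) := by omega
      generalize j / 2 ^ k = v
      generalize p / 2 ^ k = u
      rcases (by omega : v % 2 = 0 ∨ v % 2 = 1) with hv | hv <;>
        rcases (by omega : u % 2 = 0 ∨ u % 2 = 1) with hu | hu <;> simp [hv, hu, h6]
  · have h2 : ¬ (j % 2 ^ k + 2 ^ k * (j / 2 ^ k % 2) =
        (p + 1) % 2 ^ k + 2 ^ k * ((p + 1) / 2 ^ k % 2)) := by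
      intro h
      apply h1
      have e1 := congrArg (fun z => z % 2 ^ k) h
      simp only [Nat.add_mul_mod_self_left, Nat.mod_mod] at e1
      exact e1
    simp [h1, h2]

/-! ### Lists of boundaries and cells -/

/-- Boundary `i`, cell `i`, boundary `i+1`, cell `i+1`, ..., `n` times. -/
def seg {L : Type} (b c : ℕ → L) : ℕ → ℕ → List L
  | _, 0 => []
  | i, n + 1 => b i :: c i :: seg b c (i + 1) n

section

variable {L : Type}

lemma seg_append (b c : ℕ → L) (i m n : ℕ) :
    seg b c i (m + n) = seg b c i m ++ seg b c (i + m) n := by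
  induction m generalizing i with
  | zero => simp [seg]
  | succ m ih =>
    rw [show m + 1 + n = (m + n) + 1 by ring, seg, ih, seg]
    rw [show i + 1 + m = i + (m + 1) by ring]
    rfl

lemma length_seg (b c : ℕ → L) (i n : ℕ) : (seg b c i n).length = 2 * n := by
  induction n generalizing i with
  | zero => rfl
  | succ n ih => rw [seg, List.length_cons, List.length_cons, ih]; ring

lemma mem_seg {b c : ℕ → L} {i n : ℕ} {x : L} (h : x ∈ seg b c i n) :
    ∃ j, i ≤ j ∧ j < i + n ∧ (x = b j ∨ x = c j) := by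
  induction n generalizing i with
  | zero => simp [seg] at h
  | succ n ih =>
    rw [seg, List.mem_cons, List.mem_cons] at h
    rcases h with h | h | h
    · exact ⟨i, le_rfl, by omega, Or.inl h⟩
    · exact ⟨i, le_rfl, by omega, Or.inr h⟩
    · obtain ⟨j, h1, h2, h3⟩ := ih h
      exact ⟨j, by omega, by omega, h3⟩

lemma seg_congr {b c b' c' : ℕ → L} {i n : ℕ}
    (hb : ∀ j, i ≤ j → j < i + n → b j = b' j) (hc : ∀ j, i ≤ j → j < i + n → c j = c' j) :
    seg b c i n = seg b' c' i n := by
  induction n generalizing i with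
  | zero => rfl
  | succ n ih =>
    rw [seg, seg, hb i le_rfl (by omega), hc i le_rfl (by omega),
      ih (fun j h1 h2 => hb j (by omega) (by omega)) (fun j h1 h2 => hc j (by omega) (by omega))]

lemma seg_flatMap {b c b' c' : ℕ → L} {i n : ℕ} (U : L → List L)
    (hb : ∀ j, i ≤ j → j < i + n → U (b j) = [b' j])
    (hc : ∀ j, i ≤ j → j < i + n → U (c j) = [c' j]) :
    (seg b c i n).flatMap U = seg b' c' i n := by
  induction n generalizing i with
  | zero => rfl
  | succ n ih =>
    rw [seg, List.flatMap_cons, List.flatMap_cons, hb i le_rfl (by omega),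
      hc i le_rfl (by omega), seg,
      ih (fun j h1 h2 => hb j (by omega) (by omega)) (fun j h1 h2 => hc j (by omega) (by omega))]
    rfl

lemma seg_flatMap_two {b c b' c' : ℕ → L} {i n : ℕ} (U : L → List L)
    (hb : ∀ j, i ≤ j → j < i + n → U (b j) = [b' (2 * j)])
    (hc : ∀ j, i ≤ j → j < i + n → U (c j) = [c' (2 * j), b' (2 * j + 1), c' (2 * j + 1)]) :
    (seg b c i n).flatMap U = seg b' c' (2 * i) (2 * n) := by
  induction n generalizing i with
  | zero => rfl
  | succ n ih =>
    rw [seg, List.flatMap_cons, List.flatMap_cons, hb i le_rfl (by omega),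
      hc i le_rfl (by omega), show 2 * (n + 1) = 2 * n + 1 + 1 by ring, seg, seg,
      ih (fun j h1 h2 => hb j (by omega) (by omega)) (fun j h1 h2 => hc j (by omega) (by omega)),
      show 2 * i + 1 + 1 = 2 * (i + 1) by ring]
    rfl

lemma countP_seg (f : L → Bool) (b c : ℕ → L) (p i n : ℕ)
    (hb : ∀ j, f (b j) = true → j = p) (hc : ∀ j, f (c j) = true → j = p)
    (hbc : ∀ j, ¬ (f (b j) = true ∧ f (c j) = true)) :
    (seg b c i n).countP f ≤ if i ≤ p ∧ p < i + n then 1 else 0 := by
  induction n generalizing i with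
  | zero => simp [seg]
  | succ n ih =>
    have ih' := ih (i + 1)
    rw [seg, List.countP_cons, List.countP_cons]
    by_cases h1 : f (b i) = true
    · have h2 : ¬ (f (c i) = true) := fun h => hbc i ⟨h1, h⟩
      have h3 := hb i h1
      subst h3
      rw [if_neg (by omega)] at ih'
      rw [if_pos h1, if_neg h2, if_pos (by omega)]
      omega
    · by_cases h2 : f (c i) = true
      · have h3 := hc i h2
        subst h3
        rw [if_neg (by omega)] at ih'
        rw [if_neg h1, if_pos h2, if_pos (by omega)]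
        omega
      · rw [if_neg h1, if_neg h2]
        by_cases h4 : i + 1 ≤ p ∧ p < i + 1 + n
        · rw [if_pos h4] at ih'
          rw [if_pos (by omega)]
          omega
        · rw [if_neg h4] at ih'
          omega

lemma any_seg (f : L → Bool) (b c : ℕ → L) (i n : ℕ) :
    (seg b c i n).any f = true ↔ ∃ j, i ≤ j ∧ j < i + n ∧ (f (b j) = true ∨ f (c j) = true) := by
  induction n generalizing i with
  | zero => simp [seg]; omega
  | succ n ih =>
    rw [seg, List.any_cons, List.any_cons, Bool.or_eq_true, Bool.or_eq_true, ih]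
    constructor
    · rintro (h | h | ⟨j, h1, h2, h3⟩)
      · exact ⟨i, le_rfl, by omega, Or.inl h⟩
      · exact ⟨i, le_rfl, by omega, Or.inr h⟩
      · exact ⟨j, by omega, by omega, h3⟩
    · rintro ⟨j, h1, h2, h3⟩
      rcases Nat.eq_or_lt_of_le h1 with h4 | h4
      · subst h4
        rcases h3 with h3 | h3
        · exact Or.inl h3
        · exact Or.inr (Or.inl h3)
      · exact Or.inr (Or.inr ⟨j, by omega, by omega, h3⟩)

lemma gseg {G A : Type} (X : RS2 G L A) (g : G) (b c b' c' : ℕ → L) (st : ℕ → Option Bool)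
    (i n : ℕ) (h1 : ∀ j, i ≤ j → j < i + n → act (X.om g (b (j + 1))) (st j) = st (j + 1))
    (h2 : ∀ j, i ≤ j → j < i + n → X.om g (c (j + 1)) = .id)
    (h3 : ∀ j, i ≤ j → j < i + n → X.up g (bt (st j)) (b (j + 1)) = [b' (j + 1)])
    (h4 : ∀ j, i ≤ j → j < i + n → X.up g (bt (st (j + 1))) (c (j + 1)) = [c' (j + 1)]) :
    X.gpass g (st i) (seg b c (i + 1) n) = seg b' c' (i + 1) n ∧
      X.gfin g (st i) (seg b c (i + 1) n) = st (i + n) := by
  induction n generalizing i with
  | zero => exact ⟨rfl, rfl⟩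
  | succ n ih =>
    obtain ⟨k1, k2⟩ := ih (i + 1) (fun j a1 a2 => h1 j (by omega) (by omega))
      (fun j a1 a2 => h2 j (by omega) (by omega)) (fun j a1 a2 => h3 j (by omega) (by omega))
      (fun j a1 a2 => h4 j (by omega) (by omega))
    constructor
    · rw [seg, RS2.gpass, RS2.gpass, h1 i le_rfl (by omega), h2 i le_rfl (by omega), act_id,
        h3 i le_rfl (by omega), h4 i le_rfl (by omega), k1, seg]
      rfl
    · rw [seg, RS2.gfin, RS2.gfin, h1 i le_rfl (by omega), h2 i le_rfl (by omega), act_id, k2]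
      congr 1
      ring

/-- Inert words in rounds of kind `true`. -/
lemma ginert {G A : Type} (X : RS2 G L A) (g : G) (q : Option Bool) (w : List L)
    (U : L → List L) (h1 : ∀ l ∈ w, X.om g l = .id) (h2 : ∀ l ∈ w, ∀ b, X.up g b l = U l) :
    X.gpass g q w = w.flatMap U ∧ X.gfin g q w = q := by
  induction w with
  | nil => exact ⟨rfl, rfl⟩
  | cons x w ih =>
    obtain ⟨k1, k2⟩ := ih (fun l hl => h1 l (List.mem_cons_of_mem _ hl))
      (fun l hl => h2 l (List.mem_cons_of_mem _ hl))
    rw [RS2.gpass, RS2.gfin, h1 x List.mem_cons_self, act_id, k1, k2,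
      h2 x List.mem_cons_self, List.flatMap_cons]
    exact ⟨rfl, rfl⟩

end

end Pool.Agent.W_MP_5d512e_dic
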