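import Pool.Agent.W_MP_5d512e_lc.Machine
import Pool.Agent.W_MP_5d512e_h33.Defs

/-!
# Counter programs on binary tapes
-/

set_option autoImplicit false

namespace Pool.Agent.W_MP_5d512e_dic

open Pool.Agent.W_MP_5d512e_lc
open Pool.Agent.W_MP_5d512e_h33 (LogSpace)

/-- Instructions of counter programs. -/
inductive Ins (Q R A : Type)
  | tst (r : R) (qz qn : Q)
  | inc (r : R) (q : Q)
  | dec (r : R) (q : Q)
  | out (a : A) (q : Q)
  | jmp (q : Q)

/-- States of the machine. -/
inductive Ts (Q : Type)
  | ini
  | b (q : Q)
  | f (q : Q)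
  | l (q : Q) (z : Bool)

/-! ### Numbers in binary -/

/-- Value. -/
def val : List Bool → ℕ
  | [] => 0
  | b :: ds => (if b = true then 1 else 0) + 2 * val ds

/-- Add one. -/
def incr : List Bool → List Bool
  | [] => [true]
  | false :: ds => true :: ds
  | true :: ds => false :: incr ds

/-- Subtract one. -/
def decr : List Bool → List Bool
  | [] => []
  | false :: ds => true :: decr ds
  | true :: ds => false :: ds

/-- Only zeros. -/
def zer : List Bool → Bool
  | [] => true
  | false :: ds => zer ds
  | true :: _ => false

lemma val_incr (ds : List Bool) : val (incr ds) = val ds + 1 := by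
  induction ds with
  | nil => rfl
  | cons b ds ih =>
    cases b with
    | false => simp only [incr, val]; simp; omega
    | true => simp only [incr, val, ih]; simp; omega

lemma val_decr (ds : List Bool) (h : val ds ≠ 0) : val (decr ds) = val ds - 1 := by
  induction ds with
  | nil => exact absurd rfl h
  | cons b ds ih =>
    cases b with
    | false =>
      simp only [val, Bool.false_eq_true, if_false, zero_add] at h ⊢
      have h' : val ds ≠ 0 := by omega
      simp only [decr, val, ih h', if_true]
      omega
    | true => simp only [decr, val]; simp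

lemma zer_iff (ds : List Bool) : zer ds = true ↔ val ds = 0 := by
  induction ds with
  | nil => simp [zer, val]
  | cons b ds ih =>
    cases b with
    | false => simp only [zer, val, ih]; simp
    | true => simp [zer, val]

lemma len_incr (ds : List Bool) (N : ℕ) (h1 : 2 ^ ds.length ≤ 2 * N) (h2 : val (incr ds) ≤ N) :
    2 ^ (incr ds).length ≤ 2 * N := by
  induction ds generalizing N with
  | nil => simpa [incr, val] using h2
  | cons b ds ih =>
    cases b with
    | false => simpa [incr] using h1
    | true =>
      simp only [incr, val, Bool.false_eq_true, if_false, zero_add] at h2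
      simp only [List.length_cons, pow_succ] at h1
      simp only [incr, List.length_cons, pow_succ]
      have hv : 2 ≤ N := by
        have := val_incr ds
        omega
      have := ih (N / 2) (by
        obtain ⟨e, he⟩ : ∃ e, ds.length = e := ⟨_, rfl⟩
        rw [he] at h1 ⊢
        cases e with
        | zero =>
          simp only [pow_zero] at h1 ⊢
          omega
        | succ e =>
          rw [pow_succ] at h1 ⊢
          omega) (by omega)
      omega

lemma len_decr (ds : List Bool) : (decr ds).length = ds.length := by
  induction ds with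
  | nil => rfl
  | cons b ds ih =>
    cases b with
    | false => simp [decr, ih]
    | true => simp [decr]

/-! ### Tapes -/

/-- Symbol of a digit. -/
def sy : Bool → Fin 4
  | false => 1
  | true => 2

/-- The tape of a number: marker, digits, blanks. -/
def enc (l : List Bool) : ℕ → Fin 4
  | 0 => 3
  | i + 1 => match l[i]? with
    | none => 0
    | some b => sy b

lemma enc_at (pre ds : List Bool) (b : Bool) : enc (pre ++ b :: ds) (pre.length + 1) = sy b := by
  simp [enc]

lemma enc_at0 (pre ds : List Bool) : enc (pre ++ false :: ds) (pre.length + 1) = 1 :=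
  enc_at pre ds false

lemma enc_at1 (pre ds : List Bool) : enc (pre ++ true :: ds) (pre.length + 1) = 2 :=
  enc_at pre ds true

lemma enc_end (pre : List Bool) : enc pre (pre.length + 1) = 0 := by
  simp [enc]

lemma enc_ne {l : List Bool} {h : ℕ} : enc l (h + 1) ≠ 3 := by
  unfold enc
  simp only
  cases l[h]? with
  | none => simp
  | some b => cases b <;> simp [sy]

lemma enc_upd (pre ds : List Bool) (b c : Bool) :
    Function.update (enc (pre ++ b :: ds)) (pre.length + 1) (sy c) = enc (pre ++ c :: ds) := by
  funext i
  by_cases h : i = pre.length + 1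
  · subst h
    rw [Function.update_self, enc_at]
  · rw [Function.update_of_ne h]
    cases i with
    | zero => rfl
    | succ i =>
      have hi : i ≠ pre.length := by omega
      unfold enc
      simp only
      rcases Nat.lt_or_ge i pre.length with h1 | h1
      · rw [List.getElem?_append_left h1, List.getElem?_append_left h1]
      · rw [List.getElem?_append_right h1, List.getElem?_append_right h1]
        obtain ⟨k, hk⟩ : ∃ k, i - pre.length = k + 1 := ⟨i - pre.length - 1, by omega⟩
        rw [hk, List.getElem?_cons_succ, List.getElem?_cons_succ]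

lemma enc_upd_end (pre : List Bool) :
    Function.update (enc pre) (pre.length + 1) 2 = enc (pre ++ [true]) := by
  funext i
  by_cases h : i = pre.length + 1
  · subst h
    rw [Function.update_self, enc_at]
    rfl
  · rw [Function.update_of_ne h]
    cases i with
    | zero => rfl
    | succ i =>
      have hi : i ≠ pre.length := by omega
      unfold enc
      simp only
      rcases Nat.lt_or_ge i pre.length with h1 | h1
      · rw [List.getElem?_append_left h1]
      · rw [List.getElem?_append_right h1, List.getElem?_eq_none h1]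
        obtain ⟨k, hk⟩ : ∃ k, i - pre.length = k + 1 := ⟨i - pre.length - 1, by omega⟩
        rw [hk, List.getElem?_cons_succ]
        simp

section

variable {Q R A : Type} [DecidableEq R]

/-- Move one head. -/
def hm (r : R) (D : Fin 3) : R → Fin 3 := fun r' => if r' = r then D else 1

/-- Position of one head. -/
def hp (r : R) (h : ℕ) : R → ℕ := fun r' => if r' = r then h else 0

lemma hp_self (r : R) (h : ℕ) : hp r h r = h := if_pos rfl

lemma hp_zero (r : R) : hp r 0 = fun _ => 0 := by
  funext j
  simp [hp]

/-- The machine of a counter program. -/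
def tm (P : Q → Ins Q R A) (q0 : Q) : Trans R (Ts Q) (Fin 4) A := fun s x =>
  match s with
  | .ini => (.b q0, fun _ => 3, fun _ => 1, none)
  | .b q => match P q with
    | .tst r _ _ => (.f q, x, hm r 2, none)
    | .inc r _ => (.f q, x, hm r 2, none)
    | .dec r _ => (.f q, x, hm r 2, none)
    | .out a q' => (.b q', x, fun _ => 1, some a)
    | .jmp q' => (.b q', x, fun _ => 1, none)
  | .f q => match P q with
    | .tst r _ _ => if x r = 0 then (.l q true, x, hm r 0, none)
        else if x r = 2 then (.l q false, x, hm r 0, none) else (.f q, x, hm r 2, none)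
    | .inc r _ => if x r = 2 then (.f q, Function.update x r 1, hm r 2, none)
        else (.l q true, Function.update x r 2, hm r 0, none)
    | .dec r _ => if x r = 2 then (.l q true, Function.update x r 1, hm r 0, none)
        else (.f q, Function.update x r 2, hm r 2, none)
    | _ => (.b q, x, fun _ => 1, none)
  | .l q z => match P q with
    | .tst r qz qn => if x r = 3 then (.b (if z = true then qz else qn), x, fun _ => 1, none)
        else (.l q z, x, hm r 0, none)
    | .inc r q' => if x r = 3 then (.b q', x, fun _ => 1, none) else (.l q z, x, hm r 0, none)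
    | .dec r q' => if x r = 3 then (.b q', x, fun _ => 1, none) else (.l q z, x, hm r 0, none)
    | _ => (.b q, x, fun _ => 1, none)

section

variable {Q' : Type} {δ : Trans R Q' (Fin 4) A} {s s' : Q'} {T : R → ℕ → Fin 4} {r : R} {h : ℕ}
  {O : List A} {D : Fin 3} {y : Fin 4}

lemma step_mv (hδ : δ s (fun j => T j (hp r h j)) = (s', (fun j => T j (hp r h j)), hm r D, none)) :
    step δ (s, T, hp r h, O) = (s', T, hp r (h + D - 1), O) := by
  unfold step
  simp only
  rw [hδ]
  refine Prod.ext rfl (Prod.ext ?_ (Prod.ext ?_ ?_))
  · funext j i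
    simp only
    split_ifs with hi
    · rw [hi]
    · rfl
  · funext j
    simp only [hm, hp]
    split_ifs with hj
    · rfl
    · simp
  · simp

lemma step_wr (hδ : δ s (fun j => T j (hp r h j)) =
      (s', Function.update (fun j => T j (hp r h j)) r y, hm r D, none)) :
    step δ (s, T, hp r h, O) =
      (s', Function.update T r (Function.update (T r) h y), hp r (h + D - 1), O) := by
  unfold step
  simp only
  rw [hδ]
  refine Prod.ext rfl (Prod.ext ?_ (Prod.ext ?_ ?_))
  · funext j i
    simp only
    by_cases hj : j = r
    · subst hj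
      rw [hp_self, Function.update_self, Function.update_self]
      by_cases hi : i = h
      · subst hi
        rw [if_pos rfl, Function.update_self]
      · rw [if_neg hi, Function.update_of_ne hi]
    · rw [Function.update_of_ne hj, Function.update_of_ne hj]
      split_ifs with hi
      · rw [hi]
      · rfl
  · funext j
    simp only [hm, hp]
    split_ifs with hj
    · rfl
    · simp
  · simp

lemma step_st {o : Option A} (hδ : δ s (fun j => T j (hp r h j)) =
      (s', (fun j => T j (hp r h j)), fun _ => 1, o)) :
    step δ (s, T, hp r h, O) = (s', T, hp r h, O ++ o.toList) := by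
  unfold step
  simp only
  rw [hδ]
  refine Prod.ext rfl (Prod.ext ?_ (Prod.ext ?_ rfl))
  · funext j i
    simp only
    split_ifs with hi
    · rw [hi]
    · rfl
  · funext j
    simp

lemma ok_hp {B : ℕ} {hB : h ≤ B} : ok B (s, T, hp r h, O) := by
  intro j
  simp only [hp]
  split_ifs <;> omega

end

variable (P : Q → Ins Q R A) (q0 : Q)

/-- Configurations with one moving head. -/
def cf (s : Ts Q) (T : R → ℕ → Fin 4) (r : R) (l : List Bool) (h : ℕ) (O : List A) :
    Cfg R (Ts Q) (Fin 4) A := (s, Function.update T r (enc l), hp r h, O)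

lemma read_cf (T : R → ℕ → Fin 4) (r : R) (l : List Bool) (h : ℕ) :
    (fun j => Function.update T r (enc l) j (hp r h j)) r = enc l h := by
  simp [hp_self]

lemma rd_cf (T : R → ℕ → Fin 4) (r : R) (l : List Bool) (h : ℕ) {x : Fin 4}
    (hx : enc l h = x) : Function.update T r (enc l) r (hp r h r) = x := by
  rw [Function.update_self, hp_self, hx]

lemma rd_ne (T : R → ℕ → Fin 4) (r : R) (l : List Bool) (h : ℕ) {x y : Fin 4}
    (hx : enc l h = x) (hxy : x ≠ y) : ¬ Function.update T r (enc l) r (hp r h r) = y := by
  rw [Function.update_self, hp_self, hx]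
  exact hxy

lemma Reach.step {Q' : Type} {δ : Trans R Q' (Fin 4) A} {B : ℕ}
    {c c' c'' : Cfg R Q' (Fin 4) A} (h0 : ok B c) (h1 : step δ c = c') (h2 : Reach δ B c' c'') :
    Reach δ B c c'' := by
  subst h1
  exact Reach.head _ _ h0 h2

lemma pass_tst {q qz qn : Q} {r : R} (hP : P q = .tst r qz qn) (T : R → ℕ → Fin 4)
    (O : List A) {B : ℕ} (ds pre : List Bool) (hB : (pre ++ ds).length + 1 ≤ B) :
    ∃ h', h' ≤ (pre ++ ds).length ∧ Reach (tm P q0) B (cf (.f q) T r (pre ++ ds) (pre.length + 1) O)
      (cf (.l q (zer ds)) T r (pre ++ ds) h' O) := by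
  induction ds generalizing pre with
  | nil =>
    rw [List.append_nil] at hB ⊢
    refine ⟨pre.length, le_rfl, ?_⟩
    refine Reach.one ?_ (ok_hp (hB := hB)) (ok_hp (hB := by omega))
    refine step_mv (s' := Ts.l q true) (D := 0) ?_
    simp only [tm, hP]
    rw [if_pos (rd_cf _ _ _ _ (enc_end _))]
  | cons b ds ih =>
    cases b with
    | true =>
      refine ⟨pre.length, by simp, ?_⟩
      refine Reach.one ?_ (ok_hp (hB := by simp at hB; omega)) (ok_hp (hB := by simp at hB; omega))
      refine step_mv (s' := Ts.l q false) (D := 0) ?_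
      simp only [tm, hP]
      rw [if_neg (rd_ne _ _ _ _ (enc_at1 _ _) (by decide)), if_pos (rd_cf _ _ _ _ (enc_at1 _ _))]
    | false =>
      obtain ⟨h', h1, h2⟩ := ih (pre ++ [false]) (by simpa using hB)
      simp only [List.append_assoc, List.singleton_append] at h1 h2
      refine ⟨h', h1, Reach.step (ok_hp (hB := by simp at hB; omega)) ?_ h2⟩
      have e : (pre ++ [false]).length + 1 = pre.length + 1 + ((2 : Fin 3) : ℕ) - 1 := by simp
      unfold cf
      rw [e]
      refine step_mv (s' := Ts.f q) (D := 2) ?_
      simp only [tm, hP]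
      rw [if_neg (rd_ne _ _ _ _ (enc_at0 _ _) (by decide)),
        if_neg (rd_ne _ _ _ _ (enc_at0 _ _) (by decide))]

lemma pass_inc {q q' : Q} {r : R} (hP : P q = .inc r q') (T : R → ℕ → Fin 4)
    (O : List A) {B : ℕ} (ds pre : List Bool) (hB : (pre ++ ds).length + 1 ≤ B) :
    ∃ h', h' ≤ (pre ++ ds).length ∧ Reach (tm P q0) B (cf (.f q) T r (pre ++ ds) (pre.length + 1) O)
      (cf (.l q true) T r (pre ++ incr ds) h' O) := by
  induction ds generalizing pre with
  | nil =>
    rw [List.append_nil] at hB ⊢
    refine ⟨pre.length, le_rfl, ?_⟩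
    refine Reach.one ?_ (ok_hp (hB := hB)) (ok_hp (hB := by omega))
    unfold cf
    have h := step_wr (δ := tm P q0) (s := .f q) (s' := .l q true)
      (T := Function.update T r (enc pre)) (r := r) (h := pre.length + 1) (D := 0) (y := 2)
      (O := O) (by
        simp only [tm, hP]
        rw [if_neg (rd_ne _ _ _ _ (enc_end _) (by decide))])
    rw [h, Function.update_self, Function.update_idem, enc_upd_end]
    rfl
  | cons b ds ih =>
    cases b with
    | false =>
      refine ⟨pre.length, by simp, ?_⟩
      refine Reach.one ?_ (ok_hp (hB := by simp at hB; omega)) (ok_hp (hB := by simp at hB; omega))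
      unfold cf
      have h := step_wr (δ := tm P q0) (s := .f q) (s' := .l q true)
        (T := Function.update T r (enc (pre ++ false :: ds))) (r := r) (h := pre.length + 1)
        (D := 0) (y := 2) (O := O) (by
          simp only [tm, hP]
          rw [if_neg (rd_ne _ _ _ _ (enc_at0 _ _) (by decide))])
      have e := enc_upd pre ds false true
      rw [h, Function.update_self, Function.update_idem]
      simp only [sy] at e
      rw [e]
      rfl
    | true =>
      obtain ⟨h', h1, h2⟩ := ih (pre ++ [false]) (by simpa using hB)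
      simp only [List.append_assoc, List.singleton_append] at h1 h2
      refine ⟨h', by simpa using h1, Reach.step (ok_hp (hB := by simp at hB; omega)) ?_ h2⟩
      have h := step_wr (δ := tm P q0) (s := .f q) (s' := .f q)
        (T := Function.update T r (enc (pre ++ true :: ds))) (r := r) (h := pre.length + 1)
        (D := 2) (y := 1) (O := O) (by
          simp only [tm, hP]
          rw [if_pos (rd_cf _ _ _ _ (enc_at1 _ _))])
      have e := enc_upd pre ds true false
      simp only [sy] at e
      unfold cf
      rw [h, Function.update_self, Function.update_idem, e]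
      have e2 : (pre ++ [false]).length + 1 = pre.length + 1 + ((2 : Fin 3) : ℕ) - 1 := by simp
      rw [e2]

lemma pass_dec {q q' : Q} {r : R} (hP : P q = .dec r q') (T : R → ℕ → Fin 4)
    (O : List A) {B : ℕ} (ds pre : List Bool) (hds : val ds ≠ 0)
    (hB : (pre ++ ds).length + 1 ≤ B) :
    ∃ h', h' ≤ (pre ++ ds).length ∧ Reach (tm P q0) B (cf (.f q) T r (pre ++ ds) (pre.length + 1) O)
      (cf (.l q true) T r (pre ++ decr ds) h' O) := by
  induction ds generalizing pre with
  | nil => exact absurd rfl hds
  | cons b ds ih =>
    cases b with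
    | true =>
      refine ⟨pre.length, by simp, ?_⟩
      refine Reach.one ?_ (ok_hp (hB := by simp at hB; omega)) (ok_hp (hB := by simp at hB; omega))
      unfold cf
      have h := step_wr (δ := tm P q0) (s := .f q) (s' := .l q true)
        (T := Function.update T r (enc (pre ++ true :: ds))) (r := r) (h := pre.length + 1)
        (D := 0) (y := 1) (O := O) (by
          simp only [tm, hP]
          rw [if_pos (rd_cf _ _ _ _ (enc_at1 _ _))])
      have e := enc_upd pre ds true false
      rw [h, Function.update_self, Function.update_idem]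
      simp only [sy] at e
      rw [e]
      rfl
    | false =>
      have hds' : val ds ≠ 0 := by
        simp only [val, Bool.false_eq_true, if_false, zero_add] at hds
        omega
      obtain ⟨h', h1, h2⟩ := ih (pre ++ [true]) hds' (by simpa using hB)
      simp only [List.append_assoc, List.singleton_append] at h1 h2
      refine ⟨h', by simpa using h1, Reach.step (ok_hp (hB := by simp at hB; omega)) ?_ h2⟩
      have h := step_wr (δ := tm P q0) (s := .f q) (s' := .f q)
        (T := Function.update T r (enc (pre ++ false :: ds))) (r := r) (h := pre.length + 1)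
        (D := 2) (y := 2) (O := O) (by
          simp only [tm, hP]
          rw [if_neg (rd_ne _ _ _ _ (enc_at0 _ _) (by decide))])
      have e := enc_upd pre ds false true
      simp only [sy] at e
      unfold cf
      rw [h, Function.update_self, Function.update_idem, e]
      have e2 : (pre ++ [true]).length + 1 = pre.length + 1 + ((2 : Fin 3) : ℕ) - 1 := by simp
      rw [e2]

/-- Where to go after the return. -/
def aft : Ins Q R A → Bool → Q → Q
  | .tst _ qz qn, z, _ => if z = true then qz else qn
  | .inc _ q', _, _ => q'
  | .dec _ q', _, _ => q'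
  | _, _, q => q

/-- Register of an instruction. -/
def reg : Ins Q R A → Option R
  | .tst r _ _ => some r
  | .inc r _ => some r
  | .dec r _ => some r
  | _ => none

lemma pass_back {q : Q} {r : R} (hr : reg (P q) = some r) (z : Bool) (T : R → ℕ → Fin 4)
    (O : List A) {B : ℕ} (l : List Bool) (h : ℕ) (hB : h ≤ B) :
    Reach (tm P q0) B (cf (.l q z) T r l h O) (cf (.b (aft (P q) z q)) T r l 0 O) := by
  induction h with
  | zero =>
    refine Reach.one ?_ (ok_hp (hB := hB)) (ok_hp (hB := hB))
    have := step_st (δ := tm P q0) (s := .l q z) (s' := .b (aft (P q) z q))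
      (T := Function.update T r (enc l)) (r := r) (h := 0) (O := O) (o := none) (by
        have e := read_cf T r l 0
        have e2 : enc l 0 = 3 := rfl
        rw [e2] at e
        simp only at e
        simp only [tm]
        cases hP : P q with
        | tst r' a b =>
          rw [hP] at hr
          cases hr
          simp only [aft]
          rw [if_pos e]
        | inc r' a =>
          rw [hP] at hr
          cases hr
          simp only [aft]
          rw [if_pos e]
        | dec r' a =>
          rw [hP] at hr
          cases hr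
          simp only [aft]
          rw [if_pos e]
        | out a b => rw [hP] at hr; cases hr
        | jmp a => rw [hP] at hr; cases hr)
    rw [Option.toList_none, List.append_nil] at this
    exact this
  | succ h ih =>
    refine Reach.step (ok_hp (hB := hB)) ?_ (ih (by omega))
    have := step_mv (δ := tm P q0) (s := .l q z) (s' := .l q z)
      (T := Function.update T r (enc l)) (r := r) (h := h + 1) (O := O) (D := 0) (by
        have e := read_cf T r l (h + 1)
        have e2 : enc l (h + 1) ≠ 3 := enc_ne
        rw [← e] at e2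
        simp only at e2
        simp only [tm]
        cases hP : P q with
        | tst r' a b =>
          rw [hP] at hr
          cases hr
          simp only
          rw [if_neg e2]
        | inc r' a =>
          rw [hP] at hr
          cases hr
          simp only
          rw [if_neg e2]
        | dec r' a =>
          rw [hP] at hr
          cases hr
          simp only
          rw [if_neg e2]
        | out a b => rw [hP] at hr; cases hr
        | jmp a => rw [hP] at hr; cases hr)
    exact this

/-! ### Runs of counter programs -/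

/-- One step of a counter program, all registers at most `N`. -/
inductive CStep (P : Q → Ins Q R A) (N : ℕ) :
    Q × (R → ℕ) × List A → Q × (R → ℕ) × List A → Prop
  | tz (q : Q) (v : R → ℕ) (O : List A) (r : R) (qz qn : Q) (h : P q = .tst r qz qn)
      (h0 : v r = 0) : CStep P N (q, v, O) (qz, v, O)
  | tn (q : Q) (v : R → ℕ) (O : List A) (r : R) (qz qn : Q) (h : P q = .tst r qz qn)
      (h0 : v r ≠ 0) : CStep P N (q, v, O) (qn, v, O)
  | inc (q : Q) (v : R → ℕ) (O : List A) (r : R) (q' : Q) (h : P q = .inc r q')
      (h0 : v r + 1 ≤ N) : CStep P N (q, v, O) (q', Function.update v r (v r + 1), O)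
  | dec (q : Q) (v : R → ℕ) (O : List A) (r : R) (q' : Q) (h : P q = .dec r q')
      (h0 : v r ≠ 0) : CStep P N (q, v, O) (q', Function.update v r (v r - 1), O)
  | out (q : Q) (v : R → ℕ) (O : List A) (a : A) (q' : Q) (h : P q = .out a q') :
      CStep P N (q, v, O) (q', v, O ++ [a])
  | jmp (q : Q) (v : R → ℕ) (O : List A) (q' : Q) (h : P q = .jmp q') :
      CStep P N (q, v, O) (q', v, O)

/-- The digits represent the registers. -/
def Rp (N : ℕ) (ds : R → List Bool) (v : R → ℕ) : Prop :=
  ∀ r, val (ds r) = v r ∧ 2 ^ (ds r).length ≤ 2 * N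

lemma Rp.mono {N N' : ℕ} {ds : R → List Bool} {v : R → ℕ} (h : Rp N ds v) (hN : N ≤ N') :
    Rp N' ds v := fun r => ⟨(h r).1, (h r).2.trans (by omega)⟩

/-- Configurations of the machine. -/
def tc (q : Q) (ds : R → List Bool) (O : List A) : Cfg R (Ts Q) (Fin 4) A :=
  (.b q, fun r => enc (ds r), fun _ => 0, O)

lemma cf_upd (s : Ts Q) (ds : R → List Bool) (r : R) (l : List Bool) (h : ℕ) (O : List A) :
    cf s (fun r => enc (ds r)) r l h O =
      (s, fun r' => enc (Function.update ds r l r'), hp r h, O) := by
  unfold cf
  congr 2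
  funext r'
  by_cases h : r' = r
  · subst h
    simp
  · simp [h]

lemma cf_self (s : Ts Q) (ds : R → List Bool) (r : R) (h : ℕ) (O : List A) :
    cf s (fun r => enc (ds r)) r (ds r) h O = (s, fun r' => enc (ds r'), hp r h, O) := by
  rw [cf_upd, Function.update_eq_self]

lemma start_reg {q : Q} {r : R} (hr : reg (P q) = some r) (ds : R → List Bool) (O : List A)
    {B : ℕ} {c : Cfg R (Ts Q) (Fin 4) A} (h1 : 1 ≤ B)
    (h : Reach (tm P q0) B (cf (.f q) (fun r => enc (ds r)) r (ds r) 1 O) c) :
    Reach (tm P q0) B (tc q ds O) c := by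
  refine Reach.step (c' := cf (.f q) (fun r => enc (ds r)) r (ds r) 1 O) ?_ ?_ h
  · intro j
    exact Nat.zero_le _
  · rw [cf_self]
    unfold tc
    rw [← hp_zero r]
    have := step_mv (δ := tm P q0) (s := .b q) (s' := .f q)
      (T := fun r => enc (ds r)) (r := r) (h := 0) (O := O) (D := 2) (by
        simp only [tm]
        cases hP : P q with
        | tst r' a b => rw [hP] at hr; cases hr; rfl
        | inc r' a => rw [hP] at hr; cases hr; rfl
        | dec r' a => rw [hP] at hr; cases hr; rfl
        | out a b => rw [hP] at hr; cases hr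
        | jmp a => rw [hP] at hr; cases hr)
    exact this

lemma end_reg (q : Q) (ds : R → List Bool) (r : R) (l : List Bool) (O : List A) :
    cf (.b q) (fun r => enc (ds r)) r l 0 O = tc q (Function.update ds r l) O := by
  rw [cf_upd, hp_zero]
  rfl

lemma sim_step {N B : ℕ} (hB : ∀ L, 2 ^ L ≤ 2 * N → L + 1 ≤ B) (hN : 1 ≤ N)
    {c c' : Q × (R → ℕ) × List A} (h : CStep P N c c') (ds : R → List Bool)
    (hds : Rp N ds c.2.1) : ∃ ds', Rp N ds' c'.2.1 ∧
      Reach (tm P q0) B (tc c.1 ds c.2.2) (tc c'.1 ds' c'.2.2) := by
  have hB1 : 1 ≤ B := by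
    have := hB 0 (by omega)
    omega
  cases h with
  | tz q v O r qz qn h h0 =>
    refine ⟨ds, hds, ?_⟩
    have hr : reg (P q) = some r := by rw [h]; rfl
    have hl := hB _ (hds r).2
    obtain ⟨h', h1, h2⟩ := pass_tst P q0 h (fun r => enc (ds r)) O (ds r) [] hl
    have h3 := pass_back P q0 hr (zer (ds r)) (fun r => enc (ds r)) O (B := B) (ds r) h'
      (h1.trans (by simpa using (by omega : (ds r).length ≤ B)))
    have h4 := start_reg P q0 hr ds O hB1 (h2.trans h3)
    have hz : zer (ds r) = true := by
      rw [zer_iff, (hds r).1]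
      exact h0
    have e : aft (P q) (zer (ds r)) q = qz := by rw [h, hz]; rfl
    rw [e] at h4
    have e2 := end_reg qz ds r (ds r) O
    rw [Function.update_eq_self] at e2
    rw [e2] at h4
    exact h4
  | tn q v O r qz qn h h0 =>
    refine ⟨ds, hds, ?_⟩
    have hr : reg (P q) = some r := by rw [h]; rfl
    have hl := hB _ (hds r).2
    obtain ⟨h', h1, h2⟩ := pass_tst P q0 h (fun r => enc (ds r)) O (ds r) [] hl
    have h3 := pass_back P q0 hr (zer (ds r)) (fun r => enc (ds r)) O (B := B) (ds r) h'
      (h1.trans (by simpa using (by omega : (ds r).length ≤ B)))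
    have h4 := start_reg P q0 hr ds O hB1 (h2.trans h3)
    have hz : zer (ds r) = false := by
      rw [← Bool.not_eq_true, zer_iff, (hds r).1]
      exact h0
    have e : aft (P q) (zer (ds r)) q = qn := by rw [h, hz]; rfl
    rw [e] at h4
    have e2 := end_reg qn ds r (ds r) O
    rw [Function.update_eq_self] at e2
    rw [e2] at h4
    exact h4
  | inc q v O r q' h h0 =>
    refine ⟨Function.update ds r (incr (ds r)), ?_, ?_⟩
    · intro r'
      show val (Function.update ds r (incr (ds r)) r') = Function.update v r (v r + 1) r' ∧ _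
      by_cases hr' : r' = r
      · subst hr'
        rw [Function.update_self, Function.update_self]
        refine ⟨by rw [val_incr, (hds r').1], ?_⟩
        apply len_incr _ _ (hds r').2
        rw [val_incr, (hds r').1]
        exact h0
      · rw [Function.update_of_ne hr', Function.update_of_ne hr']
        exact hds r'
    · have hr : reg (P q) = some r := by rw [h]; rfl
      have hl := hB _ (hds r).2
      obtain ⟨h', h1, h2⟩ := pass_inc P q0 h (fun r => enc (ds r)) O (ds r) [] hl
      have h3 := pass_back P q0 hr true (fun r => enc (ds r)) O (B := B) (incr (ds r)) h'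
        (h1.trans (by simpa using (by omega : (ds r).length ≤ B)))
      have h4 := start_reg P q0 hr ds O hB1 (h2.trans h3)
      have e : aft (P q) true q = q' := by rw [h]; rfl
      rw [e, end_reg] at h4
      exact h4
  | dec q v O r q' h h0 =>
    have hv : val (ds r) ≠ 0 := by rw [(hds r).1]; exact h0
    refine ⟨Function.update ds r (decr (ds r)), ?_, ?_⟩
    · intro r'
      show val (Function.update ds r (decr (ds r)) r') = Function.update v r (v r - 1) r' ∧ _
      by_cases hr' : r' = r
      · subst hr'
        rw [Function.update_self, Function.update_self]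
        refine ⟨by rw [val_decr _ hv, (hds r').1], ?_⟩
        rw [len_decr]
        exact (hds r').2
      · rw [Function.update_of_ne hr', Function.update_of_ne hr']
        exact hds r'
    · have hr : reg (P q) = some r := by rw [h]; rfl
      have hl := hB _ (hds r).2
      obtain ⟨h', h1, h2⟩ := pass_dec P q0 h (fun r => enc (ds r)) O (ds r) [] hv hl
      have h3 := pass_back P q0 hr true (fun r => enc (ds r)) O (B := B) (decr (ds r)) h'
        (h1.trans (by simpa using (by omega : (ds r).length ≤ B)))
      have h4 := start_reg P q0 hr ds O hB1 (h2.trans h3)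
      have e : aft (P q) true q = q' := by rw [h]; rfl
      rw [e, end_reg] at h4
      exact h4
  | out q v O a q' h =>
    refine ⟨ds, hds, ?_⟩
    refine Reach.one ?_ (fun j => Nat.zero_le _) (fun j => Nat.zero_le _)
    unfold step tc
    simp only [tm, h]
    refine Prod.ext rfl (Prod.ext ?_ (Prod.ext ?_ rfl))
    · funext j i
      simp only
      split_ifs with hi
      · rw [hi]
      · rfl
    · funext j
      simp
  | jmp q v O q' h =>
    refine ⟨ds, hds, ?_⟩
    refine Reach.one ?_ (fun j => Nat.zero_le _) (fun j => Nat.zero_le _)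
    unfold step tc
    simp only [tm, h]
    refine Prod.ext rfl (Prod.ext ?_ (Prod.ext ?_ ?_))
    · funext j i
      simp only
      split_ifs with hi
      · rw [hi]
      · rfl
    · funext j
      simp
    · simp

/-- Runs. -/
def CS (P : Q → Ins Q R A) (N : ℕ) : Q × (R → ℕ) × List A → Q × (R → ℕ) × List A → Prop :=
  Relation.ReflTransGen (CStep P N)

lemma sim_run {N B : ℕ} (hB : ∀ L, 2 ^ L ≤ 2 * N → L + 1 ≤ B) (hN : 1 ≤ N)
    {c c' : Q × (R → ℕ) × List A} (h : CS P N c c') (ds : R → List Bool)
    (hds : Rp N ds c.2.1) : ∃ ds', Rp N ds' c'.2.1 ∧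
      Reach (tm P q0) B (tc c.1 ds c.2.2) (tc c'.1 ds' c'.2.2) := by
  induction h with
  | refl => exact ⟨ds, hds, Reach.refl _ fun j => Nat.zero_le _⟩
  | tail _ hs ih =>
    obtain ⟨ds1, h1, h2⟩ := ih
    obtain ⟨ds2, h3, h4⟩ := sim_step P q0 hB hN hs ds1 h1
    exact ⟨ds2, h3, h2.trans h4⟩

lemma Reach.monoB {δ : Trans R (Ts Q) (Fin 4) A} {B B' : ℕ} {c c' : Cfg R (Ts Q) (Fin 4) A}
    (h : Reach δ B c c') (hB : B ≤ B') : Reach δ B' c c' := by
  induction h with
  | refl c hc => exact Reach.refl _ fun j => (hc j).trans hB
  | head c c' hc _ ih => exact Reach.head _ _ (fun j => (hc j).trans hB) ih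

end

instance {Q : Type} [Finite Q] : Finite (Ts Q) := by
  let f : Ts Q → Unit ⊕ Q ⊕ Q ⊕ (Q × Bool) := fun x =>
    match x with
    | .ini => Sum.inl ()
    | .b q => Sum.inr (Sum.inl q)
    | .f q => Sum.inr (Sum.inr (Sum.inl q))
    | .l q z => Sum.inr (Sum.inr (Sum.inr (q, z)))
  apply Finite.of_injective f
  intro x y h
  cases x <;> cases y <;> simp_all [f]

/-- A word generated by a counter program whose registers are polynomially bounded is in
logarithmic space. -/
theorem log_of_cm {Q R : Type} [Finite Q] [Finite R] [DecidableEq R] {d : ℕ} (P : Q → Ins Q R (Fin d))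
    (w : ℕ → Fin d) (Nf : ℕ → ℕ) (B0 e : ℕ) (hmono : Monotone Nf) (h1 : 1 ≤ Nf 0)
    (hNf : ∀ n, Nf n ≤ B0 * (n + 1) ^ e) (qs : ℕ → Q) (vs : ℕ → R → ℕ) (hv0 : vs 0 = fun _ => 0)
    (hrun : ∀ n, CS P (Nf n) (qs n, vs n, (List.range n).map w)
      (qs (n + 1), vs (n + 1), (List.range n).map w ++ [w n])) : LogSpace w := by
  classical
  set δ := tm P (qs 0) with hδ
  set Bf : ℕ → ℕ := fun n => Nat.log 2 (2 * Nf n) + 1 with hBf
  have hBmono : Monotone Bf := by
    intro a b hab
    simp only [hBf]
    have := Nat.log_mono_right (b := 2) (Nat.mul_le_mul_left 2 (hmono hab))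
    omega
  have hpos : ∀ n, 1 ≤ Nf n := fun n => h1.trans (hmono (Nat.zero_le n))
  have hB : ∀ n L, 2 ^ L ≤ 2 * Nf n → L + 1 ≤ Bf n := by
    intro n L hL
    have h2 : 2 * Nf n ≠ 0 := by have := hpos n; omega
    have := Nat.le_log_of_pow_le (b := 2) (by norm_num) hL
    simp only [hBf]
    omega
  set c0 : Cfg R (Ts Q) (Fin 4) (Fin d) := (.ini, fun _ _ => 0, fun _ => 0, []) with hc0
  have key : ∀ n, ∃ ds, Rp (Nf n) ds (vs n) ∧
      Reach δ (Bf n) c0 (tc (qs n) ds ((List.range n).map w)) := by
    intro n
    induction n with
    | zero =>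
      refine ⟨fun _ => [], ?_, ?_⟩
      · intro r
        rw [hv0]
        refine ⟨rfl, ?_⟩
        have := hpos 0
        simp only [List.length_nil, pow_zero]
        omega
      · refine Reach.one ?_ (fun j => Nat.zero_le _) (fun j => Nat.zero_le _)
        rw [hc0, hδ]
        unfold step tc
        simp only [tm]
        refine Prod.ext rfl (Prod.ext ?_ (Prod.ext ?_ rfl))
        · funext j i
          simp only
          cases i with
          | zero => rfl
          | succ i => simp [enc]
        · funext j
          simp
    | succ n ih =>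
      obtain ⟨ds, k1, k2⟩ := ih
      obtain ⟨ds', k3, k4⟩ := sim_run P (qs 0) (hB n) (hpos n) (hrun n) ds k1
      have e : (List.range (n + 1)).map w = (List.range n).map w ++ [w n] := by
        rw [List.range_succ, List.map_append]
        rfl
      refine ⟨ds', k3.mono (hmono (by omega)), ?_⟩
      rw [e]
      exact Reach.monoB (k2.trans k4) (hBmono (by omega))
  -- times
  have key2 : ∀ n, ∃ t, ((step δ)^[t] c0).2.2.2 = (List.range n).map w ∧
      ∀ i ≤ t, ok (Bf n) ((step δ)^[i] c0) := by
    intro n
    obtain ⟨ds, -, k⟩ := key n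
    obtain ⟨t, k1, k2⟩ := k.iter
    exact ⟨t, by rw [k1]; rfl, k2⟩
  obtain ⟨m, k, g, δM, conf, ee, hh0, hstep, hout, hhead⟩ := encode (ι := R) (Ts.ini : Ts Q)
    (0 : Fin 4) δ
  have hout' : ∀ t, (conf t).2.2.2 = ((step δ)^[t] c0).2.2.2 := hout
  have hhead' : ∀ t j, (conf t).2.2.1 j = ((step δ)^[t] c0).2.2.1 (ee.symm j) := hhead
  refine ⟨m, k, g, Nat.log 2 (2 * B0 + 1) + e + 4, δM, conf, hh0, hstep, ?_, ?_, ?_⟩
  · intro t i h
    obtain ⟨s, hs, -⟩ := key2 ((conf t).2.2.2.length + 1)
    have hts : t ≤ s := by
      by_contra hcon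
      have hp := out_prefix_iter δ c0 s t (by omega)
      rw [hs, ← hout'] at hp
      have := hp.length_le
      simp at this
    have hp := out_prefix_iter δ c0 t s hts
    rw [hs, ← hout'] at hp
    rw [hp.getElem h]
    simp
  · intro n
    obtain ⟨t, ht, -⟩ := key2 n
    refine ⟨t, ?_⟩
    rw [hout', ht]
    simp
  · intro n t hn ht j
    obtain ⟨s, hs, hok⟩ := key2 n
    have hts : t ≤ s := by
      by_contra hcon
      have := ht s (by omega)
      rw [hout', hs] at this
      simp at this
    have h2 := hok t hts (ee.symm j)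
    rw [hhead']
    have h3 : ((step δ)^[t] c0).2.2.1 (ee.symm j) ≤ Nat.log 2 (2 * Nf n) + 1 := h2
    have hlog : Nat.log 2 (2 * Nf n) < (Nat.log 2 (2 * B0 + 1) + 1) + (Nat.log 2 n + 1) * e := by
      have hb : 2 * B0 + 1 < 2 ^ (Nat.log 2 (2 * B0 + 1) + 1) :=
        Nat.lt_pow_succ_log_self (by omega) _
      have hn' : n < 2 ^ (Nat.log 2 n + 1) := Nat.lt_pow_succ_log_self (by omega) _
      have hn1 : n + 1 ≤ 2 ^ (Nat.log 2 n + 1) := hn'
      apply Nat.log_lt_of_lt_pow
      · have := hpos n; omega
      · rw [pow_add, pow_mul]
        calc 2 * Nf n ≤ 2 * (B0 * (n + 1) ^ e) := Nat.mul_le_mul_left _ (hNf n)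
          _ = (2 * B0) * (n + 1) ^ e := by ring
          _ < 2 ^ (Nat.log 2 (2 * B0 + 1) + 1) * (2 ^ (Nat.log 2 n + 1)) ^ e :=
            Nat.mul_lt_mul_of_lt_of_le (by omega) (Nat.pow_le_pow_left hn1 e) (by positivity)
    have h4 : (Nat.log 2 (2 * B0 + 1) + e + 4) * (Nat.log 2 n + 1) =
        Nat.log 2 (2 * B0 + 1) * Nat.log 2 n + Nat.log 2 (2 * B0 + 1) + (Nat.log 2 n + 1) * e +
          4 * Nat.log 2 n + 4 := by ring
    have h0 : 0 ≤ Nat.log 2 (2 * B0 + 1) * Nat.log 2 n := Nat.zero_le _
    omega

end Pool.Agent.W_MP_5d512e_dic
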